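import Pool.Agent.MP_d1780f_co.H86.HL

/-! Affine setting: the space `L` of affine functions on the vertices; a vanishing theorem for
affine stresses supported in a hyperplane. -/

set_option linter.unusedSectionVars false

namespace Pool.Agent.MP_d1780f_co.H86

open Module MvPolynomial Finset Filter Topology

universe u

variable {V : Type u} [Fintype V] [DecidableEq V]

def AFace (L : Submodule ℝ (V → ℝ)) (σ : Finset V) : Prop :=
  ∃ z ∈ L, (∀ v, 0 ≤ z v) ∧ z ≠ 0 ∧ ∀ v ∈ σ, z v = 0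

def Th (L : Submodule ℝ (V → ℝ)) (w : V → ℝ) : Submodule ℝ (V → ℝ) where
  carrier := {θ | θ ∈ L ∧ w ⬝ᵥ θ = 0}
  add_mem' := fun {a b} ha hb => ⟨L.add_mem ha.1 hb.1, by simp [ha.2, hb.2]⟩
  zero_mem' := ⟨L.zero_mem, by simp⟩
  smul_mem' := fun c a ha => ⟨L.smul_mem c ha.1, by simp [ha.2]⟩

lemma mem_Th {L : Submodule ℝ (V → ℝ)} {w θ : V → ℝ} : θ ∈ Th L w ↔ θ ∈ L ∧ w ⬝ᵥ θ = 0 := Iff.rfl

structure Aff (L : Submodule ℝ (V → ℝ)) (d : ℕ) : Prop where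
  one : (1 : V → ℝ) ∈ L
  rank : finrank ℝ L = d + 1
  simp : ∀ σ, AFace L σ → Indep L σ

variable {L : Submodule ℝ (V → ℝ)} {d : ℕ} {w : V → ℝ}

lemma AFace.mono {σ τ : Finset V} (h : AFace L τ) (hs : σ ⊆ τ) : AFace L σ := by
  obtain ⟨z, a, b, c, e⟩ := h
  exact ⟨z, a, b, c, fun v hv => e v (hs hv)⟩

lemma dot_pos {z : V → ℝ} (hw : ∀ v, 0 < w v) (hz : ∀ v, 0 ≤ z v) (h0 : z ≠ 0) : 0 < w ⬝ᵥ z := by
  obtain ⟨v, hv⟩ := Function.ne_iff.1 h0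
  exact sum_pos' (fun u _ => mul_nonneg (hw u).le (hz u))
    ⟨v, mem_univ v, mul_pos (hw v) (lt_of_le_of_ne (hz v) (Ne.symm hv))⟩

lemma Aff.one_ne (hL : Aff L d) : (1 : V → ℝ) ≠ 0 := by
  have h1 := L.finrank_le
  rw [hL.rank, finrank_fintype_fun_eq_card] at h1
  obtain ⟨v⟩ : Nonempty V := Fintype.card_pos_iff.1 (by omega)
  intro h; simpa using congrFun h v

lemma Aff.dot_one_pos (hL : Aff L d) (hw : ∀ v, 0 < w v) : 0 < w ⬝ᵥ 1 :=
  dot_pos hw (fun _ => zero_le_one) hL.one_ne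

lemma sub_smul_mem_Th {a z : V → ℝ} (ha : a ∈ L) (hz : z ∈ L) (h : w ⬝ᵥ z ≠ 0) :
    a - ((w ⬝ᵥ a) / (w ⬝ᵥ z)) • z ∈ Th L w :=
  ⟨L.sub_mem ha (L.smul_mem _ hz), by simp [h]⟩

lemma Aff.face_Th (hL : Aff L d) (hw : ∀ v, 0 < w v) : Face (Th L w) 1 = AFace L := by
  funext σ
  apply propext
  have h1 := hL.dot_one_pos hw
  constructor
  · rintro ⟨z, ⟨a, b⟩, c⟩
    refine ⟨z, by simpa using L.add_mem a.1 hL.one, b, ?_, c⟩
    rintro rfl
    have := a.2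
    simp at this; exact h1.ne' this
  · rintro ⟨z, a, b, c, e⟩
    have h2 := dot_pos hw b c
    refine ⟨((w ⬝ᵥ 1) / (w ⬝ᵥ z)) • z, ⟨?_, fun v => mul_nonneg (div_pos h1 h2).le (b v)⟩,
      fun v hv => by simp [e v hv]⟩
    simpa using (Th L w).neg_mem (sub_smul_mem_Th hL.one a h2.ne')

lemma indep_Th {σ : Finset V} (hi : Indep L σ) {z : V → ℝ} (hz : z ∈ L) (h0 : ∀ v ∈ σ, z v = 0)
    (h : w ⬝ᵥ z ≠ 0) : Indep (Th L w) σ := by
  intro a
  obtain ⟨θ, h1, h2⟩ := hi a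
  exact ⟨_, sub_smul_mem_Th h1 hz h, fun v hv => by simp [h0 v hv, h2 v hv]⟩

lemma Aff.simple_Th (hL : Aff L d) (hw : ∀ v, 0 < w v) : Simple (Th L w) 1 := by
  intro σ hσ
  rw [hL.face_Th hw] at hσ
  obtain ⟨z, a, b, c, e⟩ := id hσ
  exact indep_Th (hL.simp σ hσ) a e (dot_pos hw b c).ne'

lemma bdd_Th (hw : ∀ v, 0 < w v) : Bdd (Th L w) := ⟨w, hw, fun _ h => h.2⟩

lemma finrank_Th {z : V → ℝ} (hz : z ∈ L) (h : w ⬝ᵥ z ≠ 0) :
    finrank ℝ (Th L w) + 1 = finrank ℝ L := by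
  let f : L →ₗ[ℝ] ℝ := (dotProductBilin ℝ ℝ w).domRestrict L
  have hf : ∀ x : L, f x = w ⬝ᵥ x.1 := fun x => rfl
  have h1 := f.finrank_range_add_finrank_ker
  have h2 : LinearMap.range f = ⊤ := by
    rw [eq_top_iff]; intro c _
    exact ⟨⟨(c / (w ⬝ᵥ z)) • z, L.smul_mem _ hz⟩, by simp [hf, h]⟩
  have h3 : Th L w = (LinearMap.ker f).map L.subtype := by
    ext x
    simp only [mem_Th, Submodule.mem_map, LinearMap.mem_ker, Submodule.subtype_apply, hf]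
    exact ⟨fun ⟨a, b⟩ => ⟨⟨x, a⟩, b, rfl⟩, by rintro ⟨y, a, rfl⟩; exact ⟨y.2, a⟩⟩
  rw [h2] at h1
  rw [h3, Submodule.finrank_map_subtype_eq]
  simp at h1; omega

lemma Aff.finrank_Th (hL : Aff L d) (hw : ∀ v, 0 < w v) : finrank ℝ (Th L w) = d := by
  have := H86.finrank_Th hL.one (hL.dot_one_pos hw).ne'
  rw [hL.rank] at this; omega

lemma Aff.exact (hL : Aff L d) {σ : Finset V} (hσ : AFace L σ) :
    ∃ z ∈ L, (∀ v, 0 ≤ z v) ∧ ∀ v, z v = 0 ↔ v ∈ σ := by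
  have hw : ∀ v, 0 < (1 : V → ℝ) v := fun _ => one_pos
  rw [← hL.face_Th hw] at hσ
  obtain ⟨z, a, b⟩ := (hL.simple_Th hw).exact hσ
  exact ⟨z, by simpa using L.add_mem a.1.1 hL.one, a.2, b⟩

/-- Surjectivity half of hard Lefschetz, in dual form. -/
theorem lefschetz_surj {Θ : Submodule ℝ (V → ℝ)} {h : V → ℝ} (hb : Bdd Θ) (hs : Simple Θ h)
    {n : S V →ₗ[ℝ] ℝ} {k : ℕ} (hn : InDeg k n) (hk : finrank ℝ Θ < 2 * k)
    (hJ : J Θ (Face Θ h) ≤ K n) (hh : lin h ∈ K n) : n = 0 := by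
  obtain ⟨φ, hφ⟩ := exists_isDeg hb hs
  have hKJ : ∀ f ∈ H V k, f ∈ K φ → n f = 0 := fun f hf hK =>
    K_apply (hJ (mem_J_of_mem_K hb hs hφ hf hK))
  refine eq_zero_of_inDeg hn ?_
  by_cases hlt : finrank ℝ Θ < k
  · exact fun f hf => hKJ f hf (mem_K_of_lt hφ.deg hf hlt)
  obtain ⟨a, ha⟩ : ∃ a, k + a = finrank ℝ Θ := ⟨finrank ℝ Θ - k, by omega⟩
  let B : H V k →ₗ[ℝ] H V a →ₗ[ℝ] ℝ := LinearMap.mk₂ ℝ (fun f g => φ (f.1 * g.1))
    (fun a b c => by simp [add_mul]) (fun c a b => by simp) (fun a b c => by simp [mul_add])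
    (fun c a b => by simp)
  have hB : ∀ f g, B f g = φ (f.1 * g.1) := fun _ _ => rfl
  have h1 : n ∘ₗ (H V k).subtype ∈ (LinearMap.ker B).dualAnnihilator := by
    rw [Submodule.mem_dualAnnihilator]
    intro f hf
    refine hKJ f.1 f.2 (mem_K_of_homog hφ.deg f.2 fun m hm g hg => ?_)
    have : m = a := by omega
    subst this
    exact DFunLike.congr_fun (LinearMap.mem_ker.1 hf) ⟨g, hg⟩
  rw [LinearMap.dualAnnihilator_ker_eq_range_flip] at h1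
  obtain ⟨s, hs'⟩ := h1
  have h2 : ∀ f ∈ H V k, n f = φ (f * s.1) := fun f hf =>
    (DFunLike.congr_fun hs' ⟨f, hf⟩).symm
  have h3 : s.1 ∈ K φ := by
    refine lefschetz_inj hb hs hφ (by omega) s.2
      (mem_K_of_homog hφ.deg (mul_memH (lin_mem h) s.2) fun m hm g hg => ?_)
    rw [mul_right_comm, ← h2 _ (mul_memH' (lin_mem h) hg (by omega))]
    exact hh g
  intro f hf
  rw [h2 f hf, mul_comm]; exact h3 f

lemma exists_dep {Θ : Submodule ℝ (V → ℝ)} {T : Finset V} (h : ¬ Indep Θ T) :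
    ∃ x : V → ℝ, x ≠ 0 ∧ (∀ v, v ∉ T → x v = 0) ∧ ∀ θ ∈ Θ, x ⬝ᵥ θ = 0 := by
  have h1 : LinearMap.range (res Θ T) < ⊤ := lt_top_iff_ne_top.2 fun e =>
    h (indep_of_surj (LinearMap.range_eq_top.1 e))
  obtain ⟨f, hf, hf'⟩ := Submodule.exists_le_ker_of_lt_top _ h1
  refine ⟨fun v => if hv : v ∈ T then f (Pi.single ⟨v, hv⟩ 1) else 0, fun h0 => hf ?_,
    fun v hv => by simp [hv], fun θ hθ => ?_⟩
  · refine LinearMap.pi_ext' fun v => LinearMap.ext_ring ?_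
    have := congrFun h0 v.1
    simpa using this
  · have := hf' ⟨⟨θ, hθ⟩, rfl⟩
    rw [LinearMap.mem_ker, LinearMap.pi_apply_eq_sum_univ] at this
    rw [dotProduct, ← sum_subset (subset_univ T) (fun v _ hv => by simp [hv]), ← sum_attach,
      ← this]
    refine sum_congr rfl fun v _ => ?_
    simp only [v.2, dif_pos, smul_eq_mul]
    rw [mul_comm]
    congr 2
    funext u; simp [Pi.single_apply, eq_comm]

lemma exists_small_avoid {κ ι ι' : Type u} [Fintype κ] [DecidableEq κ] [Finite ι] [Finite ι']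
    (u : ι → κ → ℝ) (c : ι → ℝ) (a : ι' → κ) (b : ι' → ℝ) :
    ∃ e : κ → ℝ, (∀ k, 0 < e k) ∧ (∀ i, u i ≠ 0 → u i ⬝ᵥ e ≠ c i) ∧ ∀ i, 0 < b i → e (a i) < b i := by
  obtain ⟨e, h1, -, h2⟩ := exists_pos_avoid u (R := 1) one_ne_zero
  have e1 : ∀ᶠ δ in 𝓝[>] (0 : ℝ), ∀ i, u i ≠ 0 → δ * (u i ⬝ᵥ e) ≠ c i := by
    rw [eventually_all]
    intro i
    by_cases hc : c i = 0
    · filter_upwards [self_mem_nhdsWithin] with δ hδ hi
      rw [hc, dotProduct_comm]; exact mul_ne_zero (ne_of_gt hδ) (h2 i hi)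
    · have : Continuous fun δ : ℝ => δ * (u i ⬝ᵥ e) := by fun_prop
      exact (((this.tendsto 0).eventually_ne (by simpa using Ne.symm hc)).filter_mono
        nhdsWithin_le_nhds).mono fun _ h _ => h
  have e2 : ∀ᶠ δ in 𝓝[>] (0 : ℝ), ∀ i, 0 < b i → δ * e (a i) < b i := by
    rw [eventually_all]
    intro i
    by_cases hc : 0 < b i
    · have : Continuous fun δ : ℝ => δ * e (a i) := by fun_prop
      exact (((this.tendsto 0).eventually (gt_mem_nhds (by simpa using hc))).filter_mono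
        nhdsWithin_le_nhds).mono fun _ h _ => h
    · exact Eventually.of_forall fun _ h => absurd h hc
  obtain ⟨δ, f1, f2, f3⟩ := (e1.and (e2.and self_mem_nhdsWithin)).exists
  exact ⟨δ • e, fun k => mul_pos f3 (h1 k), fun i hi => by simpa using f1 i hi,
    fun i hi => by simpa using f2 i hi⟩

end Pool.Agent.MP_d1780f_co.H86
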