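import Mathlib

/-! Algebraic tools: lifting, squarefree parts over a polynomial ring, primary decomposition. -/

namespace Pool.Agent.MP_d1780f_co.H86

open Polynomial Filter Topology Finset

lemma exists_lift {E E' W : Type*} [AddCommGroup E] [Module ℝ E] [AddCommGroup E'] [Module ℝ E']
    [AddCommGroup W] [Module ℝ W] (F : E →ₗ[ℝ] W) (Ψ : E' →ₗ[ℝ] W) (U : Submodule ℝ W)
    (h : ∀ e, ∃ e', F e - Ψ e' ∈ U) : ∃ σ : E →ₗ[ℝ] E', ∀ e, F e - Ψ (σ e) ∈ U := by
  choose c hc using h
  let b := Module.Basis.ofVectorSpace ℝ E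
  refine ⟨b.constr ℝ fun i => c (b i), fun e => ?_⟩
  have : U.mkQ ∘ₗ (F - Ψ ∘ₗ b.constr ℝ fun i => c (b i)) = 0 := by
    refine b.ext fun i => ?_
    simp only [LinearMap.comp_apply, LinearMap.sub_apply, Module.Basis.constr_basis,
      LinearMap.zero_apply, Submodule.mkQ_apply, Submodule.Quotient.mk_eq_zero]
    exact hc _
  have := DFunLike.congr_fun this e
  simpa [← Submodule.Quotient.mk_sub] using this

lemma exists_sqfree_part {R : Type*} [CommRing R] [IsDomain R] [CharZero R] {χ : R[X]}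
    (hχ : χ ≠ 0) : ∃ (g u A B : R[X]) (r r' : R) (N : ℕ), r ≠ 0 ∧ r' ≠ 0 ∧
      C r * g ^ N = χ * u ∧ A * g + B * derivative g = C r' := by
  classical
  let F := FractionRing R
  have hinj : Function.Injective (algebraMap R F) := IsFractionRing.injective R F
  have hχ' : χ.map (algebraMap R F) ≠ 0 := (Polynomial.map_ne_zero_iff hinj).2 hχ
  set g₀ := UniqueFactorizationMonoid.radical (χ.map (algebraMap R F)) with hg₀
  obtain ⟨N, u₀, hu₀⟩ := UniqueFactorizationMonoid.exists_dvd_radical_self_pow hχ'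
  have hsep : g₀.Separable := PerfectField.separable_iff_squarefree.2
    UniqueFactorizationMonoid.squarefree_radical
  obtain ⟨A₀, B₀, hAB⟩ := hsep
  have key : ∀ p : F[X], ∃ (q : R[X]) (b : R), b ≠ 0 ∧
      q.map (algebraMap R F) = C (algebraMap R F b) * p := by
    intro p
    obtain ⟨b, hb, h⟩ := IsLocalization.integerNormalization_spec (nonZeroDivisors R) p
    refine ⟨IsLocalization.integerNormalization (nonZeroDivisors R) p, b,
      nonZeroDivisors.ne_zero hb, ?_⟩
    rw [h, ← smul_eq_C_mul, algebraMap_smul]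
  obtain ⟨g, b, hb, hg⟩ := key g₀
  obtain ⟨u, c, hc, hu⟩ := key u₀
  obtain ⟨A, a, ha, hA⟩ := key A₀
  obtain ⟨B, a', ha', hB⟩ := key B₀
  refine ⟨g, C b ^ N * u, C a' * A, C a * B, c, a * a' * b, N, hc,
    mul_ne_zero (mul_ne_zero ha ha') hb, ?_, ?_⟩
  · apply Polynomial.map_injective _ hinj
    simp only [Polynomial.map_mul, Polynomial.map_pow, map_C, hg, hu, mul_pow]
    rw [hu₀]; ring
  · apply Polynomial.map_injective _ hinj
    simp only [Polynomial.map_mul, Polynomial.map_add, map_C, hg, hA, hB, ← derivative_map,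
      derivative_C_mul, map_mul]
    linear_combination (C (algebraMap R F a) * C (algebraMap R F a') * C (algebraMap R F b)) * hAB

lemma mv_deriv {κ : Type*} [Fintype κ] [DecidableEq κ] (r : MvPolynomial κ ℝ) (o : κ → ℝ) :
    ∃ γ : κ → ℝ, ∀ c : κ → ℝ,
      HasDerivAt (fun s : ℝ => MvPolynomial.eval (o + s • c) r) (∑ k, c k * γ k) 0 := by
  induction r using MvPolynomial.induction_on with
  | C a => exact ⟨0, fun c => by simpa using hasDerivAt_const (0 : ℝ) a⟩
  | add p q hp hq =>
    obtain ⟨γ, h⟩ := hp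
    obtain ⟨γ', h'⟩ := hq
    exact ⟨γ + γ', fun c => by
      simpa [mul_add, sum_add_distrib] using (h c).fun_add (h' c)⟩
  | mul_X p k hp =>
    obtain ⟨γ, h⟩ := hp
    refine ⟨o k • γ + MvPolynomial.eval o p • Pi.single k 1, fun c => ?_⟩
    have h1 : HasDerivAt (fun s : ℝ => o k + s * c k) (c k) 0 := by
      simpa using ((hasDerivAt_id (0 : ℝ)).mul_const (c k)).const_add (o k)
    have := (h c).fun_mul h1
    refine (this.congr_deriv ?_).congr_of_eventuallyEq (Eventually.of_forall fun s => by simp)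
    simp [mul_add, sum_add_distrib, Pi.single_apply, sum_mul]
    rw [mul_comm (c k)]
    congr 1
    exact sum_congr rfl fun i _ => by ring

/-- evaluation of a polynomial with polynomial coefficients -/
noncomputable def ev2 {κ : Type*} (g : (MvPolynomial κ ℝ)[X]) (o : κ → ℝ) (t : ℂ) : ℂ :=
  aeval t (g.map (MvPolynomial.eval o))

lemma ev2_deriv {κ : Type*} [Fintype κ] [DecidableEq κ] (g : (MvPolynomial κ ℝ)[X]) (o : κ → ℝ)
    (α : ℂ) : ∃ γ : κ → ℂ, ∀ (b : ℝ) (c : κ → ℝ),
      HasDerivAt (fun s : ℝ => ev2 g (o + s • c) (α + (s * b : ℝ)))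
        (b * ev2 (derivative g) o α + ∑ k, c k * γ k) 0 := by
  induction g using Polynomial.induction_on' with
  | add p q hp hq =>
    obtain ⟨γ, h⟩ := hp
    obtain ⟨γ', h'⟩ := hq
    refine ⟨γ + γ', fun b c => ?_⟩
    refine (((h b c).fun_add (h' b c)).congr_deriv ?_).congr_of_eventuallyEq
      (Eventually.of_forall fun s => by simp [ev2])
    simp [ev2, mul_add, sum_add_distrib]; ring
  | monomial n r =>
    obtain ⟨γ, h⟩ := mv_deriv r o
    refine ⟨fun k => γ k * α ^ n, fun b c => ?_⟩
    have h1 : HasDerivAt (fun s : ℝ => α + ((s * b : ℝ) : ℂ)) (b : ℂ) 0 := by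
      have := (((hasDerivAt_id (0 : ℝ)).mul_const b).ofReal_comp).const_add α
      simpa using this
    have := (h c).ofReal_comp.fun_mul (h1.fun_pow n)
    refine (this.congr_deriv ?_).congr_of_eventuallyEq
      (Eventually.of_forall fun s => by simp [ev2, aeval_monomial])
    simp [ev2, derivative_monomial, aeval_monomial, sum_mul]
    rw [add_comm]
    congr 1
    · ring
    · exact sum_congr rfl fun i _ => by ring

/-- tangency: the directions of lines through a simple point of the zero set lie in a hyperplane -/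
lemma exists_tangent {κ : Type*} [Fintype κ] [DecidableEq κ] {χ g u A B : (MvPolynomial κ ℝ)[X]}
    {r r' : MvPolynomial κ ℝ} {N : ℕ} (h1 : C r * g ^ N = χ * u)
    (h2 : A * g + B * derivative g = C r') {o : κ → ℝ} (hr : MvPolynomial.eval o r ≠ 0)
    (hr' : MvPolynomial.eval o r' ≠ 0) (α : ℂ) : ∃ a : κ → ℝ, ∀ (b : ℝ) (c : κ → ℝ),
      (∀ᶠ s in 𝓝 (0 : ℝ), ev2 χ (o + s • c) (α + (s * b : ℝ)) = 0) → b = ∑ k, c k * a k := by
  obtain ⟨γ, hγ⟩ := ev2_deriv g o α
  refine ⟨fun k => (-γ k / ev2 (derivative g) o α).re, fun b c h => ?_⟩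
  have hc : ContinuousAt (fun s : ℝ => MvPolynomial.eval (o + s • c) r) 0 := by
    obtain ⟨_, h⟩ := mv_deriv r o; exact (h c).continuousAt
  have h3 : ∀ᶠ s in 𝓝 (0 : ℝ), ev2 g (o + s • c) (α + (s * b : ℝ)) = 0 := by
    filter_upwards [h, hc.eventually_ne (y := 0) (by simpa using hr)] with s e1 e2
    have := congrArg (fun p => ev2 p (o + s • c) (α + (s * b : ℝ))) h1
    simp only [ev2, Polynomial.map_mul, map_mul, Polynomial.map_pow, map_pow, map_C, aeval_C] at this e1
    rw [e1, zero_mul, mul_eq_zero] at this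
    rcases this with e | e
    · exact absurd (by simpa using e) e2
    · exact pow_eq_zero_iff'.1 e |>.1
  have h4 : ev2 g o α = 0 := by simpa using h3.self_of_nhds
  have h5 : ev2 (derivative g) o α ≠ 0 := by
    intro e
    have := congrArg (fun p => ev2 p o α) h2
    simp only [ev2, Polynomial.map_mul, Polynomial.map_add, map_mul, map_add, map_C, aeval_C] at this e h4
    rw [e, h4] at this
    simp at this
    exact hr' (by exact_mod_cast this.symm)
  have h6 := (hγ b c).unique ((hasDerivAt_const (0 : ℝ) (0 : ℂ)).congr_of_eventuallyEq h3)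
  have h7 : (b : ℂ) = ∑ k, c k * (-γ k / ev2 (derivative g) o α) := by
    rw [eq_comm, ← mul_left_inj' h5, sum_mul, eq_neg_of_add_eq_zero_left h6, ← sum_neg_distrib]
    exact sum_congr rfl fun k _ => by field_simp
  simpa using congrArg Complex.re h7

lemma primary {E : Type*} [AddCommGroup E] [Module ℝ E] [FiniteDimensional ℝ E]
    (T : Module.End ℝ E) {V : Type*} (Kv : V → Submodule ℝ E) (p : Submodule ℝ E)
    (h : ∀ (α : ℂ) (f : E), (∀ v, (∃ P : ℝ[X], (∀ x, aeval T P x ∈ Kv v) ∧ aeval α P ≠ 0) →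
      f ∈ Kv v) → f ∈ p) : p = ⊤ := by
  have key : ∀ P : ℝ[X], P ≠ 0 → LinearMap.ker (aeval T P) ≤ p := by
    intro P
    induction P using UniqueFactorizationMonoid.induction_on_coprime with
    | h0 => exact fun h => absurd rfl h
    | h1 hx =>
      intro _
      rw [(LinearMap.isUnit_iff_ker_eq_bot _).1 (hx.map (aeval T))]
      exact bot_le
    | @hpr π n hπ =>
      intro _ f hf
      obtain ⟨α, hα⟩ := IsAlgClosed.exists_aeval_eq_zero ℂ π
        (degree_pos_of_irreducible hπ.irreducible).ne'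
      refine h α f fun v ⟨P, h1, h2⟩ => ?_
      have hc : IsCoprime (π ^ n) P := by
        refine IsCoprime.pow_left (hπ.irreducible.coprime_iff_not_dvd.2 ?_)
        rintro ⟨q, rfl⟩
        simp [hα] at h2
      obtain ⟨a, b, hab⟩ := hc
      have : f = aeval T P (aeval T b f) := by
        have e := congrArg (fun q => aeval T q f) hab
        simp only [map_add, LinearMap.add_apply, map_one, Module.End.one_apply] at e
        rw [map_mul, Module.End.mul_apply, LinearMap.mem_ker.1 hf, map_zero, zero_add, mul_comm,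
          map_mul, Module.End.mul_apply] at e
        exact e.symm
      rw [this]; exact h1 _
    | hcp hxy hx hy =>
      intro h0
      rw [← sup_ker_aeval_eq_ker_aeval_mul_of_coprime T hxy.isCoprime]
      exact sup_le (hx (left_ne_zero_of_mul h0)) (hy (right_ne_zero_of_mul h0))
  have := key T.charpoly T.charpoly_monic.ne_zero
  rw [LinearMap.aeval_self_charpoly, LinearMap.ker_zero] at this
  exact top_le_iff.1 this

open Classical in
lemma separate {E κ : Type*} [AddCommGroup E] [Module ℝ E] [Fintype κ] (T : E →ₗ[ℝ] E)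
    (W : Submodule ℝ E) (hW : ∀ x ∈ W, T x ∈ W) (n : κ → E) (l : κ → ℝ)
    (h1 : ∀ k, T (n k) - l k • n k ∈ W) (h2 : ∑ k, n k ∈ W) (c : ℝ) :
    ∑ k ∈ univ.filter (fun k => l k = c), n k ∈ W := by
  have key : ∀ s : Finset κ, ∑ k, (∏ j ∈ s, (l k - l j)) • n k ∈ W := by
    intro s
    induction s using Finset.induction_on with
    | empty => simpa using h2
    | insert j s hj ih =>
      have e : ∑ k, (∏ j ∈ insert j s, (l k - l j)) • n k =
          T (∑ k, (∏ j ∈ s, (l k - l j)) • n k) - l j • (∑ k, (∏ j ∈ s, (l k - l j)) • n k) -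
          ∑ k, (∏ j ∈ s, (l k - l j)) • (T (n k) - l k • n k) := by
        simp only [map_sum, map_smul, smul_sum, ← sum_sub_distrib, prod_insert hj]
        exact sum_congr rfl fun k _ => by module
      rw [e]
      exact W.sub_mem (W.sub_mem (hW _ ih) (W.smul_mem _ ih))
        (W.sum_mem fun k _ => W.smul_mem _ (h1 k))
  have := key (univ.filter fun j => l j ≠ c)
  have e : ∑ k, (∏ j ∈ univ.filter (fun j => l j ≠ c), (l k - l j)) • n k =
      (∏ j ∈ univ.filter (fun j => l j ≠ c), (c - l j)) •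
        ∑ k ∈ univ.filter (fun k => l k = c), n k := by
    rw [smul_sum, sum_filter]
    refine sum_congr rfl fun k _ => ?_
    split_ifs with hk
    · rw [hk]
    · rw [prod_eq_zero (i := k) (by simpa using hk) (sub_self _), zero_smul]
  rw [e] at this
  exact (W.smul_mem_iff (prod_ne_zero_iff.2 fun j hj =>
    sub_ne_zero.2 (Ne.symm (mem_filter.1 hj).2))).1 this

end Pool.Agent.MP_d1780f_co.H86
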