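import Pool.Agent.MP_d1780f_co.H86.Morse

/-! Hard Lefschetz from Hodge-Riemann in lower dimension, including degenerate positions. -/

set_option linter.unusedSectionVars false

namespace Pool.Agent.MP_d1780f_co.H86

open Module MvPolynomial Finset Filter Topology

universe u

/-- Hodge-Riemann relations for all simple polytopes of dimension `d`. -/
def HRall (d : ℕ) : Prop :=
  ∀ (V : Type u) [Fintype V] [DecidableEq V] (Θ : Submodule ℝ (V → ℝ)) (h : V → ℝ)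
    (φ : S V →ₗ[ℝ] ℝ), Bdd Θ → Simple Θ h → finrank ℝ Θ = d → IsDeg Θ (Face Θ h) d φ →
    HRsig φ h d

variable {V : Type u} [Fintype V] [DecidableEq V]

def Cone (Θ : Submodule ℝ (V → ℝ)) (Δ : Finset V → Prop) : Set (V → ℝ) :=
  {h | Simple Θ h ∧ Face Θ h = Δ}

lemma mul_pow_sub_mem {I : Ideal (S V)} {a b : S V} (h : a - b ∈ I) (g : S V) (n : ℕ) :
    g * a ^ n - g * b ^ n ∈ I := by
  rw [← mul_sub]
  exact I.mul_mem_left _ (I.mem_of_dvd (sub_dvd_pow_sub_pow a b n) h)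

lemma psi_pow_sub (φ : S V →ₗ[ℝ] ℝ) (v : V) (θ h : V → ℝ) (f : S V) (n : ℕ) :
    psi v θ f * lin (lkh h v θ) ^ n - psi v θ (f * lin h ^ n) ∈ K (lkφ φ v) := by
  rw [map_mul, map_pow, psi_lin_lkh]
  exact mul_pow_sub_mem (by simpa using X_mem_K_lk φ v) _ _

lemma lk_pow_mem_iff {φ : S V →ₗ[ℝ] ℝ} {v : V} {θ : V → ℝ} (h1 : θ v = 1) (hθ : lin θ ∈ K φ)
    (h : V → ℝ) (f : S V) (n : ℕ) :
    psi v θ f * lin (lkh h v θ) ^ n ∈ K (lkφ φ v) ↔ X v * (f * lin h ^ n) ∈ K φ := by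
  rw [X_mul_mem_K_iff h1 hθ]
  exact ⟨fun a => by simpa using (K _).sub_mem a (psi_pow_sub φ v θ h f n),
     fun a => by simpa using (K _).add_mem a (psi_pow_sub φ v θ h f n)⟩

lemma lk_pow_apply {φ : S V →ₗ[ℝ] ℝ} {v : V} {θ : V → ℝ} (h1 : θ v = 1) (hθ : lin θ ∈ K φ)
    (h : V → ℝ) (f : S V) (n : ℕ) :
    lkφ φ v (psi v θ f * lin (lkh h v θ) ^ n) = φ (X v * (f * lin h ^ n)) := by
  rw [← lkφ_psi h1 hθ]
  have := K_apply (psi_pow_sub φ v θ h f n)
  rw [map_sub] at this; linarith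

lemma mem_K_of_X_mul {d k : ℕ} {φ : S V →ₗ[ℝ] ℝ} (hφ : InDeg d φ) {f : S V} (hf : f ∈ H V k)
    (hk : k < d) (h : ∀ v, X v * f ∈ K φ) : f ∈ K φ := by
  refine mem_K_of_homog hφ hf fun m hm g hg => ?_
  obtain ⟨m, rfl⟩ : ∃ m', m = m' + 1 := ⟨m - 1, by omega⟩
  refine H_succ_zero (φ ∘ₗ LinearMap.mulLeft ℝ f) (fun v g _ => ?_) g hg
  simp only [LinearMap.comp_apply, LinearMap.mulLeft_apply]
  rw [mul_left_comm, ← mul_assoc]; exact h v g

lemma X_mul_mem_of_indep {Θ : Submodule ℝ (V → ℝ)} {P : Finset V} (hi : Indep Θ P)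
    {I : Ideal (S V)} (hΘ : ∀ θ ∈ Θ, lin θ ∈ I) {f : S V} (h : ∀ v, v ∉ P → X v * f ∈ I) (v : V) :
    X v * f ∈ I := by
  by_cases hv : v ∈ P
  · obtain ⟨θ, h1, h2⟩ := hi (Pi.single v 1)
    rw [X_eq_lin_sub h2 hv, sub_mul, sum_mul]
    refine I.sub_mem (I.mul_mem_right _ (hΘ θ h1)) (I.sum_mem fun u hu => ?_)
    rw [smul_mul_assoc, smul_eq_C_mul]
    exact I.mul_mem_left _ (h u (by simpa using hu))
  · exact h v hv

theorem critHL : ∀ d : ℕ, (∀ d' < d, HRall.{u} d') → ∀ (Θ : Submodule ℝ (V → ℝ))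
    (Δ : Finset V → Prop) (h : V → ℝ) (φ : S V →ₗ[ℝ] ℝ) (b : Prop) (P : Finset V) (k : ℕ),
    Bdd Θ → finrank ℝ Θ = d → h ∈ closure (Cone Θ Δ) → IsDeg Θ Δ d φ →
    (∀ σ, Δ σ → ¬ (b ∧ P ⊆ σ) → Exact Θ h σ) → (b → Δ P → k < P.card) → HLat φ h d k := by
  intro d
  induction d with
  | zero =>
    intro _ Θ Δ h φ b P k _ _ _ _ _ _ m hm f _ hK
    have : m = 0 := by omega
    subst this; simpa using hK
  | succ d ih =>
    intro hR Θ Δ h φ b P k hb hd hcl hφ hex hP m hm f hf hK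
    rcases m with _ | m
    · simpa using hK
    by_cases h0 : Δ ∅
    swap
    · simpa using Ideal.mul_mem_right f _ (hφ.nonface _ h0)
    obtain ⟨h₀, hs₀, hΔ⟩ : (Cone Θ Δ).Nonempty := closure_nonempty_iff.1 ⟨h, hcl⟩
    have hmono : ∀ σ τ, Δ τ → σ ⊆ τ → Δ σ := by
      rw [← hΔ]; exact fun σ τ a b => a.mono b
    have hind : ∀ σ, Δ σ → Indep Θ σ := by rw [← hΔ]; exact hs₀
    obtain ⟨z, hz, hz0⟩ := hex ∅ h0 (by
      rintro ⟨a, c⟩
      have := hP a (hmono _ _ h0 c)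
      rw [subset_empty.1 c] at this; simp at this)
    have hzpos : ∀ v, 0 < z v := fun v => lt_of_le_of_ne (hz.2 v) fun e => by
      simpa using (hz0 v).1 e.symm
    have key : ∀ v, 0 ≤ (-1) ^ k * φ (X v * (f * f * lin h ^ m)) ∧
        (φ (X v * (f * f * lin h ^ m)) = 0 → (¬ (b ∧ Δ P) ∨ v ∉ P) → X v * f ∈ K φ) := by
      intro v
      by_cases hv : Δ {v}
      swap
      · have : X v ∈ K φ := by simpa using hφ.nonface _ hv
        exact ⟨by rw [this _]; simp, fun _ _ => Ideal.mul_mem_right _ _ this⟩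
      obtain ⟨θ, hθ, h1⟩ := hind _ hv fun _ => 1
      replace h1 : θ v = 1 := h1 v (mem_singleton_self v)
      have hθK := hφ.theta θ hθ
      have hd' : finrank ℝ (lkΘ Θ v) = d := by have := finrank_link hθ h1; omega
      have hcl' : lkh h v θ ∈ closure (Cone (lkΘ Θ v) (lkΔ Δ v)) :=
        map_mem_closure (f := fun h => lkh h v θ) (continuous_lkh v θ) hcl fun h' hh' =>
          ⟨hh'.1.link hθ h1, by rw [face_link hθ h1, hh'.2]⟩
      have hHL : ∀ j, (b → lkΔ Δ v (P.erase v) → j < (P.erase v).card) →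
          HLat (lkφ φ v) (lkh h v θ) d j := fun j hj =>
        ih (fun d' hd' => hR d' (by omega)) _ _ _ _ b (P.erase v) j (hb.link v) hd' hcl'
          (hφ.link v) (fun σ hσ hn => exact_link hθ h1 hσ.1 (hex _ hσ.2 fun ⟨a, c⟩ =>
            hn ⟨a, by rwa [← subset_insert_iff]⟩)) hj
      have hPf : lkΔ Δ v (P.erase v) → Δ P := fun a => hmono _ _ a.2 (subset_insert_iff.2 le_rfl)
      have hHR : HRat (lkφ φ v) (lkh h v θ) d k := by
        refine HRat_of_limit (hφ.link v).deg (fun h' hh' => ?_) hcl' fun j hj => hHL j fun a c => ?_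
        · exact hR d (by omega) V _ h' _ (hb.link v) hh'.1 hd' (by rw [hh'.2]; exact hφ.link v)
        · have := hP a (hPf c)
          have := pred_card_le_card_erase (s := P) (a := v)
          omega
      obtain ⟨e1, e2⟩ := hHR m (by omega) _ (psi_mem v θ hf)
        ((lk_pow_mem_iff h1 hθK h f (m + 1)).2 (Ideal.mul_mem_left _ _ hK))
      rw [← map_mul, lk_pow_apply h1 hθK] at e1 e2
      refine ⟨e1, fun a c => ?_⟩
      rw [X_mul_mem_K_iff h1 hθK]
      refine hHL k (fun a' c' => ?_) m (by omega) _ (psi_mem v θ hf) (e2 a)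
      rcases c with c | c
      · exact absurd ⟨a', hPf c'⟩ c
      · rw [erase_eq_of_notMem c]; exact hP a' (hPf c')
    have hsum : ∑ v, z v * ((-1) ^ k * φ (X v * (f * f * lin h ^ m))) = 0 := by
      have e1 : ∑ v, z v * ((-1) ^ k * φ (X v * (f * f * lin h ^ m))) =
          (-1) ^ k * φ (lin z * (f * f * lin h ^ m)) := by
        rw [lin_apply z, sum_mul, map_sum, mul_sum]
        refine sum_congr rfl fun v _ => ?_
        rw [smul_mul_assoc, map_smul, smul_eq_mul]; ring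
      have e2 : lin z * (f * f * lin h ^ m) =
          lin (z - h) * (f * f * lin h ^ m) + f * lin h ^ (m + 1) * f := by
        rw [map_sub]; ring
      rw [e1, e2, map_add, hφ.theta _ hz.1, hK]; simp
    rw [sum_eq_zero_iff_of_nonneg fun v _ => mul_nonneg (hz.2 v) (key v).1] at hsum
    have hall : ∀ v, (¬ (b ∧ Δ P) ∨ v ∉ P) → X v * f ∈ K φ := fun v => (key v).2 (by
      have := hsum v (mem_univ v)
      simpa [(hzpos v).ne'] using this)
    refine mem_K_of_X_mul hφ.deg hf (by omega) ?_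
    by_cases hc : b ∧ Δ P
    · exact X_mul_mem_of_indep (hind _ hc.2) hφ.theta fun v hv => hall v (Or.inr hv)
    · exact fun v => hall v (Or.inl hc)

theorem simpleHL {d : ℕ} (hR : ∀ d' < d, HRall.{u} d') {Θ : Submodule ℝ (V → ℝ)} {h : V → ℝ}
    {φ : S V →ₗ[ℝ] ℝ} (hb : Bdd Θ) (hs : Simple Θ h) (hd : finrank ℝ Θ = d)
    (hφ : IsDeg Θ (Face Θ h) d φ) (k : ℕ) : HLat φ h d k :=
  critHL d hR Θ _ h φ False ∅ k hb hd (subset_closure ⟨hs, rfl⟩) hφ
    (fun _ hσ _ => hs.exact hσ) False.elim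

end Pool.Agent.MP_d1780f_co.H86
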