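import Pool.Agent.MP_d1780f_co.H86.Wall

/-! The Hodge-Riemann signature survives a flip. -/

set_option linter.unusedSectionVars false

namespace Pool.Agent.MP_d1780f_co.H86

open Module MvPolynomial Finset Filter Topology

universe u

variable {V : Type u} [Fintype V] [DecidableEq V]

theorem cross {φ : S V →ₗ[ℝ] ℝ} {d : ℕ} (hφ : InDeg d φ) {x : V → ℝ} {N P : Finset V} {ε : ℝ}
    (hN : ∀ v ∈ N, x v ≠ 0) (hP : ∀ v ∈ P, x v ≠ 0) (hcard : N.card + P.card = d + 1)
    (hε : 0 < (-1) ^ N.card * ε) (hNK : xs N ∈ K φ) (hPK : xs P ∈ K (φ + ε • evd d x))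
    {h : ℝ → V → ℝ} (hc : Continuous h) {t : ℝ} (hx : ∀ a, x ⬝ᵥ h a = a - t)
    (hm : ∀ k < P.card, HLat φ (h t) d k) (hp : ∀ k < N.card, HLat (φ + ε • evd d x) (h t) d k)
    {L R : Set ℝ} (hL : L ∈ 𝓝[<] t) (hR : R ∈ 𝓝[>] t) (hL' : IsPreconnected L)
    (hR' : IsPreconnected R) (hLL : ∀ a ∈ L, ∀ k, HLat φ (h a) d k)
    (hRR : ∀ a ∈ R, ∀ k, HLat (φ + ε • evd d x) (h a) d k) {a b : ℝ} (ha : a ∈ L) (hb : b ∈ R)
    (H0 : HRsig φ (h a) d) : HRsig (φ + ε • evd d x) (h b) d := by
  classical
  have hφ' := hφ.add_smul ε (inDeg_evd d x)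
  have hx0 : x ≠ 0 := by
    intro h0; have := hx (t + 1); simp [h0] at this
  have total : ∀ (s : ℝ) (k m : ℕ), s ≠ 0 → 2 * k + m = d →
      np (Bf s (φ + ε • evd d x) (h b) m k) + (if P.card ≤ k ∧ 0 < -(s * ε * (-1) ^ m) then 1 else 0)
      = np (Bf s φ (h a) m k) + if N.card ≤ k ∧ 0 < s * ε then 1 else 0 := by
    intro s k m hs hd
    have hA : ∀ᶠ a' in 𝓝[<] t, np (Bf s φ (h a') m k) = np (Bf s φ (h a) m k) := by
      filter_upwards [hL] with a' ha' using np_Bf_const hs hφ hd hc hL' (fun t ht => hLL t ht k) ha' ha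
    have hB : ∀ᶠ a' in 𝓝[>] t, np (Bf s (φ + ε • evd d x) (h a') m k) =
        np (Bf s (φ + ε • evd d x) (h b) m k) := by
      filter_upwards [hR] with a' ha' using
        np_Bf_const hs hφ' hd hc hR' (fun t ht => hRR t ht k) ha' hb
    by_cases h1 : N.card ≤ k
    · have := jump_one hs hφ hd hc (hm k (by omega)) hNK h1 hN hx0 nhdsWithin_le_nhds
        nhdsWithin_le_nhds hA hB (0 < s * ε) (by
          filter_upwards [self_mem_nhdsWithin] with a' ha'
          rw [hx]
          exact mul_pos_iff_of_pos_right (pow_pos (sub_pos.2 ha') m))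
      rw [this, if_neg (c := P.card ≤ k ∧ _) (by omega), add_zero]
      simp [h1]
    by_cases h2 : P.card ≤ k
    · have e : φ = (φ + ε • evd d x) + (-ε) • evd d x := by
        refine LinearMap.ext fun f => ?_
        simp
      have := jump_one (ε := -ε) hs hφ' hd hc (hp k (by omega)) hPK h2 hP hx0 nhdsWithin_le_nhds
        nhdsWithin_le_nhds hB (by rw [← e]; exact hA) (0 < -(s * ε * (-1) ^ m)) (by
          filter_upwards [self_mem_nhdsWithin] with a' ha'
          rw [hx, show a' - t = -1 * (t - a') by ring, mul_pow,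
            show s * -ε * ((-1) ^ m * (t - a') ^ m) = -(s * ε * (-1) ^ m) * (t - a') ^ m by ring]
          exact mul_pos_iff_of_pos_right (pow_pos (sub_pos.2 ha') m))
      rw [this, if_neg (c := N.card ≤ k ∧ _) (by omega), add_zero]
      simp [h2]
    · have := jump_zero hs hφ hd (by omega) hc (hm k (by omega)) (hp k (by omega))
        (by rw [hx, sub_self]) nhdsWithin_le_nhds nhdsWithin_le_nhds hA hB
      rw [this, if_neg (by omega), if_neg (by omega)]
  constructor
  · have := total (-1) 0 d (by norm_num) (by omega)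
    rw [H0.1, if_neg (c := N.card ≤ 0 ∧ _)] at this
    · omega
    · rintro ⟨a, b⟩
      rw [Nat.le_zero.1 a] at hε
      simp at hε; linarith
  · intro k m hd
    have e1 := total ((-1) ^ k) (k + 1) m (neg_one_pow_ne k) hd
    have e2 := total ((-1) ^ k) k (m + 2) (neg_one_pow_ne k) (by omega)
    have e3 := H0.2 k m hd
    have e4 : (N.card ≤ k + 1 ∧ 0 < (-1) ^ k * ε) ↔ (N.card ≤ k ∧ 0 < (-1) ^ k * ε) := by
      refine ⟨fun ⟨a, b⟩ => ⟨?_, b⟩, fun ⟨a, b⟩ => ⟨by omega, b⟩⟩
      by_contra c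
      rw [show N.card = k + 1 by omega, pow_succ] at hε
      linarith
    have e5 : (P.card ≤ k + 1 ∧ 0 < -((-1) ^ k * ε * (-1) ^ m)) ↔
        (P.card ≤ k ∧ 0 < -((-1) ^ k * ε * (-1) ^ (m + 2))) := by
      rw [show (-1 : ℝ) ^ (m + 2) = (-1) ^ m by ring]
      refine ⟨fun ⟨a, b⟩ => ⟨?_, b⟩, fun ⟨a, b⟩ => ⟨by omega, b⟩⟩
      by_contra c
      rw [show N.card = k + m + 2 by omega] at hε
      have : (-1 : ℝ) ^ (k + m + 2) * ε = (-1) ^ k * ε * (-1) ^ m := by ring
      linarith
    simp only [e4, e5] at e1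
    omega

lemma HRsig.smul {φ : S V →ₗ[ℝ] ℝ} {h : V → ℝ} {d : ℕ} (H0 : HRsig φ h d) {c : ℝ} (hc : 0 < c) :
    HRsig (c • φ) h d := by
  have : ∀ s m k, np (Bf s (c • φ) h m k) = np (Bf s φ h m k) := fun s m k =>
    np_of_smul hc fun f => by simp only [Bf_apply, LinearMap.smul_apply, smul_eq_mul]; ring
  simpa only [HRsig, this] using H0

lemma HRsig_zero (h : V → ℝ) (d : ℕ) : HRsig 0 h d := by
  have : ∀ s m k, np (Bf s (0 : S V →ₗ[ℝ] ℝ) h m k) = 0 := fun s m k => by
    rw [← np_zero (E := H V k)]; exact np_congr fun f => by simp [Bf_apply]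
  simp [HRsig, this]

/-- removing a variable that is killed -/
lemma HRsig.of_option {φ : S (Option V) →ₗ[ℝ] ℝ} {h : Option V → ℝ} {d : ℕ} (H0 : HRsig φ h d)
    (hK : X none ∈ K φ) :
    HRsig (φ ∘ₗ (rename some : S V →ₐ[ℝ] S (Option V)).toLinearMap) (fun v => h (some v)) d := by
  have hlin : lin h - rename some (lin fun v => h (some v)) ∈ K φ := by
    simp only [lin_apply, Fintype.sum_option, map_sum, map_smul, rename_X, add_sub_cancel_right]
    exact K_smul _ hK
  have e1 : ∀ m (f : S V), (φ ∘ₗ (rename some : S V →ₐ[ℝ] S (Option V)).toLinearMap)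
      (f * f * lin (fun v => h (some v)) ^ m) = φ (rename some f * rename some f * lin h ^ m) := by
    intro m f
    have := K_apply (mul_pow_sub_mem hlin (rename some f * rename some f) m)
    rw [map_sub] at this
    simp only [LinearMap.comp_apply, AlgHom.toLinearMap_apply, map_mul, map_pow]
    linarith
  let κ : S (Option V) →ₐ[ℝ] S V := aeval fun o => o.elim 0 X
  have e2 : ∀ f, f - rename some (κ f) ∈ K φ := by
    intro f
    have := sub_aeval_mem (K φ) (fun o : Option V => rename some (o.elim 0 X : S V)) (fun o => by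
      cases o <;> simp [hK]) f
    convert this using 2
    exact DFunLike.congr_fun (comp_aeval (fun o : Option V => (o.elim 0 X : S V))
      (rename some : S V →ₐ[ℝ] S (Option V))) f
  have : ∀ s m k, np (Bf s (φ ∘ₗ (rename some : S V →ₐ[ℝ] S (Option V)).toLinearMap)
      (fun v => h (some v)) m k) = np (Bf s φ h m k) := by
    intro s m k
    apply le_antisymm
    · refine np_comp_le (LinearMap.codRestrict _
        ((rename some : S V →ₐ[ℝ] S (Option V)).toLinearMap ∘ₗ (H V k).subtype)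
        fun f => IsHomogeneous.rename_isHomogeneous f.2) fun f => ?_
      rw [Bf_apply, Bf_apply, e1]; rfl
    · refine np_comp_le (LinearMap.codRestrict _ (κ.toLinearMap ∘ₗ (H (Option V) k).subtype)
        fun f => aeval_memH f.2 _ fun o => by
          cases o
          · exact Submodule.zero_mem _
          · exact X_memH _) fun f => ?_
      rw [Bf_apply, Bf_apply, e1]
      congr 1
      change _ = φ (rename some (κ f.1) * rename some (κ f.1) * lin h ^ m)
      have := e2 f.1 ((f.1 + rename some (κ f.1)) * lin h ^ m)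
      rw [show (f.1 - rename some (κ f.1)) * ((f.1 + rename some (κ f.1)) * lin h ^ m) =
        f.1 * f.1 * lin h ^ m - rename some (κ f.1) * rename some (κ f.1) * lin h ^ m by ring,
        map_sub] at this
      linarith
  simpa only [HRsig, this] using H0

end Pool.Agent.MP_d1780f_co.H86
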