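import Pool.Agent.MP_d1780f_co.H86.Alg

/-! A graded algebra of functions on a finite set with a duality, and polynomial curves in it. -/

set_option linter.unusedSectionVars false

namespace Pool.Agent.MP_d1780f_co.H86

open Polynomial Finset

variable {ι : Type*} [Fintype ι] [DecidableEq ι]

structure GrMod (ε τ : ι → ℝ) (M : ℕ → Submodule ℝ (ι → ℝ)) (d : ℕ) : Prop where
  eps : ∀ ρ, ε ρ ≠ 0
  inj : Function.Injective τ
  dual : ∀ a b, a + b + 1 = d → ∀ x, x ∈ M a ↔ ∀ y ∈ M b, ∑ ρ, ε ρ * x ρ * y ρ = 0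
  one0 : (1 : ι → ℝ) ∈ M 0
  one1 : (1 : ι → ℝ) ∈ M 1
  tau : τ ∈ M 1
  mul : ∀ a b, M (a + b) = M a * M b
  zero : ∀ x ∈ M 0, ∃ c : ℝ, x = c • 1

/-- `τ - s` -/
def et (τ : ι → ℝ) (s : ℝ) : ι → ℝ := fun ρ => τ ρ - s

/-- `(τ - s) M k` -/
def W (M : ℕ → Submodule ℝ (ι → ℝ)) (τ : ι → ℝ) (k : ℕ) (s : ℝ) : Submodule ℝ (ι → ℝ) :=
  (M k).map (LinearMap.mulLeft ℝ (et τ s))

lemma mem_W {M : ℕ → Submodule ℝ (ι → ℝ)} {τ : ι → ℝ} {k : ℕ} {s : ℝ} {x : ι → ℝ} :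
    x ∈ W M τ k s ↔ ∃ m ∈ M k, et τ s * m = x := Iff.rfl

noncomputable def evc (c : ι → ℝ[X]) (s : ℝ) : ι → ℝ := fun ρ => (c ρ).eval s

noncomputable def cst (x : ι → ℝ) : ι → ℝ[X] := fun ρ => C (x ρ)

noncomputable def etc (τ : ι → ℝ) : ι → ℝ[X] := fun ρ => C (τ ρ) - X

noncomputable def lc (σ : (ι → ℝ) →ₗ[ℝ] (ι → ℝ)) (c : ι → ℝ[X]) : ι → ℝ[X] :=
  fun ρ => ∑ ρ', C (σ (Pi.single ρ' 1) ρ) * c ρ'

@[simp] lemma evc_add (c c' : ι → ℝ[X]) (s : ℝ) : evc (c + c') s = evc c s + evc c' s := by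
  funext ρ; simp [evc]
@[simp] lemma evc_sub (c c' : ι → ℝ[X]) (s : ℝ) : evc (c - c') s = evc c s - evc c' s := by
  funext ρ; simp [evc]
@[simp] lemma evc_mul (c c' : ι → ℝ[X]) (s : ℝ) : evc (c * c') s = evc c s * evc c' s := by
  funext ρ; simp [evc]
@[simp] lemma evc_smul (p : ℝ[X]) (c : ι → ℝ[X]) (s : ℝ) :
    evc (p • c) s = p.eval s • evc c s := by
  funext ρ; simp [evc]
@[simp] lemma evc_cst (x : ι → ℝ) (s : ℝ) : evc (cst x) s = x := by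
  funext ρ; simp [evc, cst]
@[simp] lemma evc_etc (τ : ι → ℝ) (s : ℝ) : evc (etc τ) s = et τ s := by
  funext ρ; simp [evc, etc, et]
@[simp] lemma evc_sum {κ : Type*} (T : Finset κ) (c : κ → ι → ℝ[X]) (s : ℝ) :
    evc (∑ k ∈ T, c k) s = ∑ k ∈ T, evc (c k) s := by
  funext ρ; simp [evc, eval_finsetSum]
@[simp] lemma evc_lc (σ : (ι → ℝ) →ₗ[ℝ] (ι → ℝ)) (c : ι → ℝ[X]) (s : ℝ) :
    evc (lc σ c) s = σ (evc c s) := by
  funext ρ
  rw [LinearMap.pi_apply_eq_sum_univ]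
  simp only [evc, lc, eval_finsetSum, eval_mul, eval_C, Finset.sum_apply, Pi.smul_apply,
    smul_eq_mul]
  refine sum_congr rfl fun ρ' _ => ?_
  have : (fun j => if ρ' = j then (1 : ℝ) else 0) = Pi.single ρ' 1 := by
    funext u; simp [Pi.single_apply, eq_comm]
  rw [mul_comm, this]

lemma poly_eq_zero {p : ℝ[X]} {G : Set ℝ} (hG : G.Infinite) (h : ∀ s ∈ G, p.eval s = 0) : p = 0 :=
  eq_zero_of_infinite_isRoot p (hG.mono h)

namespace GrMod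

variable {ε τ : ι → ℝ} {M : ℕ → Submodule ℝ (ι → ℝ)} {d : ℕ} (hM : GrMod ε τ M d)
include hM

lemma mul_mem {a b c : ℕ} {x y : ι → ℝ} (hx : x ∈ M a) (hy : y ∈ M b) (h : a + b = c) :
    x * y ∈ M c := by
  rw [← h, hM.mul]; exact Submodule.mul_mem_mul hx hy

lemma succ_mem {a : ℕ} {x : ι → ℝ} (hx : x ∈ M a) : x ∈ M (a + 1) := by
  simpa using hM.mul_mem hx hM.one1 rfl

lemma mono {a b : ℕ} (h : a ≤ b) {x : ι → ℝ} (hx : x ∈ M a) : x ∈ M b := by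
  induction h with
  | refl => exact hx
  | step _ ih => exact hM.succ_mem ih

lemma one (k : ℕ) : (1 : ι → ℝ) ∈ M k := hM.mono (Nat.zero_le k) hM.one0

lemma et_mem (s : ℝ) : et τ s ∈ M 1 := by
  have : et τ s = τ - s • 1 := by funext ρ; simp [et]
  rw [this]; exact (M 1).sub_mem hM.tau ((M 1).smul_mem _ hM.one1)

lemma pair {a b : ℕ} {x y : ι → ℝ} (hx : x ∈ M a) (hy : y ∈ M b) (h : a + b + 1 = d) :
    ∑ ρ, ε ρ * x ρ * y ρ = 0 := (hM.dual a b h x).1 hx y hy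

lemma sum_zero {a : ℕ} {x : ι → ℝ} (hx : x ∈ M a) (h : a + 1 ≤ d) : ∑ ρ, ε ρ * x ρ = 0 := by
  simpa using hM.pair hx (hM.one (d - a - 1)) (by omega)

lemma W_mul {a b c : ℕ} {s : ℝ} {x y : ι → ℝ} (hx : x ∈ W M τ a s) (hy : y ∈ M b)
    (h : a + b ≤ c) : x * y ∈ W M τ c s := by
  obtain ⟨m, hm, rfl⟩ := mem_W.1 hx
  exact mem_W.2 ⟨m * y, hM.mono h (hM.mul_mem hm hy rfl), (mul_assoc _ _ _).symm⟩

lemma mul_W {a b c : ℕ} {s : ℝ} {x y : ι → ℝ} (hy : y ∈ M b) (hx : x ∈ W M τ a s)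
    (h : a + b ≤ c) : y * x ∈ W M τ c s := by
  rw [mul_comm]; exact hM.W_mul hx hy h

lemma W_le {a : ℕ} {s : ℝ} {x : ι → ℝ} (hx : x ∈ W M τ a s) : x ∈ M (a + 1) := by
  obtain ⟨m, hm, rfl⟩ := mem_W.1 hx
  exact hM.mul_mem (hM.et_mem s) hm (add_comm _ _)

lemma pair_poly {k : ℕ} (b : ℕ) (hk : k + b + 1 = d) {c : ι → ℝ[X]} {G : Set ℝ} (hG : G.Infinite)
    (h : ∀ s ∈ G, evc c s ∈ M k) {y : ι → ℝ} (hy : y ∈ M b) :
    ∑ ρ, C (ε ρ) * c ρ * C (y ρ) = 0 :=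
  poly_eq_zero hG fun s hs => by simpa [eval_finsetSum, evc] using hM.pair (h s hs) hy hk

lemma evc_mem {k : ℕ} (hk : k + 1 ≤ d) {c : ι → ℝ[X]} {G : Set ℝ} (hG : G.Infinite)
    (h : ∀ s ∈ G, evc c s ∈ M k) (s : ℝ) : evc c s ∈ M k := by
  refine (hM.dual k (d - k - 1) (by omega) _).2 fun y hy => ?_
  have := congrArg (eval s) (hM.pair_poly _ (by omega) hG h hy)
  simpa [eval_finsetSum, evc] using this

lemma coeff_mem {k : ℕ} (hk : k + 1 ≤ d) {c : ι → ℝ[X]} (h : ∀ s, evc c s ∈ M k) (n : ℕ) :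
    (fun ρ => (c ρ).coeff n) ∈ M k := by
  refine (hM.dual k (d - k - 1) (by omega) _).2 fun y hy => ?_
  have := congrArg (coeff · n) (hM.pair_poly _ (by omega) Set.infinite_univ (fun s _ => h s) hy)
  simpa using this

lemma sat {k : ℕ} (hk : k + 1 ≤ d) {c : ι → ℝ[X]} {G : Set ℝ} (hG : G.Infinite)
    (h : ∀ s ∈ G, evc c s ∈ W M τ k s) : ∃ c', (∀ s, evc c' s ∈ M k) ∧ c = etc τ * c' := by
  have h1 : ∑ ρ, C (ε ρ) * c ρ * ∏ ρ' ∈ univ.erase ρ, (C (τ ρ') - X) = 0 := by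
    refine poly_eq_zero hG fun s hs => ?_
    obtain ⟨m, hm, e⟩ := mem_W.1 (h s hs)
    have e' : ∀ ρ, (c ρ).eval s = (τ ρ - s) * m ρ := fun ρ => (congrFun e ρ).symm
    have := hM.sum_zero hm hk
    simp only [eval_finsetSum, eval_mul, eval_C, eval_prod, eval_sub, eval_X, e']
    rw [← mul_zero (∏ ρ, (τ ρ - s)), ← this, mul_sum]
    refine sum_congr rfl fun ρ _ => ?_
    rw [← mul_prod_erase _ _ (mem_univ ρ)]; ring
  have h2 : ∀ ρ, (C (τ ρ) - X) ∣ c ρ := by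
    intro ρ
    rw [← neg_dvd, neg_sub, dvd_iff_isRoot]
    have := congrArg (eval (τ ρ)) h1
    simp only [eval_finsetSum, eval_mul, eval_C, eval_prod, eval_sub, eval_X, eval_zero] at this
    rw [sum_eq_single ρ] at this
    · refine ((mul_eq_zero.1 ((mul_eq_zero.1 this).resolve_right ?_)).resolve_left (hM.eps ρ))
      exact prod_ne_zero_iff.2 fun ρ' h' => sub_ne_zero.2 fun e => ne_of_mem_erase h' (hM.inj e)
    · intro ρ' _ h'
      rw [prod_eq_zero (i := ρ) (by simpa using h'.symm) (sub_self _), mul_zero]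
    · simp
  choose c' hc' using h2
  refine ⟨c', hM.evc_mem hk (hG.sdiff (Set.finite_range τ)) fun s hs => ?_, funext hc'⟩
  obtain ⟨m, hm, e⟩ := mem_W.1 (h s hs.1)
  convert hm using 1
  funext ρ
  have := congrFun e ρ
  simp only [evc, hc' ρ, eval_mul, eval_sub, eval_C, eval_X, Pi.mul_apply, et] at this
  exact (mul_left_cancel₀ (sub_ne_zero.2 fun e => hs.2 ⟨ρ, e⟩) this).symm

lemma sat_at {k : ℕ} (hk : k + 1 ≤ d) {c : ι → ℝ[X]} {G : Set ℝ} (hG : G.Infinite)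
    (h : ∀ s ∈ G, evc c s ∈ W M τ k s) (s : ℝ) : evc c s ∈ W M τ k s := by
  obtain ⟨c', h1, rfl⟩ := hM.sat hk hG h
  exact mem_W.2 ⟨_, h1 s, by simp⟩

lemma sat_coeff {k : ℕ} (hk : k + 1 ≤ d) {c : ι → ℝ[X]} {G : Set ℝ} (hG : G.Infinite)
    (h : ∀ s ∈ G, evc c s ∈ W M τ k s) {m : ℕ} (hm : ∀ ρ, (c ρ).natDegree ≤ m + 1) :
    (fun ρ => (c ρ).coeff (m + 1)) ∈ M k := by
  obtain ⟨c', h1, rfl⟩ := hM.sat hk hG h
  convert (M k).neg_mem (hM.coeff_mem hk h1 m) using 1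
  funext ρ
  have h2 : (c' ρ).coeff (m + 1) = 0 := by
    by_cases h0 : c' ρ = 0
    · simp [h0]
    refine coeff_eq_zero_of_natDegree_lt ?_
    have := hm ρ
    have e : (C (τ ρ) - X : ℝ[X]) = -(X - C (τ ρ)) := by ring
    rw [Pi.mul_apply, etc, e, neg_mul, natDegree_neg, natDegree_mul (X_sub_C_ne_zero _) h0,
      natDegree_X_sub_C] at this
    omega
  simp [etc, sub_mul, h2]

lemma sat_const {k : ℕ} (hk : k + 1 ≤ d) {x : ι → ℝ} {G : Set ℝ} (hG : G.Infinite)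
    (h : ∀ s ∈ G, x ∈ W M τ k s) : x = 0 := by
  funext ρ
  obtain ⟨m, -, e⟩ := mem_W.1 (hM.sat_at hk hG (c := cst x) (by simpa using h) (τ ρ))
  simpa [et] using (congrFun e ρ).symm

lemma const_of_mul {e : ι → ℝ} {k : ℕ} (hk : k + 1 ≤ d) (h : ∀ x ∈ M k, e * x ∈ M k) :
    ∃ c : ℝ, e = c • 1 := by
  refine hM.zero e ((hM.dual 0 (d - 1) (by omega) e).2 fun y hy => ?_)
  have h1 : M (d - 1) ≤ (M (d - 1)).comap (LinearMap.mulLeft ℝ e) := by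
    conv_lhs => rw [show d - 1 = k + (d - 1 - k) by omega, hM.mul]
    refine Submodule.mul_le.2 fun a ha b hb => ?_
    rw [Submodule.mem_comap, LinearMap.mulLeft_apply, ← mul_assoc]
    exact hM.mul_mem (h a ha) hb (by omega)
  have := hM.sum_zero (h1 hy) (by omega)
  simpa [mul_assoc] using this

end GrMod

end Pool.Agent.MP_d1780f_co.H86
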