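import Pool.Agent.MP_d1780f_co.H86.Slice
import Pool.Agent.MP_d1780f_co.H86.Alg

/-! For a generic interior origin the multiplication operator is diagonalizable with eigenvalues
given by finitely many affine functions. -/

set_option linter.unusedSectionVars false

namespace Pool.Agent.MP_d1780f_co.H86

open Module MvPolynomial Finset Filter Topology

universe u

variable {V : Type u} [Fintype V] [DecidableEq V] {L : Submodule ℝ (V → ℝ)} {d : ℕ}

/-- `y` times forms of degree `k` lies in the face ideal plus `L` times forms of degree `k`. -/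
def Hyp (L : Submodule ℝ (V → ℝ)) (y : V → ℝ) (k : ℕ) : Prop :=
  ∀ p : Submodule ℝ (S V),
    (∀ σ j, ¬ AFace L σ → σ.card + j = k + 1 → ∀ g ∈ H V j, xs σ * g ∈ p) →
    (∀ z ∈ L, ∀ g ∈ H V k, lin z * g ∈ p) → ∀ f ∈ H V k, lin y * f ∈ p

/-- affine functions determined by their agreement set with `y` -/
def Cand (L : Submodule ℝ (V → ℝ)) (y : V → ℝ) : Type u :=
  {a : V → ℝ // a ∈ L ∧ ∀ g ∈ L, (∀ v, y v = a v → g v = 0) → g = 0}

instance (L : Submodule ℝ (V → ℝ)) (y : V → ℝ) : Finite (Cand L y) := by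
  classical
  refine Finite.of_injective (fun a : Cand L y => univ.filter fun v => y v = a.1 v) ?_
  intro a b e
  apply Subtype.ext
  rw [← sub_eq_zero]
  refine a.2.2 _ (L.sub_mem a.2.1 b.2.1) fun v hv => ?_
  have : v ∈ univ.filter fun v => y v = b.1 v := by
    have e' : (univ.filter fun v => y v = a.1 v) = univ.filter fun v => y v = b.1 v := e
    rw [← e']; simpa using hv
  simp [← hv, ← (mem_filter.1 this).2]

noncomputable instance (L : Submodule ℝ (V → ℝ)) (y : V → ℝ) : Fintype (Cand L y) :=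
  Fintype.ofFinite _

lemma K_smul_eq {c : ℝ} (hc : c ≠ 0) (φ : S V →ₗ[ℝ] ℝ) : K (c • φ) = K φ := by
  ext f; simp [mem_K, hc]

lemma exists_dot_eq {κ : Type*} [Fintype κ] (b : Basis κ ℝ L) (o : κ → ℝ) :
    ∃ w : V → ℝ, ∀ j, w ⬝ᵥ (b j).1 = o j := by
  obtain ⟨F, hF⟩ := LinearMap.exists_extend (b.constr ℝ o)
  refine ⟨fun v => F (Pi.single v 1), fun j => ?_⟩
  have := DFunLike.congr_fun hF (b j)
  simp only [LinearMap.comp_apply, Submodule.subtype_apply, Basis.constr_basis] at this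
  rw [← this, LinearMap.pi_apply_eq_sum_univ, dotProduct]
  refine sum_congr rfl fun v _ => ?_
  rw [smul_eq_mul, mul_comm]
  congr 2
  funext u; simp [Pi.single_apply, eq_comm]

lemma rel_aeval {E : Type*} [AddCommGroup E] [Module ℝ E] (T T' : Module.End ℝ E)
    (R : Submodule ℝ (E × E)) (h : ∀ f f', (f, f') ∈ R → (T f, T' f') ∈ R) (P : Polynomial ℝ) :
    ∀ f f', (f, f') ∈ R → (Polynomial.aeval T P f, Polynomial.aeval T' P f') ∈ R := by
  induction P using Polynomial.induction_on with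
  | C a => intro f f' hf; simpa using R.smul_mem a hf
  | add p q hp hq => intro f f' hf; simpa using R.add_mem (hp f f' hf) (hq f f' hf)
  | monomial n a ih =>
    intro f f' hf
    have := ih _ _ (h f f' hf)
    simpa [pow_succ] using this

lemma aeval_shift {E : Type*} [AddCommGroup E] [Module ℝ E] (T : Module.End ℝ E) (c c' : ℝ)
    (P : Polynomial ℝ) : Polynomial.aeval (T - algebraMap ℝ _ c) (P.comp (Polynomial.X + Polynomial.C c')) =
      Polynomial.aeval T (P.comp (Polynomial.X + Polynomial.C (c' - c))) := by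
  rw [Polynomial.aeval_comp, Polynomial.aeval_comp]
  congr 1
  simp only [map_add, map_sub, Polynomial.aeval_X, Polynomial.aeval_C]
  congr 1; abel

lemma star_link {φ : S V →ₗ[ℝ] ℝ} {v : V} {θ y : V → ℝ} (hθ : lin θ ∈ K φ) (h1 : θ v = 1) {c : ℝ}
    {f g : S V} (h : c • (lin y * f) - lin 1 * g ∈ K φ) :
    c • (lin (y - y v • 1) * psi v θ f) - lin (1 - θ) * psi v θ (g - (c * y v) • f)
      ∈ K (lkφ φ v) := by
  have := (X_mul_mem_K_iff h1 hθ _).1 (Ideal.mul_mem_left _ (X v) h)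
  convert this using 1
  simp only [map_sub, map_smul, map_mul, psi_lin, Pi.one_apply, one_smul]
  simp only [smul_eq_C_mul, map_mul]
  ring

lemma link_rel (hL : Aff L (d + 1)) {v : V} (hv : AFace L {v}) {y w : V → ℝ} {k : ℕ}
    (hk : 2 * k + 1 ≤ d) (hw : ∀ v, 0 < w v) {s : ℝ} (hs : 0 < w v + s) {φ : S V →ₗ[ℝ] ℝ}
    (hφ : IsDeg (Th L w) (AFace L) (d + 1) φ) (T T' : Module.End ℝ (H V k))
    (hT : ∀ f : H V k, (w ⬝ᵥ 1) • (lin y * f.1) - lin 1 * (T f).1 ∈ K φ)
    (hT' : ∀ φ', IsDeg (Th L (w + s • Pi.single v 1)) (AFace L) (d + 1) φ' → ∀ f : H V k,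
      ((w + s • Pi.single v 1) ⬝ᵥ 1) • (lin y * f.1) - lin 1 * (T' f).1 ∈ K φ')
    (P : Polynomial ℝ) (hP : Polynomial.aeval T' P = 0) (f : H V k) :
    X v * (Polynomial.aeval T (P.comp (Polynomial.X + Polynomial.C (s * y v))) f).1 ∈ K φ := by
  set w' := w + s • Pi.single v (1 : ℝ) with hw'def
  have hw' : ∀ u, 0 < w' u := fun u => by
    by_cases hu : u = v
    · subst hu; simpa [hw'def] using hs
    · simpa [hw'def, hu] using hw u
  have hdot : ∀ z, w' ⬝ᵥ z = w ⬝ᵥ z + s * z v := fun z => by simp [hw'def]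
  clear_value w'
  obtain ⟨φ', hφ'⟩ := exists_isDeg (bdd_Th (L := L) hw') (hL.simple_Th hw')
  rw [hL.face_Th hw', hL.finrank_Th hw'] at hφ'
  have hθ : ∀ w : V → ℝ, (∀ u, 0 < w u) → ∃ θ ∈ Th L w, θ v = 1 := fun w hw => by
    obtain ⟨θ, a, b⟩ := hL.simple_Th hw {v} (by rw [hL.face_Th hw]; exact hv) fun _ => 1
    exact ⟨θ, a, b v (mem_singleton_self v)⟩
  obtain ⟨θ, hθ1, hθ2⟩ := hθ w hw
  obtain ⟨θ', hθ1', hθ2'⟩ := hθ w' hw'
  have hlk : lkΘ (Th L w') v = lkΘ (Th L w) v := by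
    ext z
    simp only [mem_lkΘ, mem_Th, hdot]
    constructor <;> rintro ⟨⟨a, b⟩, c⟩ <;> simp_all
  have hb := (bdd_Th (L := L) hw).link v
  have hsim := (hL.simple_Th hw).link hθ1 hθ2
  have hdim : finrank ℝ (lkΘ (Th L w) v) = d := by
    have := finrank_link hθ1 hθ2
    rw [hL.finrank_Th hw] at this; omega
  have hl : IsDeg (lkΘ (Th L w) v) (Face (lkΘ (Th L w) v) (lkh 1 v θ))
      (finrank ℝ (lkΘ (Th L w) v)) (lkφ φ v) := by
    rw [face_link hθ1 hθ2, hL.face_Th hw, hdim]; exact hφ.link v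
  have hl' : IsDeg (lkΘ (Th L w) v) (Face (lkΘ (Th L w) v) (lkh 1 v θ))
      (finrank ℝ (lkΘ (Th L w) v)) (lkφ φ' v) := by
    rw [face_link hθ1 hθ2, hL.face_Th hw, hdim, ← hlk]; exact hφ'.link v
  have hKK : K (lkφ φ' v) = K (lkφ φ v) := by
    obtain ⟨c, hc, e⟩ := IsDeg.unique hb hsim hl hl'
    rw [e, K_smul_eq hc.ne']
  let Rel : Submodule ℝ (H V k × H V k) := ((K (lkφ φ v)).restrictScalars ℝ).comap
    ((psi v θ).toLinearMap ∘ₗ (H V k).subtype ∘ₗ LinearMap.fst ℝ _ _ -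
      (psi v θ').toLinearMap ∘ₗ (H V k).subtype ∘ₗ LinearMap.snd ℝ _ _)
  have hRel : ∀ f f', (f, f') ∈ Rel ↔ psi v θ f.1 - psi v θ' f'.1 ∈ K (lkφ φ v) :=
    fun _ _ => Iff.rfl
  clear_value Rel
  have hc := hL.dot_one_pos hw
  have hc' := hL.dot_one_pos hw'
  have hsub : ∀ (T : Module.End ℝ (H V k)) (c : ℝ) (f : H V k),
      ((T - algebraMap ℝ _ c) f).1 = (T f).1 - c • f.1 := fun T c f => by
    simp [Module.algebraMap_end_apply]
  have step := rel_aeval (T - algebraMap ℝ _ ((w ⬝ᵥ 1) * y v))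
    (T' - algebraMap ℝ _ ((w' ⬝ᵥ 1) * y v)) Rel (by
      intro f f' hf
      rw [hRel] at hf ⊢
      have a1 := star_link (hφ.theta θ hθ1) hθ2 (hT f)
      have a2 := star_link (hφ'.theta θ' hθ1') hθ2' (hT' φ' hφ' f')
      rw [hKK] at a2
      rw [← hsub] at a1 a2
      have a3 : lin ((w' ⬝ᵥ 1) • (1 - θ) - (w ⬝ᵥ 1) • (1 - θ')) ∈ K (lkφ φ v) := by
        refine hl.theta _ ⟨⟨L.sub_mem (L.smul_mem _ (L.sub_mem hL.one hθ1.1))
          (L.smul_mem _ (L.sub_mem hL.one hθ1'.1)), ?_⟩, by simp [hθ2, hθ2']⟩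
        have b1 := hθ1.2
        have b2 := hθ1'.2
        rw [hdot, hθ2'] at b2
        simp only [dotProduct_sub, dotProduct_smul, hdot, b1, smul_eq_mul, Pi.one_apply]
        rw [show w ⬝ᵥ θ' = -s by linarith]; ring
      refine lefschetz_inj hb hsim hl (k := k) (by omega)
        (Submodule.sub_mem _ (psi_mem _ _ (Subtype.property _)) (psi_mem _ _ (Subtype.property _)))
        (K_of_smul hc'.ne' ?_)
      generalize psi v θ ((T - algebraMap ℝ _ ((w ⬝ᵥ 1) * y v)) f).1 = G at a1 ⊢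
      generalize psi v θ' ((T' - algebraMap ℝ _ ((w' ⬝ᵥ 1) * y v)) f').1 = G' at a2 ⊢
      have e : lin (lkh 1 v θ) = lin (1 - θ) + X v := by simp [lkh, lin_single]
      have a4 := (K _).add_mem ((K _).sub_mem ((K _).add_mem ((K _).sub_mem
        (K_smul (w ⬝ᵥ 1) a2) (K_smul (w' ⬝ᵥ 1) a1))
        (K_smul ((w ⬝ᵥ 1) * (w' ⬝ᵥ 1)) (Ideal.mul_mem_left _ (lin (y - y v • 1)) hf)))
        (Ideal.mul_mem_right G' _ a3))
        (K_smul (w' ⬝ᵥ 1) (Ideal.mul_mem_right (G - G') _ (X_mem_K_lk φ v)))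
      convert a4 using 1
      rw [e, map_sub lin ((w' ⬝ᵥ 1) • (1 - θ)), map_smul, map_smul]
      simp only [smul_eq_C_mul, map_mul]
      ring)
    (P.comp (Polynomial.X + Polynomial.C ((w' ⬝ᵥ 1) * y v)))
    f ⟨psi v θ f.1, psi_mem _ _ f.2⟩ (by
      rw [hRel]; simp only
      rw [← kill_psi hθ2, psi_kill]; simp)
  rw [hRel, aeval_shift, aeval_shift, sub_self, map_zero, add_zero, Polynomial.comp_X, hP,
    show (w' ⬝ᵥ 1) * y v - (w ⬝ᵥ 1) * y v = s * y v by rw [hdot]; simp; ring] at step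
  rw [X_mul_mem_K_iff hθ2 (hφ.theta θ hθ1)]
  simpa using step

theorem dec (hL : Aff L d) (hv : ∀ v, AFace L {v}) {y : V → ℝ} {k : ℕ} (hy : Hyp L y k)
    (hk : 2 * k + 2 ≤ d) : ∃ R : S V, R ≠ 0 ∧ ∀ w : V → ℝ, (∀ v, 0 < w v) → aeval w R ≠ 0 →
      ∀ φ, IsDeg (Th L w) (AFace L) d φ → ∀ f ∈ H V k, ∃ b : Cand L y → S V,
        (∀ a, b a ∈ H V k) ∧ f - ∑ a, b a ∈ K φ ∧ ∀ a v, y v ≠ a.1 v → X v * b a ∈ K φ := by
  classical
  let κ := Fin (finrank ℝ L)
  let b₀ : Basis κ ℝ L := Module.finBasis ℝ L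
  let p : κ → V → ℝ := fun j => (b₀ j).1
  have hp : ∀ j, p j ∈ L := fun j => (b₀ j).2
  let Ψ : (κ → H V k) →ₗ[ℝ] S V :=
    ∑ j, LinearMap.mulLeft ℝ (lin (p j)) ∘ₗ (H V k).subtype ∘ₗ LinearMap.proj j
  have hΨ : ∀ g, Ψ g = ∑ j, lin (p j) * (g j).1 := fun g => by simp [Ψ]
  obtain ⟨σ, hσ⟩ := exists_lift (LinearMap.mulLeft ℝ (lin y) ∘ₗ (H V k).subtype) Ψ
    ((J ⊥ (AFace L)).restrictScalars ℝ) (by
      intro f
      have := hy ((J ⊥ (AFace L)).restrictScalars ℝ ⊔ LinearMap.range Ψ)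
        (fun σ j hσ _ g _ => Submodule.mem_sup_left (Ideal.mul_mem_right _ _ (xs_mem_J hσ)))
        (fun z hz g hg => Submodule.mem_sup_right ⟨fun j => b₀.repr ⟨z, hz⟩ j • ⟨g, hg⟩, by
          have e := congrArg Subtype.val (b₀.sum_repr ⟨z, hz⟩)
          simp only [AddSubmonoidClass.coe_finsetSum, SetLike.val_smul] at e
          rw [hΨ]
          conv_rhs => rw [← e, map_sum, sum_mul]
          exact sum_congr rfl fun j _ => by simp [p]⟩) f.1 f.2
      obtain ⟨a, ha, _, ⟨g, rfl⟩, e⟩ := Submodule.mem_sup.1 this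
      exact ⟨g, by simpa [← e] using ha⟩)
  simp only [LinearMap.comp_apply, Submodule.subtype_apply, LinearMap.mulLeft_apply, hΨ,
    Submodule.restrictScalars_mem] at hσ
  let Tm : (κ → ℝ) →ₗ[ℝ] Module.End ℝ (H V k) :=
    Fintype.linearCombination ℝ fun j => LinearMap.proj j ∘ₗ σ
  have hTm : ∀ o f, (Tm o f).1 = ∑ j, o j • (σ f j).1 := fun o f => by
    simp [Tm, Fintype.linearCombination_apply]
  let oh : (V → ℝ) → κ → ℝ := fun w j => w ⬝ᵥ p j
  let χ := LinearMap.polyCharpoly Tm (Pi.basisFun ℝ κ)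
  have hχ : ∀ o, χ.map (eval o) = (Tm o).charpoly := fun o => by
    have := LinearMap.polyCharpoly_map_eq_charpoly Tm (Pi.basisFun ℝ κ) o
    convert this using 3
    funext j; simp
  obtain ⟨g, u, A, B, r, r', N, hr, hr', e1, e2⟩ :=
    exists_sqfree_part (LinearMap.polyCharpoly_ne_zero Tm (Pi.basisFun ℝ κ))
  have hg : ∀ T : Finset V, ∃ g : V → ℝ, (∃ g ∈ L, g ≠ 0 ∧ ∀ v ∈ T, g v = 0) →
      g ∈ L ∧ g ≠ 0 ∧ ∀ v ∈ T, g v = 0 := fun T => by
    by_cases h : ∃ g ∈ L, g ≠ 0 ∧ ∀ v ∈ T, g v = 0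
    · exact ⟨h.choose, fun _ => h.choose_spec⟩
    · exact ⟨0, fun h' => absurd h' h⟩
  choose gT hgT using hg
  have hcomp : ∀ w (q : MvPolynomial κ ℝ), aeval w (aeval (fun j => (lin (p j) : S V)) q) =
      eval (oh w) q := by
    intro w q
    rw [← AlgHom.comp_apply, comp_aeval, ← coe_aeval_eq_eval]
    simp only [aeval_lin]; rfl
  refine ⟨aeval (fun j => (lin (p j) : S V)) (r * r') *
    ∏ T ∈ univ.filter (fun T => gT T ≠ 0), lin (gT T), mul_ne_zero ?_ ?_, ?_⟩
  · intro h0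
    apply mul_ne_zero hr hr'
    refine MvPolynomial.funext fun o => ?_
    obtain ⟨w, hw⟩ := exists_dot_eq b₀ o
    have := hcomp w (r * r')
    rw [h0, map_zero, show oh w = o from funext hw] at this
    rw [← this, map_zero]
  · exact prod_ne_zero_iff.2 fun T hT h0 => (mem_filter.1 hT).2 (lin_eq_zero h0)
  -- the basic relation
  have star : ∀ w : V → ℝ, ∀ φ, IsDeg (Th L w) (AFace L) d φ → ∀ f : H V k,
      (w ⬝ᵥ 1) • (lin y * f.1) - lin 1 * (Tm (oh w) f).1 ∈ K φ := by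
    intro w φ hφ f
    have a1 : lin y * f.1 - ∑ j, lin (p j) * (σ f j).1 ∈ K φ :=
      J_le hφ.nonface (fun θ hθ => by rw [(Submodule.mem_bot ℝ).1 hθ]; simp) (hσ f)
    have a2 : ∑ j, lin ((w ⬝ᵥ 1) • p j - oh w j • (1 : V → ℝ)) * (σ f j).1 ∈ K φ :=
      (K φ).sum_mem fun j _ => Ideal.mul_mem_right _ _ (hφ.theta _
        ⟨L.sub_mem (L.smul_mem _ (hp j)) (L.smul_mem _ hL.one), by simp [oh, mul_comm]⟩)
    convert (K φ).add_mem (K_smul (w ⬝ᵥ 1) a1) a2 using 1
    simp only [hTm, map_sub, map_smul, sub_mul, sum_sub_distrib, smul_sub, smul_sum, mul_sum,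
      smul_mul_assoc, mul_smul_comm]
    abel
  intro w hw hR φ hφ
  rw [map_mul, hcomp, map_mul, map_prod] at hR
  obtain ⟨d, rfl⟩ : ∃ d', d = d' + 1 := ⟨d - 1, by omega⟩
  -- the link argument
  have link : ∀ (v : V) (s : ℝ), 0 < w v + s → ∀ f : H V k,
      X v * (Polynomial.aeval (Tm (oh w)) ((Tm (oh w + s • fun j => p j v)).charpoly.comp
        (Polynomial.X + Polynomial.C (s * y v))) f).1 ∈ K φ := by
    intro v s hs f
    have hoh : oh (w + s • Pi.single v 1) = oh w + s • fun j => p j v :=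
      funext fun j => by simp [oh]
    refine link_rel hL (hv v) (by omega) hw hs hφ _ (Tm (oh (w + s • Pi.single v 1)))
      (star w φ hφ) (star _) _ ?_ f
    rw [hoh]; exact LinearMap.aeval_self_charpoly _
  let Kv : V → Submodule ℝ (H V k) := fun v =>
    ((K φ).restrictScalars ℝ).comap (LinearMap.mulLeft ℝ (X v) ∘ₗ (H V k).subtype)
  have hKv : ∀ v f, f ∈ Kv v ↔ X v * f.1 ∈ K φ := fun _ _ => Iff.rfl
  let P : Submodule ℝ (H V k) :=
    { carrier := {f | ∃ b : Cand L y → S V, (∀ a, b a ∈ H V k) ∧ f.1 - ∑ a, b a ∈ K φ ∧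
        ∀ a v, y v ≠ a.1 v → X v * b a ∈ K φ}
      add_mem' := by
        rintro f f' ⟨b, a1, a2, a3⟩ ⟨b', a1', a2', a3'⟩
        refine ⟨b + b', fun a => Submodule.add_mem _ (a1 a) (a1' a), ?_, fun a v h => ?_⟩
        · convert (K φ).add_mem a2 a2' using 1
          simp only [Submodule.coe_add, Pi.add_apply, sum_add_distrib]; abel
        · simpa [mul_add] using (K φ).add_mem (a3 a v h) (a3' a v h)
      zero_mem' := ⟨0, by simp, by simp, by simp⟩
      smul_mem' := by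
        rintro c f ⟨b, a1, a2, a3⟩
        refine ⟨c • b, fun a => Submodule.smul_mem _ _ (a1 a), ?_, fun a v h => ?_⟩
        · simpa [smul_sub, smul_sum] using K_smul c a2
        · simpa using K_smul c (a3 a v h) }
  have hP : P = ⊤ := by
    refine primary (Tm (oh w)) Kv P fun α f hf => ?_
    obtain ⟨a, ha⟩ := exists_tangent e1 e2 (left_ne_zero_of_mul (left_ne_zero_of_mul hR))
      (right_ne_zero_of_mul (left_ne_zero_of_mul hR)) α
    let a' : V → ℝ := ∑ j, a j • p j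
    have ha' : a' ∈ L := L.sum_mem fun j _ => L.smul_mem _ (hp j)
    have hX : ∀ v, y v ≠ a' v → X v * f.1 ∈ K φ := by
      intro v hne
      refine hf v ?_
      by_contra hcon
      push Not at hcon
      apply hne
      have := ha (y v) (fun j => p j v) (by
        have : ∀ᶠ s in 𝓝 (0 : ℝ), 0 < w v + s :=
          (show ContinuousAt (fun s : ℝ => w v + s) 0 by fun_prop).eventually
            (lt_mem_nhds (by simpa using hw v))
        filter_upwards [this] with s hs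
        have := hcon _ (link v s hs)
        rw [Polynomial.aeval_comp] at this
        rw [ev2, hχ]
        simpa using this)
      rw [this]
      simp [a', mul_comm]
    by_cases hc : ∀ g ∈ L, (∀ v, y v = a' v → g v = 0) → g = 0
    · obtain ⟨a₀, ha₀⟩ : ∃ a₀ : Cand L y, a₀.1 = a' := ⟨⟨a', ha', hc⟩, rfl⟩
      refine ⟨Pi.single a₀ f.1, fun a => ?_, by simp, fun a v h => ?_⟩
      · by_cases e : a = a₀
        · subst e; simp
        · simp [e]
      · by_cases e : a = a₀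
        · subst e; simpa using hX v (ha₀ ▸ h)
        · simp [e]
    · push Not at hc
      obtain ⟨g', b1, b2, b3⟩ := hc
      obtain ⟨c1, c2, c3⟩ := hgT (univ.filter fun v => y v = a' v)
        ⟨g', b1, b3, fun v hv => b2 v (mem_filter.1 hv).2⟩
      set g'' := gT (univ.filter fun v => y v = a' v)
      have c4 : w ⬝ᵥ g'' ≠ 0 := by
        have := prod_ne_zero_iff.1 (right_ne_zero_of_mul hR) (univ.filter fun v => y v = a' v)
          (by simpa using c2)
        rwa [aeval_lin] at this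
      have c5 : lin g'' * f.1 ∈ K φ := by
        rw [lin_apply, sum_mul]
        refine (K φ).sum_mem fun v _ => ?_
        by_cases e : y v = a' v
        · simp [c3 v (by simpa using e)]
        · rw [smul_mul_assoc]; exact K_smul _ (hX v e)
      refine ⟨0, by simp, ?_, by simp⟩
      simp only [Pi.zero_apply, sum_const_zero, sub_zero]
      refine lefschetz_inj (bdd_Th hw) (hL.simple_Th hw)
        (by rw [hL.face_Th hw, hL.finrank_Th hw]; exact hφ) (k := k)
        (by rw [hL.finrank_Th hw]; omega) f.2 ?_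
      have c6 := Ideal.mul_mem_right f.1 _ (hφ.theta _ (sub_smul_mem_Th hL.one c1 c4))
      have := (K φ).add_mem c6 (K_smul ((w ⬝ᵥ 1) / (w ⬝ᵥ g'')) c5)
      simpa [sub_mul] using this
  intro f hf
  have : (⟨f, hf⟩ : H V k) ∈ P := by rw [hP]; trivial
  exact this

end Pool.Agent.MP_d1780f_co.H86
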