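import Pool.Agent.MP_d1780f_co.H86.Link

/-! Simple polytopes in slack coordinates. -/

set_option linter.unusedSectionVars false

namespace Pool.Agent.MP_d1780f_co.H86

open Module MvPolynomial Finset Filter Topology

universe u

variable {V : Type u} [Fintype V] [DecidableEq V]

lemma lin_eq_zero {z : V → ℝ} (h : (lin z : S V) = 0) : z = 0 := by
  have := aeval_lin z z
  rw [h, map_zero] at this
  exact dotProduct_self_eq_zero.1 this.symm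

lemma exists_pos_eval {R : S V} (hR : R ≠ 0) : ∃ w : V → ℝ, (∀ v, 0 < w v) ∧ aeval w R ≠ 0 := by
  by_contra hcon
  push Not at hcon
  apply hR
  refine MvPolynomial.funext_set (fun _ => Set.Ioi (0 : ℝ)) (fun _ => Set.Ioi_infinite 0) ?_
  intro x hx
  have := hcon x fun v => hx v trivial
  simpa [aeval_eq_eval] using this

lemma exists_pos_avoid {ι : Type*} [Finite ι] (u : ι → V → ℝ) {R : S V} (hR : R ≠ 0) :
    ∃ w : V → ℝ, (∀ v, 0 < w v) ∧ aeval w R ≠ 0 ∧ ∀ i, u i ≠ 0 → w ⬝ᵥ u i ≠ 0 := by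
  classical
  have := Fintype.ofFinite ι
  have h1 : R * ∏ i ∈ univ.filter (fun i => u i ≠ 0), lin (u i) ≠ 0 := by
    refine mul_ne_zero hR (prod_ne_zero_iff.2 fun i hi h0 => ?_)
    exact (mem_filter.1 hi).2 (lin_eq_zero h0)
  obtain ⟨w, hw, h2⟩ := exists_pos_eval h1
  rw [map_mul, map_prod] at h2
  refine ⟨w, hw, left_ne_zero_of_mul h2, fun i hi => ?_⟩
  have := prod_ne_zero_iff.1 (right_ne_zero_of_mul h2) i (by simp [hi])
  rwa [aeval_lin] at this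

def Pt (Θ : Submodule ℝ (V → ℝ)) (h z : V → ℝ) : Prop := z - h ∈ Θ ∧ ∀ v, 0 ≤ z v

def Face (Θ : Submodule ℝ (V → ℝ)) (h : V → ℝ) (σ : Finset V) : Prop :=
  ∃ z, Pt Θ h z ∧ ∀ v ∈ σ, z v = 0

def Exact (Θ : Submodule ℝ (V → ℝ)) (h : V → ℝ) (σ : Finset V) : Prop :=
  ∃ z, Pt Θ h z ∧ ∀ v, z v = 0 ↔ v ∈ σ

def Bdd (Θ : Submodule ℝ (V → ℝ)) : Prop :=
  ∃ w : V → ℝ, (∀ v, 0 < w v) ∧ ∀ θ ∈ Θ, w ⬝ᵥ θ = 0

def Simple (Θ : Submodule ℝ (V → ℝ)) (h : V → ℝ) : Prop := ∀ σ, Face Θ h σ → Indep Θ σ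

def Vtx (Θ : Submodule ℝ (V → ℝ)) (h : V → ℝ) (ρ : Finset V) : Prop :=
  Face Θ h ρ ∧ ρ.card = finrank ℝ Θ

variable {Θ : Submodule ℝ (V → ℝ)} {h : V → ℝ}

lemma Face.mono {σ τ : Finset V} (H' : Face Θ h τ) (hs : σ ⊆ τ) : Face Θ h σ := by
  obtain ⟨z, h1, h2⟩ := H'
  exact ⟨z, h1, fun v hv => h2 v (hs hv)⟩

lemma Exact.face {σ : Finset V} (H' : Exact Θ h σ) : Face Θ h σ := by
  obtain ⟨z, h1, h2⟩ := H'
  exact ⟨z, h1, fun v hv => (h2 v).2 hv⟩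

lemma Pt.face {z : V → ℝ} (hz : Pt Θ h z) : Face Θ h (univ.filter fun v => z v = 0) :=
  ⟨z, hz, fun _ hv => (mem_filter.1 hv).2⟩

lemma Pt.sub_mem {z z' : V → ℝ} (hz : Pt Θ h z) (hz' : Pt Θ h z') : z - z' ∈ Θ := by
  have := Θ.sub_mem hz.1 hz'.1
  rwa [sub_sub_sub_cancel_right] at this

lemma perturb {z θ : V → ℝ} (hz : ∀ v, 0 ≤ z v) (hθ : ∀ v, z v = 0 → 0 ≤ θ v) :
    ∃ ε : ℝ, 0 < ε ∧ ∀ v, 0 ≤ z v + ε * θ v ∧ (0 < z v → 0 < z v + ε * θ v) := by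
  have : ∀ᶠ ε in 𝓝[>] (0 : ℝ), ∀ v, 0 < z v → 0 < z v + ε * θ v := by
    rw [eventually_all]
    intro v
    by_cases hv : 0 < z v
    · have hc : Continuous fun ε : ℝ => z v + ε * θ v := by fun_prop
      have := (hc.tendsto 0).eventually (lt_mem_nhds (show 0 < z v + 0 * θ v by simpa using hv))
      exact (this.filter_mono nhdsWithin_le_nhds).mono fun _ h _ => h
    · exact Eventually.of_forall fun _ h => absurd h hv
  obtain ⟨ε, h1, h2⟩ := (this.and self_mem_nhdsWithin).exists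
  refine ⟨ε, h2, fun v => ⟨?_, h1 v⟩⟩
  rcases (hz v).eq_or_lt with h0 | h0
  · rw [← h0, zero_add]; exact mul_nonneg (le_of_lt h2) (hθ v h0.symm)
  · exact (h1 v h0).le

lemma Pt.perturb {z θ : V → ℝ} (hz : Pt Θ h z) (hθ' : θ ∈ Θ) (hθ : ∀ v, z v = 0 → 0 ≤ θ v) :
    ∃ ε : ℝ, 0 < ε ∧ Pt Θ h (z + ε • θ) ∧ ∀ v, 0 < z v → 0 < (z + ε • θ) v := by
  obtain ⟨ε, h1, h2⟩ := H86.perturb hz.2 hθ
  refine ⟨ε, h1, ⟨?_, fun v => (h2 v).1⟩, fun v => (h2 v).2⟩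
  rw [add_sub_right_comm]; exact Θ.add_mem hz.1 (Θ.smul_mem _ hθ')

lemma Simple.exact (hs : Simple Θ h) {σ : Finset V} (hσ : Face Θ h σ) : Exact Θ h σ := by
  obtain ⟨z, hz, h2⟩ := hσ
  obtain ⟨θ, hθ, h3⟩ := hs _ hz.face (fun v => if v ∈ σ then 0 else 1)
  simp only [mem_filter, mem_univ, true_and] at h3
  obtain ⟨ε, h1, h4, h5⟩ := hz.perturb hθ fun v hv => by rw [h3 v hv]; split_ifs <;> norm_num
  refine ⟨_, h4, fun v => ⟨fun h0 => ?_, fun hv => ?_⟩⟩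
  · by_contra hv
    rcases (hz.2 v).eq_or_lt with h6 | h6
    · simp [← h6, h3 v h6.symm, hv, h1.ne'] at h0
    · exact (h5 v h6).ne' h0
  · simp [h2 v hv, h3 v (h2 v hv), hv]

/-- restriction map -/
noncomputable def res (Θ : Submodule ℝ (V → ℝ)) (σ : Finset V) : Θ →ₗ[ℝ] (σ → ℝ) :=
  (LinearMap.funLeft ℝ ℝ Subtype.val).domRestrict Θ

lemma Indep.surj {σ : Finset V} (hi : Indep Θ σ) : Function.Surjective (res Θ σ) := by
  intro a
  obtain ⟨θ, h1, h2⟩ := hi fun v => if hv : v ∈ σ then a ⟨v, hv⟩ else 0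
  refine ⟨⟨θ, h1⟩, funext fun v => ?_⟩
  have := h2 v.1 v.2
  simp only [v.2, dif_pos] at this
  exact this

lemma indep_of_surj {σ : Finset V} (hi : Function.Surjective (res Θ σ)) : Indep Θ σ := by
  intro a
  obtain ⟨θ, h1⟩ := hi fun v => a v
  exact ⟨θ.1, θ.2, fun v hv => congrFun h1 ⟨v, hv⟩⟩

lemma Indep.finrank_eq {σ : Finset V} (hi : Indep Θ σ) :
    σ.card + finrank ℝ (LinearMap.ker (res Θ σ)) = finrank ℝ Θ := by
  have := (res Θ σ).finrank_range_add_finrank_ker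
  rw [LinearMap.range_eq_top.2 hi.surj] at this
  simpa using this

lemma Indep.card_le {σ : Finset V} (hi : Indep Θ σ) : σ.card ≤ finrank ℝ Θ := by
  have := hi.finrank_eq; omega

lemma Indep.eq_zero {σ : Finset V} (hi : Indep Θ σ) (hc : σ.card = finrank ℝ Θ) {θ : V → ℝ}
    (hθ : θ ∈ Θ) (h0 : ∀ v ∈ σ, θ v = 0) : θ = 0 := by
  have h1 := hi.finrank_eq
  have h2 : LinearMap.ker (res Θ σ) = ⊥ := Submodule.finrank_eq_zero.1 (by omega)
  have h3 : (⟨θ, hθ⟩ : Θ) ∈ LinearMap.ker (res Θ σ) := funext fun v => h0 v.1 v.2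
  rw [h2] at h3
  simpa using h3

lemma Indep.card_eq {σ : Finset V} (hi : Indep Θ σ)
    (H' : ∀ θ ∈ Θ, (∀ v ∈ σ, θ v = 0) → θ = 0) : σ.card = finrank ℝ Θ := by
  have h1 := hi.finrank_eq
  have h2 : LinearMap.ker (res Θ σ) = ⊥ := by
    rw [eq_bot_iff]; intro θ hθ
    have := H' θ.1 θ.2 fun v hv => congrFun (LinearMap.mem_ker.1 hθ) ⟨v, hv⟩
    simpa using this
  rw [h2] at h1; simpa using h1

/-! Links -/

/-- the offset of the link -/
def lkh (h : V → ℝ) (v : V) (θ : V → ℝ) : V → ℝ := h - h v • θ + Pi.single v 1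

lemma pt_link {v : V} {θ : V → ℝ} (hθ : θ ∈ Θ) (h1 : θ v = 1) {z : V → ℝ} (hz : Pt Θ h z)
    (h0 : z v = 0) : Pt (lkΘ Θ v) (lkh h v θ) (z + Pi.single v 1) := by
  refine ⟨mem_lkΘ.2 ⟨?_, ?_⟩, fun u => ?_⟩
  · have : z + Pi.single v 1 - lkh h v θ = (z - h) + h v • θ := by simp [lkh]; abel
    rw [this]; exact Θ.add_mem hz.1 (Θ.smul_mem _ hθ)
  · simp [lkh, h1, h0]
  · exact add_nonneg (hz.2 u) (by simp [Pi.single_apply]; split_ifs <;> norm_num)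

lemma pt_of_link {v : V} {θ : V → ℝ} (hθ : θ ∈ Θ) (h1 : θ v = 1) {z : V → ℝ}
    (hz : Pt (lkΘ Θ v) (lkh h v θ) z) : z v = 1 ∧ Pt Θ h (z - Pi.single v 1) := by
  have hv : z v = 1 := by
    have := (mem_lkΘ.1 hz.1).2
    simp [lkh, h1] at this
    linarith
  refine ⟨hv, ?_, fun u => ?_⟩
  · have : z - Pi.single v 1 - h = (z - lkh h v θ) - h v • θ := by simp [lkh]; abel
    rw [this]; exact Θ.sub_mem (mem_lkΘ.1 hz.1).1 (Θ.smul_mem _ hθ)
  · by_cases hu : u = v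
    · subst hu; simp [hv]
    · simpa [hu] using hz.2 u

lemma face_link {v : V} {θ : V → ℝ} (hθ : θ ∈ Θ) (h1 : θ v = 1) :
    Face (lkΘ Θ v) (lkh h v θ) = lkΔ (Face Θ h) v := by
  funext σ
  apply propext
  constructor
  · rintro ⟨z, hz, h2⟩
    obtain ⟨h3, h4⟩ := pt_of_link hθ h1 hz
    have hv : v ∉ σ := fun hv => by rw [h2 v hv] at h3; norm_num at h3
    refine ⟨hv, _, h4, fun u hu => ?_⟩
    rcases mem_insert.1 hu with rfl | hu'
    · simp [h3]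
    · have : u ≠ v := by rintro rfl; exact hv hu'
      simp [this, h2 u hu']
  · rintro ⟨hv, z, hz, h2⟩
    refine ⟨_, pt_link hθ h1 hz (h2 v (mem_insert_self _ _)), fun u hu => ?_⟩
    have : u ≠ v := by rintro rfl; exact hv hu
    simp [this, h2 u (mem_insert_of_mem hu)]

lemma exact_link {v : V} {θ : V → ℝ} (hθ : θ ∈ Θ) (h1 : θ v = 1) {σ : Finset V} (hv : v ∉ σ)
    (he : Exact Θ h (insert v σ)) : Exact (lkΘ Θ v) (lkh h v θ) σ := by
  obtain ⟨z, hz, h2⟩ := he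
  have h0 := (h2 v).2 (mem_insert_self _ _)
  refine ⟨_, pt_link hθ h1 hz h0, fun u => ?_⟩
  by_cases hu : u = v
  · subst hu; simp [h0, hv]
  · simp [hu, h2 u]

lemma indep_link {v : V} {σ : Finset V} (hv : v ∉ σ) (hi : Indep Θ (insert v σ)) :
    Indep (lkΘ Θ v) σ := by
  intro a
  obtain ⟨θ, h1, h2⟩ := hi (Function.update a v 0)
  refine ⟨θ, mem_lkΘ.2 ⟨h1, by simpa using h2 v (mem_insert_self _ _)⟩, fun u hu => ?_⟩
  have : u ≠ v := by rintro rfl; exact hv hu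
  rw [h2 u (mem_insert_of_mem hu), Function.update_of_ne this]

lemma Simple.link (hs : Simple Θ h) {v : V} {θ : V → ℝ} (hθ : θ ∈ Θ) (h1 : θ v = 1) :
    Simple (lkΘ Θ v) (lkh h v θ) := by
  intro σ hσ
  rw [face_link hθ h1] at hσ
  exact indep_link hσ.1 (hs _ hσ.2)

lemma Bdd.link (hb : Bdd Θ) (v : V) : Bdd (lkΘ Θ v) := by
  obtain ⟨w, h1, h2⟩ := hb
  exact ⟨w, h1, fun θ hθ => h2 θ hθ.1⟩

lemma finrank_link {v : V} {θ : V → ℝ} (hθ : θ ∈ Θ) (h1 : θ v = 1) :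
    finrank ℝ (lkΘ Θ v) + 1 = finrank ℝ Θ := by
  have hi : Indep Θ {v} := fun a => ⟨a v • θ, Θ.smul_mem _ hθ, by simp [h1]⟩
  have h2 := hi.finrank_eq
  have h3 : lkΘ Θ v = (LinearMap.ker (res Θ {v})).map Θ.subtype := by
    ext x
    simp only [mem_lkΘ, Submodule.mem_map, LinearMap.mem_ker, Submodule.subtype_apply]
    constructor
    · rintro ⟨a, b⟩
      refine ⟨⟨x, a⟩, funext fun u => ?_, rfl⟩
      have : u.1 = v := mem_singleton.1 u.2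
      change x u.1 = 0
      rw [this, b]
    · rintro ⟨y, a, rfl⟩
      exact ⟨y.2, congrFun a ⟨v, mem_singleton_self v⟩⟩
  rw [h3, Submodule.finrank_map_subtype_eq]
  simp at h2; omega

lemma psi_lin_lkh (h : V → ℝ) (v : V) (θ : V → ℝ) :
    psi v θ (lin h) = lin (lkh h v θ) - X v := by
  rw [psi_lin, lkh, map_add, lin_single]; abel

lemma continuous_lkh (v : V) (θ : V → ℝ) : Continuous fun h : V → ℝ => lkh h v θ := by
  unfold lkh; fun_prop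

/-! Compactness -/

lemma isCompact_face (hb : Bdd Θ) (h : V → ℝ) (σ : Finset V) :
    IsCompact {z | Pt Θ h z ∧ ∀ v ∈ σ, z v = 0} := by
  obtain ⟨w, h1, h2⟩ := hb
  refine IsCompact.of_isClosed_subset
    (isCompact_univ_pi fun v => (isCompact_Icc : IsCompact (Set.Icc (0 : ℝ) ((w ⬝ᵥ h) / w v))))
    ?_ ?_
  · have e : {z | Pt Θ h z ∧ ∀ v ∈ σ, z v = 0} = ((fun z => z - h) ⁻¹' (Θ : Set (V → ℝ)) ∩
        ⋂ v, {z : V → ℝ | 0 ≤ z v}) ∩ ⋂ v ∈ σ, {z : V → ℝ | z v = 0} := by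
      ext z; simp [Pt]
    rw [e]
    refine IsClosed.inter (IsClosed.inter ?_ ?_) ?_
    · exact Θ.closed_of_finiteDimensional.preimage (by fun_prop)
    · exact isClosed_iInter fun v => isClosed_le continuous_const (continuous_apply v)
    · exact isClosed_biInter fun v _ => isClosed_eq (continuous_apply v) continuous_const
  · rintro z ⟨hz, -⟩ v -
    refine ⟨hz.2 v, ?_⟩
    rw [le_div_iff₀ (h1 v)]
    have e : w ⬝ᵥ h = w ⬝ᵥ z := by
      have := h2 _ hz.1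
      rw [dotProduct_sub] at this; linarith
    rw [e, mul_comm]
    exact single_le_sum (f := fun u => w u * z u) (fun u _ => mul_nonneg (h1 u).le (hz.2 u))
      (mem_univ v)

end Pool.Agent.MP_d1780f_co.H86
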