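import Pool.Agent.MP_d1780f_co.H86.Sweep

/-! Hard Lefschetz and Hodge-Riemann for simple polytopes, and the vertex formula for the degree. -/

set_option linter.unusedSectionVars false

namespace Pool.Agent.MP_d1780f_co.H86

open Module MvPolynomial Finset Filter Topology

universe u

variable {V : Type u} [Fintype V] [DecidableEq V]

open Classical in
noncomputable def Phi (Θ : Submodule ℝ (V → ℝ)) (h ω : V → ℝ) (ε : Finset V → ℝ) (t : ℝ) :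
    S (Option V) →ₗ[ℝ] ℝ :=
  ∑ ρ ∈ (Vs Θ h).filter (fun ρ => ht Θ h ω ρ < t), ε ρ • evd (finrank ℝ Θ) (gam Θ ω ρ)

variable {Θ : Submodule ℝ (V → ℝ)} {h ω : V → ℝ} {ρ : Finset V}

lemma flip_step (hR : ∀ d' < finrank ℝ Θ, HRall.{u} d') (hb : Bdd Θ) (hs : Simple Θ h)
    (hg : Gen Θ h ω) (hρ : Vtx Θ h ρ) {a b : ℝ} (ha : a < ht Θ h ω ρ)
    (ha' : ∀ ρ', Vtx Θ h ρ' → ht Θ h ω ρ' < ht Θ h ω ρ → ht Θ h ω ρ' < a) (hb1 : ht Θ h ω ρ < b)
    (hb' : ∀ ρ', Vtx Θ h ρ' → ht Θ h ω ρ < ht Θ h ω ρ' → b < ht Θ h ω ρ')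
    {φ : S (Option V) →ₗ[ℝ] ℝ}
    (hφ : IsDeg (Θ.map (iom ω)) (Face (Θ.map (iom ω)) (hT h ω a)) (finrank ℝ Θ) φ)
    (H0 : HRsig φ (hT h ω a) (finrank ℝ Θ)) :
    ∃ ε : ℝ, ε ≠ 0 ∧ IsDeg (Θ.map (iom ω)) (Face (Θ.map (iom ω)) (hT h ω b)) (finrank ℝ Θ)
      (φ + ε • evd (finrank ℝ Θ) (gam Θ ω ρ)) ∧
      HRsig (φ + ε • evd (finrank ℝ Θ) (gam Θ ω ρ)) (hT h ω b) (finrank ℝ Θ) := by
  set t := ht Θ h ω ρ with ht0
  have hbas := hs.isBas hρ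
  let L : Set ℝ := {a | a < t ∧ ∀ ρ', Vtx Θ h ρ' → ht Θ h ω ρ' < t → ht Θ h ω ρ' < a}
  let R : Set ℝ := {b | t < b ∧ ∀ ρ', Vtx Θ h ρ' → t < ht Θ h ω ρ' → b < ht Θ h ω ρ'}
  let Δm := Cx Θ h (fun ρ' => ht Θ h ω ρ' < t) (fun ρ' => t ≤ ht Θ h ω ρ')
  let Δp := Cx Θ h (fun ρ' => ht Θ h ω ρ' ≤ t) (fun ρ' => t < ht Θ h ω ρ')
  let Δc := Cx Θ h (fun ρ' => ht Θ h ω ρ' < t) (fun ρ' => t < ht Θ h ω ρ')
  have hLn : L ∈ 𝓝[<] t := by
    refine mem_of_superset (Ioo_mem_nhdsLT ha) fun x hx => ⟨hx.2, fun ρ' c e => ?_⟩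
    exact (ha' ρ' c e).trans hx.1
  have hRn : R ∈ 𝓝[>] t := by
    refine mem_of_superset (Ioo_mem_nhdsGT hb1) fun x hx => ⟨hx.1, fun ρ' c e => ?_⟩
    exact hx.2.trans (hb' ρ' c e)
  have hLc : IsPreconnected L := by
    refine Set.OrdConnected.isPreconnected ⟨fun x hx y hy z hz => ⟨hz.2.trans_lt hy.1, ?_⟩⟩
    exact fun ρ' c e => (hx.2 ρ' c e).trans_le hz.1
  have hRc : IsPreconnected R := by
    refine Set.OrdConnected.isPreconnected ⟨fun x hx y hy z hz => ⟨hx.1.trans_le hz.1, ?_⟩⟩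
    exact fun ρ' c e => hz.2.trans_lt (hy.2 ρ' c e)
  have hLf : ∀ x ∈ L, hT h ω x ∈ Cone (Θ.map (iom ω)) Δm := by
    intro x hx
    refine ⟨simple_hT hb hs hg fun ρ' c e => ?_, ?_⟩
    · have := hx.2 ρ' c (e ▸ hx.1); exact this.ne e
    · rw [face_hT hb hs hg]
      refine Cx_congr (fun ρ' c => ⟨fun e => e.trans_lt hx.1, fun e => (hx.2 ρ' c e).le⟩)
        fun ρ' c => ⟨fun e => ?_, fun e => hx.1.le.trans e⟩
      by_contra e'; exact absurd (hx.2 ρ' c (not_le.1 e')) (not_lt.2 e)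
  have hRf : ∀ x ∈ R, hT h ω x ∈ Cone (Θ.map (iom ω)) Δp := by
    intro x hx
    refine ⟨simple_hT hb hs hg fun ρ' c e => ?_, ?_⟩
    · have := hx.2 ρ' c (e ▸ hx.1); exact this.ne' e
    · rw [face_hT hb hs hg]
      refine Cx_congr (fun ρ' c => ⟨fun e => ?_, fun e => e.trans hx.1.le⟩)
        fun ρ' c => ⟨fun e => hx.1.trans_le e, fun e => (hx.2 ρ' c e).le⟩
      by_contra e'; exact absurd (hx.2 ρ' c (not_le.1 e')) (not_lt.2 e)
  let N : Finset (Option V) := (Down Θ ω ρ).map Function.Embedding.some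
  let P : Finset (Option V) := insertNone (Up Θ ω ρ)
  have hN : ∀ o, o ∈ N ↔ gam Θ ω ρ o < 0 := by
    intro o; cases o <;> simp [N, mem_Down]
  have hP : ∀ o, o ∈ P ↔ 0 < gam Θ ω ρ o := by
    intro o; cases o <;> simp [P, mem_Up]
  have hNs : ∀ σ, N ⊆ σ ↔ Down Θ ω ρ ⊆ eraseNone σ := by
    intro σ
    refine ⟨fun H' v hv => mem_eraseNone.2 (H' (by simpa [N] using hv)), fun H' o ho => ?_⟩
    cases o with
    | none => simp [N] at ho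
    | some v => exact mem_eraseNone.1 (H' (by simpa [N] using ho))
  have hPs : ∀ σ, P ⊆ σ ↔ none ∈ σ ∧ Up Θ ω ρ ⊆ eraseNone σ := by
    intro σ
    refine ⟨fun H' => ⟨H' (by simp [P]), fun v hv => mem_eraseNone.2 (H' (by simpa [P] using hv))⟩,
      fun H' o ho => ?_⟩
    cases o with
    | none => exact H'.1
    | some v => exact mem_eraseNone.1 (H'.2 (by simpa [P] using ho))
  have hmem : ∀ v, some v ∈ N ∪ P ↔ v ∈ ρ := by
    intro v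
    conv_rhs => rw [← hg.Down_union_Up hbas]
    simp [N, P]
  have hSs : ∀ σ, σ ⊆ N ∪ P ↔ eraseNone σ ⊆ ρ := by
    intro σ
    refine ⟨fun H' v hv => (hmem v).1 (H' (mem_eraseNone.1 hv)), fun H' o ho => ?_⟩
    cases o with
    | none => simp [P]
    | some v => exact (hmem v).2 (H' (mem_eraseNone.2 ho))
  have E1 : ∀ σ, Δm σ → ¬ P ⊆ σ → Δc σ := by
    intro σ H' hn
    refine ⟨H'.1, fun h0 => exists_gt_of_ge hb hs hg hρ (H'.2 h0) fun c => hn ((hPs σ).2 ⟨h0, c⟩)⟩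
  have E2 : ∀ σ, Δp σ → ¬ N ⊆ σ → Δc σ := fun σ H' hn =>
    ⟨exists_lt_of_le hb hs hg hρ H'.1 fun c => hn ((hNs σ).2 c), H'.2⟩
  have E3 : ∀ σ, Δm σ → ¬ N ⊆ σ := by
    rintro σ ⟨⟨ρ', a, b, c⟩, -⟩ hn
    exact absurd (hs.ht_le hρ a (((hNs σ).1 hn).trans b)) (not_le.2 c)
  have E4 : ∀ σ, Δp σ → ¬ P ⊆ σ := by
    rintro σ ⟨-, H'⟩ hn
    obtain ⟨ρ', a, b, c⟩ := H' ((hPs σ).1 hn).1
    exact absurd (hs.le_ht hρ a (((hPs σ).1 hn).2.trans b)) (not_le.2 c)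
  have E5 : ∀ σ, Δm σ → P ⊆ σ → σ ⊆ N ∪ P := by
    rintro σ ⟨-, H'⟩ hn
    obtain ⟨ρ', a, b, c⟩ := H' ((hPs σ).1 hn).1
    rw [hSs, ← hg.ht_inj hs a hρ (le_antisymm (hs.le_ht hρ a (((hPs σ).1 hn).2.trans b)) c)]
    exact b
  have E6 : ∀ σ, Δp σ → N ⊆ σ → σ ⊆ N ∪ P := by
    rintro σ ⟨⟨ρ', a, b, c⟩, -⟩ hn
    rw [hSs, ← hg.ht_inj hs a hρ (le_antisymm c (hs.ht_le hρ a (((hNs σ).1 hn).trans b)))]
    exact b
  have E7 : ∀ σ, σ ⊆ N ∪ P → ¬ N ⊆ σ → Δm σ := fun σ H' hn =>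
    ⟨exists_lt_of_le hb hs hg hρ ⟨ρ, hρ, (hSs σ).1 H', le_rfl⟩ fun c => hn ((hNs σ).2 c),
      fun _ => ⟨ρ, hρ, (hSs σ).1 H', le_rfl⟩⟩
  have E8 : ∀ σ, σ ⊆ N ∪ P → ¬ P ⊆ σ → Δp σ := fun σ H' hn =>
    ⟨⟨ρ, hρ, (hSs σ).1 H', le_rfl⟩, fun h0 => exists_gt_of_ge hb hs hg hρ
      ⟨ρ, hρ, (hSs σ).1 H', le_rfl⟩ fun c => hn ((hPs σ).2 ⟨h0, c⟩)⟩
  have hcard : N.card + P.card = finrank ℝ Θ + 1 := by
    have := hg.card_Down_add hbas
    simp only [N, P, card_map, card_insertNone]; omega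
  rw [(hLf a ⟨ha, ha'⟩).2] at hφ
  obtain ⟨ε, hε, hφ'⟩ := wall (Δp := Δp) hN hP (fun _ _ => Cx.mono)
    (fun σ hσ => ⟨fun H' => (E2 σ H' fun c => hσ (E6 σ H' c)).imp (fun _ => id) fun _ => le_of_lt,
      fun H' => (E1 σ H' fun c => hσ (E5 σ H' c)).imp (fun _ => le_of_lt) fun _ => id⟩)
    (fun σ hσ => ⟨E3 σ, E7 σ hσ⟩) (fun σ hσ => ⟨E4 σ, E8 σ hσ⟩) (gam_dot_theta hbas) (by
      intro z hz
      refine ⟨_, ⟨prj Θ ρ fun v => z (some v), prj_mem _ _ _, rfl⟩, fun o ho => ?_⟩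
      cases o with
      | none =>
        rw [dot_option] at hz
        rw [iom_none, ← hbas.bv_dot]
        simp only [gam_none, gam_some] at hz
        change _ + bv Θ ω ρ ⬝ᵥ _ = _ at hz
        linarith
      | some v => exact prj_apply hbas.1 _ ((hmem v).1 ho)) hcard hφ
  have hb' := hb.iom ω
  have hd := finrank_iom Θ ω
  refine ⟨ε, right_ne_zero_of_mul hε.ne', by rw [(hRf b ⟨hb1, by assumption⟩).2]; exact hφ', ?_⟩
  refine cross hφ.deg (fun v hv => ((hN v).1 hv).ne) (fun v hv => ((hP v).1 hv).ne') hcard hε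
    (hφ.nonface _ fun c => E3 _ c le_rfl) (hφ'.nonface _ fun c => E4 _ c le_rfl)
    (continuous_hT h ω) (gam_dot_hT hbas) (fun k hk => ?_) (fun k hk => ?_) hLn hRn hLc hRc
    (fun x hx k => ?_) (fun x hx k => ?_) ⟨ha, ha'⟩ ⟨hb1, by assumption⟩ H0
  · refine critHL _ hR _ Δm _ _ True P k hb' hd ?_ hφ
      (fun σ a b => exact_hT hs (E1 σ a fun c => b ⟨trivial, c⟩)) fun _ _ => hk
    exact mem_closure_of_tendsto (((continuous_hT h ω).tendsto t).mono_left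
      (nhdsWithin_le_nhds (s := Set.Iio t))) (mem_of_superset hLn hLf)
  · refine critHL _ hR _ Δp _ _ True N k hb' hd ?_ hφ'
      (fun σ a b => exact_hT hs (E2 σ a fun c => b ⟨trivial, c⟩)) fun _ _ => hk
    exact mem_closure_of_tendsto (((continuous_hT h ω).tendsto t).mono_left
      (nhdsWithin_le_nhds (s := Set.Ioi t))) (mem_of_superset hRn hRf)
  · exact simpleHL hR hb' (hLf x hx).1 hd (by rw [(hLf x hx).2]; exact hφ) k
  · exact simpleHL hR hb' (hRf x hx).1 hd (by rw [(hRf x hx).2]; exact hφ') k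

open Classical in
theorem sweep (hR : ∀ d' < finrank ℝ Θ, HRall.{u} d') (hb : Bdd Θ) (hs : Simple Θ h)
    (hg : Gen Θ h ω) : ∀ (n : ℕ) (t : ℝ), (∀ ρ, Vtx Θ h ρ → ht Θ h ω ρ ≠ t) →
    ((Vs Θ h).filter (fun ρ => ht Θ h ω ρ < t)).card = n → ∃ ε : Finset V → ℝ, (∀ ρ, ε ρ ≠ 0) ∧
      IsDeg (Θ.map (iom ω)) (Face (Θ.map (iom ω)) (hT h ω t)) (finrank ℝ Θ) (Phi Θ h ω ε t) ∧
      HRsig (Phi Θ h ω ε t) (hT h ω t) (finrank ℝ Θ) := by
  intro n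
  induction n with
  | zero =>
    intro t ht' hn
    refine ⟨fun _ => 1, fun _ => one_ne_zero, ?_⟩
    have e := card_eq_zero.1 hn
    have e' : Phi Θ h ω (fun _ => 1) t = 0 := by rw [Phi, e, sum_empty]
    rw [e']
    refine ⟨⟨fun _ _ _ _ => rfl, fun _ _ _ => rfl, fun _ _ _ => rfl, fun σ hσ _ => ?_⟩,
      HRsig_zero _ _⟩
    rw [face_hT hb hs hg] at hσ
    obtain ⟨⟨ρ, a, -, c⟩, -⟩ := hσ
    have : ρ ∈ (Vs Θ h).filter (fun ρ => ht Θ h ω ρ < t) :=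
      mem_filter.2 ⟨mem_Vs.2 a, lt_of_le_of_ne c (ht' ρ a)⟩
    rw [e] at this; simp at this
  | succ n ih =>
    intro t ht' hn
    obtain ⟨ρ, hρ, hmax⟩ := exists_max_image ((Vs Θ h).filter (fun ρ => ht Θ h ω ρ < t))
      (ht Θ h ω) (card_pos.1 (by omega))
    have hv : Vtx Θ h ρ := mem_Vs.1 (mem_filter.1 hρ).1
    have hlt : ht Θ h ω ρ < t := (mem_filter.1 hρ).2
    have : ∀ᶠ a in 𝓝[<] (ht Θ h ω ρ), ∀ ρ', ht Θ h ω ρ' < ht Θ h ω ρ → ht Θ h ω ρ' < a := by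
      rw [eventually_all]
      intro ρ'
      by_cases c : ht Θ h ω ρ' < ht Θ h ω ρ
      · exact ((lt_mem_nhds c).filter_mono nhdsWithin_le_nhds).mono fun _ h _ => h
      · exact Eventually.of_forall fun _ h => absurd h c
    obtain ⟨a, ha', ha⟩ := (this.and self_mem_nhdsWithin).exists
    have hF : (Vs Θ h).filter (fun ρ => ht Θ h ω ρ < t) =
        insert ρ ((Vs Θ h).filter (fun ρ => ht Θ h ω ρ < a)) := by
      ext ρ'
      simp only [mem_insert, mem_filter]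
      constructor
      · rintro ⟨c, e⟩
        rcases (hmax ρ' (mem_filter.2 ⟨c, e⟩)).eq_or_lt with e' | e'
        · exact Or.inl (hg.ht_inj hs (mem_Vs.1 c) hv e')
        · exact Or.inr ⟨c, ha' ρ' e'⟩
      · rintro (rfl | ⟨c, e⟩)
        · exact mem_filter.1 hρ
        · exact ⟨c, e.trans (lt_trans ha hlt)⟩
    have hnot : ρ ∉ (Vs Θ h).filter (fun ρ => ht Θ h ω ρ < a) := fun c =>
      lt_asymm (mem_filter.1 c).2 ha
    obtain ⟨ε, e1, e2, e3⟩ := ih a (fun ρ' _ e => (ha' ρ' (e ▸ ha)).ne e) (by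
      rw [hF, card_insert_of_notMem hnot] at hn; omega)
    obtain ⟨ε₀, f1, f2, f3⟩ := flip_step hR hb hs hg hv ha (fun ρ' _ => ha' ρ') hlt
      (fun ρ' c e => by
        refine lt_of_le_of_ne (not_lt.1 fun e' => ?_) (ht' ρ' c).symm
        exact absurd (hmax ρ' (mem_filter.2 ⟨mem_Vs.2 c, e'⟩)) (not_le.2 e)) e2 e3
    have e : Phi Θ h ω (Function.update ε ρ ε₀) t =
        Phi Θ h ω ε a + ε₀ • evd (finrank ℝ Θ) (gam Θ ω ρ) := by
      rw [Phi, hF, sum_insert hnot, Function.update_self, add_comm, Phi]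
      congr 1
      exact sum_congr rfl fun ρ' c => by
        rw [Function.update_of_ne (by rintro rfl; exact hnot c)]
    refine ⟨Function.update ε ρ ε₀, fun ρ' => ?_, by rw [e]; exact f2, by rw [e]; exact f3⟩
    by_cases c : ρ' = ρ
    · subst c; simpa using f1
    · rw [Function.update_of_ne c]; exact e1 ρ'

/-- the vertex formula -/
noncomputable def Brion (Θ : Submodule ℝ (V → ℝ)) (h ω : V → ℝ) (ε : Finset V → ℝ) :
    S V →ₗ[ℝ] ℝ := ∑ ρ ∈ Vs Θ h, ε ρ • evd (finrank ℝ Θ) (bv Θ ω ρ)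

lemma rename_xs (σ : Finset V) :
    rename some (xs σ) = xs (σ.map (Function.Embedding.some : V ↪ Option V)) := by
  simp [xs]

theorem sweep_end (hR : ∀ d' < finrank ℝ Θ, HRall.{u} d') (hb : Bdd Θ) (hs : Simple Θ h)
    (hg : Gen Θ h ω) : ∃ ε : Finset V → ℝ, (∀ ρ, ε ρ ≠ 0) ∧
      IsDeg Θ (Face Θ h) (finrank ℝ Θ) (Brion Θ h ω ε) ∧ HRsig (Brion Θ h ω ε) h (finrank ℝ Θ) ∧
      ∀ j, j + 1 = finrank ℝ Θ → ∀ g ∈ H V j, ∑ ρ ∈ Vs Θ h, ε ρ * aeval (bv Θ ω ρ) g = 0 := by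
  classical
  obtain ⟨t, ht'⟩ : ∃ t, ∀ ρ, ht Θ h ω ρ < t := by
    obtain ⟨t, ht'⟩ := (Set.finite_range (ht Θ h ω)).bddAbove
    exact ⟨t + 1, fun ρ => by have := ht' ⟨ρ, rfl⟩; linarith⟩
  obtain ⟨ε, e1, e2, e3⟩ := sweep hR hb hs hg _ t (fun ρ _ => (ht' ρ).ne) rfl
  have hΦ : Phi Θ h ω ε t = ∑ ρ ∈ Vs Θ h, ε ρ • evd (finrank ℝ Θ) (gam Θ ω ρ) := by
    rw [Phi, filter_true_of_mem fun ρ _ => ht' ρ]
  have hev : ∀ ρ (f : S V), aeval (gam Θ ω ρ) (rename some f) = aeval (bv Θ ω ρ) f := by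
    intro ρ f; rw [aeval_rename]; rfl
  have hB : Brion Θ h ω ε =
      Phi Θ h ω ε t ∘ₗ (rename some : S V →ₐ[ℝ] S (Option V)).toLinearMap := by
    refine LinearMap.ext fun f => ?_
    simp only [hΦ, Brion, LinearMap.sum_apply, LinearMap.smul_apply, LinearMap.comp_apply,
      AlgHom.toLinearMap_apply, evd, ← rename_homogeneousComponent, hev]
  have hX : X none ∈ K (Phi Θ h ω ε t) := by
    have := e2.nonface {none} (by
      rw [face_hT hb hs hg]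
      rintro ⟨-, H'⟩
      obtain ⟨ρ, -, -, c⟩ := H' (by simp)
      exact absurd (ht' ρ) (not_lt.2 c))
    simpa using this
  have hK : ∀ f, rename some f ∈ K (Phi Θ h ω ε t) → f ∈ K (Brion Θ h ω ε) := by
    intro f hf g
    rw [hB]; simpa using hf (rename some g)
  have hF : ∀ σ : Finset V, Face (Θ.map (iom ω)) (hT h ω t)
      (σ.map (Function.Embedding.some : V ↪ Option V)) ↔ Face Θ h σ := by
    intro σ
    rw [face_hT hb hs hg]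
    constructor
    · rintro ⟨⟨ρ, a, b, -⟩, -⟩
      exact a.1.mono (by simpa using b)
    · intro H'
      obtain ⟨ρ, a, b, -⟩ := exists_bot hb hs hg H'
      exact ⟨⟨ρ, a, by simpa using b, (ht' ρ).le⟩, by simp⟩
  refine ⟨ε, e1, ⟨fun k f hf hk => ?_, fun σ hσ => hK _ ?_, fun θ hθ => hK _ ?_,
    fun σ hσ hc => ?_⟩, ?_, fun j hj g hg' => ?_⟩
  · rw [hB]; exact e2.deg k _ (IsHomogeneous.rename_isHomogeneous hf) hk
  · rw [rename_xs]; exact e2.nonface _ fun c => hσ ((hF σ).1 c)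
  · have : rename some (lin θ) = lin (iom ω θ) + (ω ⬝ᵥ θ) • X none := by
      simp [lin_apply, Fintype.sum_option]
    rw [this]
    exact (K _).add_mem (e2.theta _ ⟨θ, hθ, rfl⟩) (K_smul _ hX)
  · rw [hB]
    simpa [rename_xs] using e2.pos _ ((hF σ).2 hσ) (by simpa using hc)
  · rw [hB]; simpa using e3.of_option hX
  · have := hX (rename some g)
    rw [hΦ, LinearMap.sum_apply] at this
    rw [← this]
    refine sum_congr rfl fun ρ _ => ?_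
    rw [LinearMap.smul_apply, evd_of_mem _ (mul_memH' (X_memH none)
      (IsHomogeneous.rename_isHomogeneous hg') (by omega)), map_mul, hev]
    simp

theorem hrall (d : ℕ) : HRall.{u} d := by
  induction d using Nat.strong_induction_on with
  | _ d ih =>
  intro V _ _ Θ h φ hb hs hd hφ
  subst hd
  obtain ⟨ω, hg, -⟩ := exists_gen Θ h (fun _ : Empty => (0 : V → ℝ)) (R := 1) one_ne_zero
  obtain ⟨ε, -, e2, e3, -⟩ := sweep_end ih hb hs hg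
  obtain ⟨c, hc, rfl⟩ := IsDeg.unique hb hs e2 hφ
  exact e3.smul hc

/-- Hard Lefschetz theorem. -/
theorem hardLefschetz {φ : S V →ₗ[ℝ] ℝ} (hb : Bdd Θ) (hs : Simple Θ h)
    (hφ : IsDeg Θ (Face Θ h) (finrank ℝ Θ) φ) (k : ℕ) : HLat φ h (finrank ℝ Θ) k :=
  simpleHL (fun d' _ => hrall d') hb hs rfl hφ k

theorem exists_brion (hb : Bdd Θ) (hs : Simple Θ h) (hg : Gen Θ h ω) :
    ∃ ε : Finset V → ℝ, (∀ ρ, ε ρ ≠ 0) ∧ IsDeg Θ (Face Θ h) (finrank ℝ Θ) (Brion Θ h ω ε) ∧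
      ∀ j, j + 1 = finrank ℝ Θ → ∀ g ∈ H V j, ∑ ρ ∈ Vs Θ h, ε ρ * aeval (bv Θ ω ρ) g = 0 := by
  obtain ⟨ε, a, b, -, c⟩ := sweep_end (fun d' _ => hrall d') hb hs hg
  exact ⟨ε, a, b, c⟩

theorem exists_isDeg (hb : Bdd Θ) (hs : Simple Θ h) :
    ∃ φ, IsDeg Θ (Face Θ h) (finrank ℝ Θ) φ := by
  obtain ⟨ω, hg, -⟩ := exists_gen Θ h (fun _ : Empty => (0 : V → ℝ)) (R := 1) one_ne_zero
  obtain ⟨ε, -, b, -⟩ := exists_brion hb hs hg
  exact ⟨_, b⟩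

/-- injectivity of one multiplication below the middle degree -/
theorem lefschetz_inj {φ : S V →ₗ[ℝ] ℝ} (hb : Bdd Θ) (hs : Simple Θ h)
    (hφ : IsDeg Θ (Face Θ h) (finrank ℝ Θ) φ) {k : ℕ} (hk : 2 * k < finrank ℝ Θ) {f : S V}
    (hf : f ∈ H V k) (hK : lin h * f ∈ K φ) : f ∈ K φ := by
  obtain ⟨m, hm⟩ : ∃ m, 2 * k + (m + 1) = finrank ℝ Θ := ⟨finrank ℝ Θ - 2 * k - 1, by omega⟩
  refine hardLefschetz hb hs hφ k _ hm f hf ?_
  rw [show f * lin h ^ (m + 1) = lin h * f * lin h ^ m by ring]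
  exact Ideal.mul_mem_right _ _ hK

end Pool.Agent.MP_d1780f_co.H86
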