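import Pool.Agent.MP_d1780f_co.H86.Model

/-! The two local lemmas excluding poles. -/

set_option linter.unusedSectionVars false

namespace Pool.Agent.MP_d1780f_co.H86

open Module MvPolynomial Finset

universe u

variable {V : Type u} [Fintype V] [DecidableEq V]
variable {L : Submodule ℝ (V → ℝ)} {d : ℕ} {w ω : V → ℝ} {ε : Pts L w → ℝ}

lemma exchange {k : ℕ} {Φ : {m : V →₀ ℕ // m.degree = k + 1} → (V →₀ ℕ) → ℝ} {e : ℕ}
    (h : ∀ (f g : V →₀ ℕ) (hf : f.degree = k) (v v' : V), g.degree = e →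
      Φ ⟨f + Finsupp.single v 1, by simp [hf]⟩ (g + Finsupp.single v' 1) =
      Φ ⟨f + Finsupp.single v' 1, by simp [hf]⟩ (g + Finsupp.single v 1)) :
    ∀ (n : ℕ) (a a' : {m : V →₀ ℕ // m.degree = k + 1}) (b b' : V →₀ ℕ), (a.1 - a'.1).degree = n →
      a.1 + b = a'.1 + b' → b.degree = e + 1 → Φ a b = Φ a' b' := by
  have hle : ∀ a a' : {m : V →₀ ℕ // m.degree = k + 1}, a.1 ≤ a'.1 → a = a' := by
    intro a a' hle
    have e1 := congrArg Finsupp.degree (add_tsub_cancel_of_le hle)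
    rw [map_add, a.2, a'.2] at e1
    have e2 : a'.1 - a.1 = 0 := (Finsupp.degree_eq_zero_iff _).1 (by omega)
    exact Subtype.ext (le_antisymm hle (tsub_eq_zero_iff_le.1 e2))
  intro n
  induction n with
  | zero =>
    intro a a' b b' h0 h1 _
    obtain rfl := hle a a' (tsub_eq_zero_iff_le.1 ((Finsupp.degree_eq_zero_iff _).1 h0))
    rw [add_left_cancel h1]
  | succ n ih =>
    intro a a' b b' h0 h1 h2
    have hne : a ≠ a' := by rintro rfl; simp at h0
    obtain ⟨v, hv⟩ : ∃ v, a'.1 v < a.1 v := by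
      by_contra hc; push Not at hc; exact hne (hle _ _ hc)
    obtain ⟨v', hv'⟩ : ∃ v, a.1 v < a'.1 v := by
      by_contra hc; push Not at hc; exact hne (hle _ _ hc).symm
    have hvv : v ≠ v' := by rintro rfl; omega
    have hb : 1 ≤ b v' := by
      have := DFunLike.congr_fun h1 v'
      simp only [Finsupp.add_apply] at this; omega
    obtain ⟨f, hf⟩ : ∃ f, a.1 = f + Finsupp.single v 1 :=
      ⟨_, (tsub_add_cancel_of_le (Finsupp.single_le_iff.2 (by omega))).symm⟩
    obtain ⟨g, rfl⟩ : ∃ g, b = g + Finsupp.single v' 1 :=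
      ⟨_, (tsub_add_cancel_of_le (Finsupp.single_le_iff.2 hb)).symm⟩
    have hfd : f.degree = k := by have := a.2; rw [hf] at this; simpa using this
    have hgd : g.degree = e := by simpa using h2
    obtain rfl : a = ⟨f + Finsupp.single v 1, by simp [hfd]⟩ := Subtype.ext hf
    rw [h f g hfd v v' hgd]
    refine ih _ _ _ _ ?_ ?_ (by simp [hgd])
    · have : f + Finsupp.single v 1 - a'.1 =
          (f + Finsupp.single v' 1 - a'.1) + Finsupp.single v 1 := by
        ext u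
        simp only [Finsupp.add_apply, Finsupp.tsub_apply, Finsupp.single_apply] at hv hv' ⊢
        by_cases h3 : v = u
        · subst h3; simp [hvv.symm] at hv ⊢; omega
        · by_cases h4 : v' = u
          · subst h4; simp [hvv] at hv' ⊢; omega
          · simp [h3, h4]
      simp only at h0 ⊢
      rw [this] at h0
      simpa using h0
    · simp only at h1 ⊢
      rw [← h1]; abel

namespace Mdl

variable (h : Mdl L d w ω ε)
include h

theorem key_facet {j n : ℕ} (hd : j + 2 + n = d)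
    (hmiss : ∀ σ, ¬ AFace L σ → ∃ μ ⊆ σ, ¬ AFace L μ ∧ μ.card ≤ n + 1) (ρ₀ : Pts L w)
    {N : Pts L w → ℝ} (hN : N ∈ Mm L w ω (j + 1))
    (hx : ∀ v, v ∉ ρ₀.1 → evm L w ω (X v) * N ∈
      W (Mm L w ω) (taum L w ω) (j + 1) (taum L w ω ρ₀)) :
    N ∈ W (Mm L w ω) (taum L w ω) j (taum L w ω ρ₀) := by
  have hM := h.grMod
  set η := et (taum L w ω) (taum L w ω ρ₀) with hη
  have hη0 : η ρ₀ = 0 := sub_self _
  have hη1 : ∀ ρ, ρ ≠ ρ₀ → η ρ ≠ 0 := fun ρ hρ => sub_ne_zero.2 fun e => hρ (hM.inj e)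
  have hβ : bv (Th L w) ω ρ₀.1 ≠ 0 := by
    obtain ⟨v, hv⟩ : ρ₀.1.Nonempty := card_pos.1 (by rw [h.card]; exact h.hd)
    exact fun e => h.hg.bv_ne (h.bas ρ₀) hv (congrFun e v)
  have h1 : ∀ v, v ∉ ρ₀.1 → evm L w ω (X v) * (N / η) ∈ Mm L w ω (j + 1) := by
    intro v hv
    obtain ⟨q, hq, e⟩ := mem_W.1 (hx v hv)
    have hq0 : q ρ₀ = 0 := by
      obtain ⟨μ, a, b, c⟩ := hmiss (insert v ρ₀.1) fun hf => by
        obtain ⟨ρ, hρ⟩ := h.exists_facet hf
        have := card_le_card hρ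
        rw [card_insert_of_notMem hv, h.card, h.card] at this; omega
      have hvμ : v ∈ μ := by
        by_contra hc
        exact b ((h.face ρ₀).mono ((subset_insert_iff_of_notMem hc).1 a))
      have hG : μ.erase v ⊆ ρ₀.1 := subset_insert_iff.1 a
      have hc := card_erase_add_one hvμ
      have hg : xs (μ.erase v) * lin (bv (Th L w) ω ρ₀.1) ^ (n - (μ.erase v).card) ∈ H V n :=
        mul_memH' (xs_mem _) (lin_pow_mem _ _) (by omega)
      have e1 : evm L w ω (X v) * evm L w ω (xs (μ.erase v)) = 0 := by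
        rw [← map_mul, ← xs_insert (notMem_erase _ _), insert_erase hvμ, h.evm_nonface b]
      have e2 := hM.pair hq (evm_mem hg) (by omega)
      rw [sum_eq_single ρ₀] at e2
      · refine (mul_eq_zero.1 ((mul_eq_zero.1 e2).resolve_right ?_)).resolve_left (h.eps ρ₀)
        rw [map_mul, Pi.mul_apply]
        refine mul_ne_zero (h.evm_xs_ne' hG) ?_
        rw [evm_apply, map_pow, aeval_lin]
        exact pow_ne_zero _ fun e => hβ (dotProduct_self_eq_zero.1 e)
      · intro ρ _ hρ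
        have a1 := congrFun e ρ
        have a2 := congrFun e1 ρ
        simp only [Pi.mul_apply, Pi.zero_apply] at a1 a2
        have a3 : q ρ * evm L w ω (xs (μ.erase v)) ρ = 0 := by
          refine mul_left_cancel₀ (hη1 ρ hρ) ?_
          rw [← mul_assoc, a1, mul_right_comm, a2]; simp
        rw [map_mul, Pi.mul_apply, mul_assoc, ← mul_assoc (q ρ), a3]; simp
      · simp
    convert hq using 1
    funext ρ
    by_cases hρ : ρ = ρ₀
    · subst hρ; simp [hη0, hq0]
    · have a1 := congrFun e ρ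
      simp only [Pi.mul_apply, Pi.div_apply] at a1 ⊢
      rw [← mul_div_assoc, ← a1, ← hη]; field_simp [hη1 ρ hρ]
  obtain ⟨c, hc⟩ := exists_smul_eval hβ (n + 1) (lam L w ω (ε * (N / η)) (n + 1)) (by
    intro z hz n' hn' g hg
    obtain rfl : n' = n := by omega
    have e1 : lin z = lin (prj (Th L w) ρ₀.1 z) + ∑ v, (z v - prj (Th L w) ρ₀.1 z v) • (X v : S V) := by
      simp only [lin_apply, ← sum_add_distrib, ← add_smul, add_sub_cancel]
    have e2 : evm L w ω (lin (prj (Th L w) ρ₀.1 z)) = 0 := by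
      have a := prj_mem (Th L w) ρ₀.1 z
      funext ρ
      simp [h.evm_lin a.1, a.2, ← (h.bas ρ₀).bv_dot, hz]
    rw [e1, add_mul, map_add, mem_K_lam (lin_mem _) e2, zero_add, sum_mul, map_sum]
    refine sum_eq_zero fun v _ => ?_
    by_cases hv : v ∈ ρ₀.1
    · simp [prj_apply (h.bas ρ₀).1 z hv]
    · rw [smul_mul_assoc, map_smul, lam_apply _ (mul_memH' (X_memH v) hg (by omega)),
        ← smul_zero (z v - prj (Th L w) ρ₀.1 z v), ← hM.pair (h1 v hv) (evm_mem hg) (by omega)]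
      congr 1
      exact sum_congr rfl fun ρ _ => by simp; ring)
  have h2 : N / η - Pi.single ρ₀ (c / ε ρ₀) ∈ Mm L w ω j := by
    rw [hM.dual j (n + 1) (by omega)]
    rintro _ ⟨g, hg, rfl⟩
    have := hc g hg
    rw [lam_apply _ hg, ← evm_apply] at this
    simp only [Pi.sub_apply, mul_sub, sub_mul, sum_sub_distrib, AlgHom.toLinearMap_apply]
    simp only [Pi.mul_apply] at this
    rw [this, sum_eq_single ρ₀ (fun ρ _ e => by simp [e]) (by simp)]
    simp only [Pi.single_eq_same]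
    field_simp [h.eps ρ₀]; ring
  refine mem_W.2 ⟨_, h2, ?_⟩
  have h3 : ∀ ρ, ρ ≠ ρ₀ →
      (η * (N / η - Pi.single ρ₀ (c / ε ρ₀)) - N : Pts L w → ℝ) ρ = 0 := by
    intro ρ hρ; simp [hρ]; field_simp [hη1 ρ hρ]; ring
  have h4 := hM.sum_zero (Submodule.sub_mem _
    (hM.W_le (s := taum L w ω ρ₀) (mem_W.2 ⟨_, h2, rfl⟩)) hN) (by omega)
  rw [sum_eq_single ρ₀ (fun ρ _ e => by rw [h3 ρ e, mul_zero]) (by simp)] at h4
  rw [← sub_eq_zero]
  funext ρ
  by_cases hρ : ρ = ρ₀
  · rw [hρ]; exact (mul_eq_zero.1 h4).resolve_left (h.eps ρ₀)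
  · exact h3 ρ hρ

lemma indep_s {s : ℝ} (hs : ∀ ρ, taum L w ω ρ ≠ s) {σ : Finset V} (hσ : AFace L σ) :
    Indep (Th L (s • w + ω)) σ := by
  obtain ⟨ρ, hρ⟩ := h.exists_facet hσ
  have h1 := h.simple.pt_zv ρ.vtx
  have h2 : w ⬝ᵥ zv (Th L w) 1 ρ.1 = w ⬝ᵥ 1 := by
    have := h1.1.2; rw [dotProduct_sub] at this; linarith
  refine indep_Th (h.hL.simp σ hσ) (z := zv (Th L w) 1 ρ.1)
    (by simpa using L.add_mem h1.1.1 h.hL.one)
    (fun v hv => (h.simple.zv_eq_zero ρ.vtx v).2 (hρ hv)) fun e => hs ρ ?_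
  rw [add_dotProduct, smul_dotProduct, h2, smul_eq_mul] at e
  rw [taum, div_eq_iff h.cpos.ne', ht]; linarith

theorem key_nonfacet {j n : ℕ} (hd : j + 2 + n = d) (hn : j + 2 ≤ n)
    (hmiss : ∀ σ, ¬ AFace L σ → ∃ μ ⊆ σ, ¬ AFace L μ ∧ μ.card ≤ n + 1) {s : ℝ}
    (hs : ∀ ρ, taum L w ω ρ ≠ s) {g : V → ℝ} (hg : g ∈ L) {c : ℝ} (hc : c ≠ 0)
    (hgc : evm L w ω (lin g) = c • et (taum L w ω) s)
    {N : {m : V →₀ ℕ // m.degree = j + 1} → Pts L w → ℝ} (hN : ∀ a, N a ∈ Mm L w ω (j + 1))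
    (hx : ∀ a v, g v ≠ 0 → evm L w ω (X v) * N a ∈ W (Mm L w ω) (taum L w ω) (j + 1) s)
    (hsym : ∀ a a', N a * evm L w ω (monomial a'.1 1) - evm L w ω (monomial a.1 1) * N a' ∈
      W (Mm L w ω) (taum L w ω) (2 * j + 2) s) (a : {m : V →₀ ℕ // m.degree = j + 1}) :
    N a ∈ W (Mm L w ω) (taum L w ω) j s := by
  have hM := h.grMod
  set η := et (taum L w ω) s with hη
  have hη1 : ∀ ρ, η ρ ≠ 0 := fun ρ => sub_ne_zero.2 (hs ρ)
  have hXm : ∀ v, evm L w ω (X v) ∈ Mm L w ω 1 := fun v => evm_mem (X_memH v)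
  have hout : ∀ ρ : Pts L w, ∃ v ∈ ρ.1, g v ≠ 0 := by
    intro ρ
    by_contra hcon
    push Not at hcon
    have := congrFun hgc ρ
    rw [evm_apply, aeval_lin, bv_dot_zero hcon] at this
    exact mul_ne_zero hc (hη1 ρ) this.symm
  have hg0 : g ≠ 0 := by
    obtain ⟨ρ, -⟩ := h.exists_facet (σ := ∅) ⟨1, h.hL.one, fun _ => zero_le_one, h.hL.one_ne, by simp⟩
    obtain ⟨v, -, hv⟩ := hout ρ
    exact fun e => hv (congrFun e v)
  have hx' : ∀ a v, g v ≠ 0 → evm L w ω (X v) * N a / η ∈ Mm L w ω (j + 1) := fun a v hv =>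
    (div_mem_iff hs _).2 (hx a v hv)
  have hlin : ∀ z ∈ L, evm L w ω (lin z) = (ω ⬝ᵥ z + s * (w ⬝ᵥ z)) • 1 + (w ⬝ᵥ z) • η := by
    intro z hz; funext ρ; simp [h.evm_lin hz, hη, et]; ring
  have skew : ∀ (f : V →₀ ℕ) (hf : f.degree = j) (v v' : V), ∀ q ∈ H V n,
      ∑ ρ, ε ρ * (N ⟨f + Finsupp.single v 1, by simp [hf]⟩ / η) ρ * evm L w ω (X v' * q) ρ =
      ∑ ρ, ε ρ * (N ⟨f + Finsupp.single v' 1, by simp [hf]⟩ / η) ρ * evm L w ω (X v * q) ρ := by
    intro f hf v v' q hq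
    set a₁ : {m : V →₀ ℕ // m.degree = j + 1} := ⟨f + Finsupp.single v 1, by simp [hf]⟩ with ha₁
    set a₂ : {m : V →₀ ℕ // m.degree = j + 1} := ⟨f + Finsupp.single v' 1, by simp [hf]⟩ with ha₂
    have hXF : evm L w ω (X v') * evm L w ω (monomial a₁.1 1) =
        evm L w ω (X v) * evm L w ω (monomial a₂.1 1) := by
      rw [← map_mul, ← map_mul]
      congr 1
      simp only [ha₁, ha₂, monomial_add_single]; ring
    set s₀ := evm L w ω (X v') * N a₁ - evm L w ω (X v) * N a₂ with hs₀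
    have hs₀m : s₀ ∈ Mm L w ω (j + 2) := Submodule.sub_mem _
      (hM.mul_mem (hXm _) (hN _) (by omega)) (hM.mul_mem (hXm _) (hN _) (by omega))
    obtain ⟨m', rfl⟩ : ∃ m', n = j + 1 + m' + 1 := ⟨n - j - 2, by omega⟩
    have b1 : ∀ q ∈ H V (j + 1 + m'), lam L w ω (ε * (s₀ / η)) (j + 1 + m') q = 0 := by
      refine H_add_le (p := LinearMap.ker _) fun f₁ hf₁ q hq => ?_
      refine H_le_of_monomial (p := (LinearMap.ker _).comap (LinearMap.mulRight ℝ q))
        (fun b hb => ?_) hf₁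
      have hb' : monomial b (1 : ℝ) ∈ H V (j + 1) := isHomogeneous_monomial _ hb
      have e1 : s₀ * evm L w ω (monomial b 1) ∈ W (Mm L w ω) (taum L w ω) (2 * j + 3) s := by
        convert Submodule.sub_mem _ (hM.mul_W (hXm v') (hsym a₁ ⟨b, hb⟩) le_rfl)
          (hM.mul_W (hXm v) (hsym a₂ ⟨b, hb⟩) le_rfl) using 1
        simp only [hs₀, mul_sub, ← mul_assoc, hXF]; ring
      rw [Submodule.mem_comap, LinearMap.mulRight_apply, LinearMap.mem_ker,
        lam_apply _ (mul_memH hb' hq), ← hM.pair ((div_mem_iff hs _).2 e1) (evm_mem hq) (by omega)]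
      exact sum_congr rfl fun ρ _ => by simp [hη]; ring
    have key := slice h.hL hg hg0 (inDeg_lam (ω := ω) (ε * (s₀ / η)) (j + 1 + m' + 1)) (by omega)
      (by omega) (fun σ hσ => mem_K_lam (xs_mem σ) (h.evm_nonface hσ)) (fun u hu => ?_)
      fun z hz => ?_
    · have := DFunLike.congr_fun key q
      rw [lam_apply _ hq, LinearMap.zero_apply] at this
      rw [← sub_eq_zero, ← sum_sub_distrib, ← this]
      exact sum_congr rfl fun ρ _ => by simp [hs₀]; ring
    · refine mem_K_of_homog (inDeg_lam _ _) (X_memH u) fun m hm q hq => ?_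
      rw [lam_apply _ (mul_memH' (X_memH u) hq hm), ← hM.pair (a := j + 2) (Submodule.sub_mem _
        (hM.mul_mem (hXm v') (hx' a₁ u hu) (by omega)) (hM.mul_mem (hXm v) (hx' a₂ u hu) (by omega)))
        (evm_mem hq) (by omega)]
      exact sum_congr rfl fun ρ _ => by simp [hs₀]; ring
    · refine mem_K_of_homog (inDeg_lam _ _) (lin_mem z) fun m hm q hq => ?_
      obtain rfl : m = j + 1 + m' := by omega
      have e1 := b1 q hq
      have e2 := hM.pair hs₀m (evm_mem hq) (by omega)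
      rw [lam_apply _ hq] at e1
      rw [lam_apply _ (mul_memH' (lin_mem z) hq hm), map_mul, hlin z hz]
      have e3 : (ω ⬝ᵥ z + s * (w ⬝ᵥ z)) * ∑ ρ, (ε * (s₀ / η)) ρ * evm L w ω q ρ +
          (w ⬝ᵥ z) * ∑ ρ, ε ρ * s₀ ρ * evm L w ω q ρ = 0 := by rw [e1, e2]; simp
      rw [mul_sum, mul_sum, ← sum_add_distrib] at e3
      refine Eq.trans (sum_congr rfl fun ρ _ => ?_) e3
      simp; field_simp [hη1 ρ]
  let Φ : {m : V →₀ ℕ // m.degree = j + 1} → (V →₀ ℕ) → ℝ := fun a b =>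
    ∑ ρ, ε ρ * (N a / η) ρ * evm L w ω (monomial b 1) ρ
  have exch := exchange (Φ := Φ) (e := n) fun f q hf v v' hq => by
    have := skew f hf v v' (monomial q 1) (isHomogeneous_monomial _ hq)
    simpa only [Φ, monomial_add_single, pow_one, mul_comm (monomial q (1 : ℝ))] using this
  classical
  let Ft : S V →ₗ[ℝ] ℝ := (basisMonomials V ℝ).constr ℝ fun m =>
    if hm : ∃ a : {m : V →₀ ℕ // m.degree = j + 1}, a.1 ≤ m then Φ hm.choose (m - hm.choose.1) else 0
  have hFt : ∀ (a : {m : V →₀ ℕ // m.degree = j + 1}), ∀ q ∈ H V (n + 1),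
      Ft (monomial a.1 1 * q) = ∑ ρ, ε ρ * (N a / η) ρ * evm L w ω q ρ := by
    intro a q hq
    have := H_le_of_monomial (p := LinearMap.ker (Ft ∘ₗ LinearMap.mulLeft ℝ (monomial a.1 1) -
      lam L w ω (ε * (N a / η)) (n + 1))) (fun b hb => ?_) hq
    · rw [LinearMap.mem_ker, LinearMap.sub_apply, sub_eq_zero, lam_apply _ hq] at this
      exact this
    · rw [LinearMap.mem_ker, LinearMap.sub_apply, sub_eq_zero,
        lam_apply _ (isHomogeneous_monomial _ hb), LinearMap.comp_apply, LinearMap.mulLeft_apply,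
        monomial_mul, one_mul]
      have hm : ∃ a' : {m : V →₀ ℕ // m.degree = j + 1}, a'.1 ≤ a.1 + b := ⟨a, le_self_add⟩
      have e : Ft (monomial (a.1 + b) 1) = Φ hm.choose (a.1 + b - hm.choose.1) := by
        have := (basisMonomials V ℝ).constr_basis ℝ (fun m =>
          if hm : ∃ a : {m : V →₀ ℕ // m.degree = j + 1}, a.1 ≤ m then
            Φ hm.choose (m - hm.choose.1) else 0) (a.1 + b)
        rw [dif_pos hm, coe_basisMonomials] at this
        exact this
      rw [e]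
      exact (exch _ a _ b _ rfl (add_tsub_cancel_of_le hm.choose_spec).symm hb).symm
  have hB : ∀ (e e' : ℕ) (r : S V), r ∈ H V e → e + e' = n + 1 →
      (∀ a, ∀ q ∈ H V e', ∑ ρ, ε ρ * (N a / η) ρ * evm L w ω (r * q) ρ = 0) →
      ∀ f ∈ H V (j + 1 + e'), Ft (r * f) = 0 := by
    intro e e' r hr he H'
    refine H_add_le (p := LinearMap.ker (Ft ∘ₗ LinearMap.mulLeft ℝ r)) fun f₁ hf₁ q hq => ?_
    refine H_le_of_monomial (p := (LinearMap.ker _).comap (LinearMap.mulRight ℝ q))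
      (fun b hb => ?_) hf₁
    rw [Submodule.mem_comap, LinearMap.mulRight_apply, LinearMap.mem_ker, LinearMap.comp_apply,
      LinearMap.mulLeft_apply, mul_left_comm, hFt ⟨b, hb⟩ _ (mul_memH' hr hq he)]
    exact H' _ q hq
  have hzero : H V d ≤ LinearMap.ker Ft := by
    refine span_sqfree (fun σ => h.indep_s hs) (fun σ i hσ hi q hq => ?_)
      (fun θ hθ i hi q hq => ?_) fun σ hσ hcard => ?_
    · obtain ⟨μ, a1, a2, a3⟩ := hmiss σ hσ
      rw [LinearMap.mem_ker, xs_sdiff a1, mul_assoc]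
      refine hB _ (n + 1 - μ.card) _ (xs_mem μ) (by omega) (fun a q _ => ?_) _
        (mul_memH' (xs_mem _) hq ?_)
      · simp [h.evm_nonface a2]
      · have := card_sdiff_add_card_eq_card a1; omega
    · refine hB 1 n _ (lin_mem θ) (by omega) (fun a q hq => ?_) _ (by convert hq using 2; omega)
      have e1 := hθ.2
      rw [add_dotProduct, smul_dotProduct, smul_eq_mul, add_comm] at e1
      have e2 := congrArg ((w ⬝ᵥ θ) * ·) (hM.pair (hN a) (evm_mem hq) (by omega))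
      simp only [mul_sum, mul_zero] at e2
      rw [map_mul, hlin θ hθ.1, e1]
      refine Eq.trans (sum_congr rfl fun ρ _ => ?_) e2
      simp; field_simp [hη1 ρ]
    · obtain ⟨ρ, rfl⟩ := h.eq_facet hσ hcard
      obtain ⟨v, hv, hv'⟩ := hout ρ
      rw [LinearMap.mem_ker, ← insert_erase hv, xs_insert (notMem_erase _ _)]
      refine hB 1 n _ (X_memH v) (by omega) (fun a q hq => ?_) _ (by
        convert xs_mem (ρ.1.erase v) using 2
        have := card_erase_add_one hv; omega)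
      rw [← hM.pair (hx' a v hv') (evm_mem hq) (by omega)]
      exact sum_congr rfl fun ρ _ => by simp; ring
  rw [← div_mem_iff hs, hM.dual j (n + 1) (by omega)]
  rintro _ ⟨q, hq, rfl⟩
  rw [AlgHom.toLinearMap_apply, ← hFt a q hq]
  exact hzero (mul_memH' (isHomogeneous_monomial _ a.2) hq (by omega))

end Mdl

end Pool.Agent.MP_d1780f_co.H86
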