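import Pool.Agent.MP_d1780f_co.H86.Poly

/-! Links of degree functionals, Lefschetz forms. -/

set_option linter.unusedSectionVars false

namespace Pool.Agent.MP_d1780f_co.H86

open Module MvPolynomial Finset Filter Topology

universe u

variable {V : Type u} [Fintype V] [DecidableEq V]

noncomputable def kill (v : V) : S V →ₐ[ℝ] S V := aeval fun u => if u = v then 0 else X u

noncomputable def psi (v : V) (θ : V → ℝ) : S V →ₐ[ℝ] S V :=
  aeval fun u => if u = v then X v - lin θ else X u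

noncomputable def lkφ (φ : S V →ₗ[ℝ] ℝ) (v : V) : S V →ₗ[ℝ] ℝ :=
  φ ∘ₗ LinearMap.mulLeft ℝ (X v) ∘ₗ (kill v).toLinearMap

def lkΔ (Δ : Finset V → Prop) (v : V) : Finset V → Prop := fun σ => v ∉ σ ∧ Δ (insert v σ)

def lkΘ (Θ : Submodule ℝ (V → ℝ)) (v : V) : Submodule ℝ (V → ℝ) :=
  Θ ⊓ LinearMap.ker (LinearMap.proj v)

lemma mem_lkΘ {Θ : Submodule ℝ (V → ℝ)} {v : V} {θ : V → ℝ} :
    θ ∈ lkΘ Θ v ↔ θ ∈ Θ ∧ θ v = 0 := Iff.rfl

lemma lkφ_apply (φ : S V →ₗ[ℝ] ℝ) (v : V) (f : S V) : lkφ φ v f = φ (X v * kill v f) := rfl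

lemma kill_X (v u : V) : kill v (X u) = if u = v then 0 else X u := by simp [kill]

lemma psi_X (v u : V) (θ : V → ℝ) : psi v θ (X u) = if u = v then X v - lin θ else X u := by
  simp [psi]

lemma aeval_memH {W : Type u} {k : ℕ} {f : S V} (hf : f ∈ H V k) (g : V → S W)
    (hg : ∀ v, g v ∈ H W 1) : aeval g f ∈ H W k := by
  simpa using IsHomogeneous.aeval hf g hg

lemma kill_mem (v : V) {k : ℕ} {f : S V} (hf : f ∈ H V k) : kill v f ∈ H V k :=
  aeval_memH hf _ fun u => by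
    split_ifs
    · exact Submodule.zero_mem _
    · exact X_memH u

lemma psi_mem (v : V) (θ : V → ℝ) {k : ℕ} {f : S V} (hf : f ∈ H V k) : psi v θ f ∈ H V k :=
  aeval_memH hf _ fun u => by
    split_ifs
    · exact Submodule.sub_mem _ (X_memH v) (lin_mem θ)
    · exact X_memH u

lemma kill_lin (v : V) (z : V → ℝ) : kill v (lin z) = lin z - z v • X v := by
  rw [lin_apply, map_sum, ← add_sum_erase _ _ (mem_univ v), ← add_sum_erase _ _ (mem_univ v)]
  simp only [map_smul, kill_X, if_true, smul_zero, zero_add, add_sub_cancel_left]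
  exact sum_congr rfl fun u hu => by rw [if_neg (ne_of_mem_erase hu)]

lemma psi_lin (v : V) (θ z : V → ℝ) : psi v θ (lin z) = lin (z - z v • θ) := by
  rw [map_sub, map_smul, lin_apply z, map_sum, ← add_sum_erase _ _ (mem_univ v),
    ← add_sum_erase _ _ (mem_univ v)]
  simp only [map_smul, psi_X, if_true, smul_sub]
  rw [sum_congr rfl fun u hu => by rw [if_neg (ne_of_mem_erase hu)]]
  abel

lemma kill_psi {v : V} {θ : V → ℝ} (h : θ v = 1) (f : S V) : kill v (psi v θ f) = psi v θ f := by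
  have : (kill v).comp (psi v θ) = psi v θ := by
    ext1 u
    simp only [AlgHom.comp_apply, psi_X]
    split_ifs with hu
    · rw [map_sub, kill_lin, kill_X, h]; simp
    · rw [kill_X, if_neg hu]
  exact DFunLike.congr_fun this f

lemma psi_kill (v : V) (θ : V → ℝ) (f : S V) : psi v θ (kill v f) = kill v f := by
  have : (psi v θ).comp (kill v) = kill v := by
    ext1 u
    simp only [AlgHom.comp_apply, kill_X]
    split_ifs with hu
    · simp
    · rw [psi_X, if_neg hu]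
  exact DFunLike.congr_fun this f

lemma sub_aeval_mem (I : Ideal (S V)) (g : V → S V) (hg : ∀ u, X u - g u ∈ I) (f : S V) :
    f - aeval g f ∈ I := by
  have : (Ideal.Quotient.mkₐ ℝ I) = (Ideal.Quotient.mkₐ ℝ I).comp (aeval g) := by
    ext1 u
    simp only [AlgHom.comp_apply, aeval_X, Ideal.Quotient.mkₐ_eq_mk]
    exact Ideal.Quotient.eq.2 (hg u)
  exact Ideal.Quotient.eq.1 (DFunLike.congr_fun this f)

lemma sub_psi_mem {I : Ideal (S V)} (v : V) {θ : V → ℝ} (h : lin θ ∈ I) (f : S V) :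
    f - psi v θ f ∈ I :=
  sub_aeval_mem I _ (fun u => by
    split_ifs with hu
    · subst hu; simpa using h
    · simp) f

lemma sub_kill_mem {I : Ideal (S V)} {v : V} (h : X v ∈ I) (f : S V) : f - kill v f ∈ I :=
  sub_aeval_mem I _ (fun u => by
    split_ifs with hu
    · subst hu; simpa using h
    · simp) f

lemma kill_xs {v : V} {σ : Finset V} (h : v ∉ σ) : kill v (xs σ) = xs σ := by
  simp only [xs, map_prod, kill_X]
  exact prod_congr rfl fun u hu => if_neg (by rintro rfl; exact h hu)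

lemma kill_xs_of_mem {v : V} {σ : Finset V} (h : v ∈ σ) : kill v (xs σ) = 0 := by
  simp only [xs, map_prod, kill_X]
  exact prod_eq_zero h (by simp)

lemma X_mem_K_lk (φ : S V →ₗ[ℝ] ℝ) (v : V) : X v ∈ K (lkφ φ v) := by
  intro g; simp [lkφ_apply, kill_X]

lemma InDeg.link {d : ℕ} {φ : S V →ₗ[ℝ] ℝ} (h : InDeg (d + 1) φ) (v : V) : InDeg d (lkφ φ v) :=
  fun k f hf hk => h (1 + k) _ (mul_memH (X_memH v) (kill_mem v hf)) (by omega)

lemma IsDeg.link {Θ : Submodule ℝ (V → ℝ)} {Δ : Finset V → Prop} {d : ℕ} {φ : S V →ₗ[ℝ] ℝ}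
    (h : IsDeg Θ Δ (d + 1) φ) (v : V) : IsDeg (lkΘ Θ v) (lkΔ Δ v) d (lkφ φ v) where
  deg := h.deg.link v
  nonface σ hσ g := by
    rw [lkφ_apply, map_mul (kill v)]
    by_cases hv : v ∈ σ
    · simp [kill_xs_of_mem hv]
    · rw [kill_xs hv, ← mul_assoc, ← xs_insert hv]
      exact h.nonface _ (fun h' => hσ ⟨hv, h'⟩) _
  theta θ hθ g := by
    rw [lkφ_apply, map_mul (kill v), kill_lin, (mem_lkΘ.1 hθ).2, zero_smul, sub_zero, mul_left_comm]
    exact h.theta θ hθ.1 _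
  pos σ hσ hc := by
    rw [lkφ_apply, kill_xs hσ.1, ← xs_insert hσ.1]
    exact h.pos _ hσ.2 (by rw [card_insert_of_notMem hσ.1, hc])

lemma lkφ_psi {φ : S V →ₗ[ℝ] ℝ} {v : V} {θ : V → ℝ} (h1 : θ v = 1) (h : lin θ ∈ K φ) (f : S V) :
    lkφ φ v (psi v θ f) = φ (X v * f) := by
  rw [lkφ_apply, kill_psi h1]
  have := sub_psi_mem v h f (X v)
  rw [sub_mul, map_sub, mul_comm f, mul_comm (psi v θ f)] at this
  linarith

lemma X_mul_mem_K_iff {φ : S V →ₗ[ℝ] ℝ} {v : V} {θ : V → ℝ} (h1 : θ v = 1) (h : lin θ ∈ K φ)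
    (f : S V) : X v * f ∈ K φ ↔ psi v θ f ∈ K (lkφ φ v) := by
  constructor
  · intro hf g
    have e : lkφ φ v (psi v θ f * g) = lkφ φ v (psi v θ (f * kill v g)) := by
      rw [map_mul (psi v θ), psi_kill, lkφ_apply, lkφ_apply, map_mul (kill v), map_mul (kill v)]
      congr 3
      have : (kill v).comp (kill v) = kill v := by
        ext1 u
        simp only [AlgHom.comp_apply, kill_X]
        split_ifs with hu
        · simp
        · rw [kill_X, if_neg hu]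
      exact (DFunLike.congr_fun this g).symm
    rw [e, lkφ_psi h1 h, ← mul_assoc]
    exact hf _
  · intro hf g
    rw [mul_assoc, ← lkφ_psi h1 h, map_mul (psi v θ)]
    exact hf _

/-- The Lefschetz form `s * φ (f g h^m)` on forms of degree `k`. -/
noncomputable def Bf (s : ℝ) (φ : S V →ₗ[ℝ] ℝ) (h : V → ℝ) (m k : ℕ) :
    LinearMap.BilinForm ℝ (H V k) :=
  LinearMap.mk₂ ℝ (fun f g => s * φ (f.1 * g.1 * lin h ^ m))
    (fun a b c => by simp [add_mul, mul_add])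
    (fun c a b => by simp; ring)
    (fun a b c => by simp [add_mul, mul_add])
    (fun c a b => by simp; ring)

lemma Bf_apply (s : ℝ) (φ : S V →ₗ[ℝ] ℝ) (h : V → ℝ) (m k : ℕ) (f g : H V k) :
    Bf s φ h m k f g = s * φ (f.1 * g.1 * lin h ^ m) := rfl

lemma Bf_symm (s : ℝ) (φ : S V →ₗ[ℝ] ℝ) (h : V → ℝ) (m k : ℕ) (f g : H V k) :
    Bf s φ h m k f g = Bf s φ h m k g f := by rw [Bf_apply, Bf_apply, mul_comm f.1]

lemma continuous_lin_pow (m : ℕ) : ∀ F : S V →ₗ[ℝ] ℝ, Continuous fun h : V → ℝ => F (lin h ^ m) := by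
  induction m with
  | zero => intro F; simpa using continuous_const
  | succ m ih =>
    intro F
    have : (fun h : V → ℝ => F (lin h ^ (m + 1))) =
        fun h => ∑ v, h v * (F ∘ₗ LinearMap.mulLeft ℝ (X v)) (lin h ^ m) := by
      funext h
      rw [pow_succ']
      conv_lhs => rw [lin_apply h, sum_mul, map_sum]
      simp [← lin_apply]
    rw [this]
    exact continuous_finsetSum _ fun v _ => (continuous_apply v).mul (ih _)

lemma continuous_Bf (s : ℝ) (φ : S V →ₗ[ℝ] ℝ) (m k : ℕ) (f g : H V k) :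
    Continuous fun h : V → ℝ => Bf s φ h m k f g := by
  simp only [Bf_apply]
  exact continuous_const.mul (continuous_lin_pow m (φ ∘ₗ LinearMap.mulLeft ℝ (f.1 * g.1)))

lemma mem_ker_Bf {s : ℝ} (hs : s ≠ 0) {φ : S V →ₗ[ℝ] ℝ} {d : ℕ} (hφ : InDeg d φ) {h : V → ℝ}
    {m k : ℕ} (hd : 2 * k + m = d) (f : H V k) :
    f ∈ LinearMap.ker (Bf s φ h m k) ↔ f.1 * lin h ^ m ∈ K φ := by
  rw [LinearMap.mem_ker, LinearMap.ext_iff]
  constructor
  · intro H'
    refine mem_K_of_homog hφ (mul_memH f.2 (lin_pow_mem h m)) fun j hj g hg => ?_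
    have : j = k := by omega
    subst this
    have := H' ⟨g, hg⟩
    simp only [Bf_apply, LinearMap.zero_apply, mul_eq_zero, hs, false_or] at this
    rw [mul_right_comm]; exact this
  · intro H' g
    rw [Bf_apply, mul_right_comm, H' _]; simp

/-- signature form of the Hodge-Riemann relations -/
def HRsig (φ : S V →ₗ[ℝ] ℝ) (h : V → ℝ) (d : ℕ) : Prop :=
  np (Bf (-1) φ h d 0) = 0 ∧ ∀ k m, 2 * (k + 1) + m = d →
    np (Bf ((-1) ^ k) φ h m (k + 1)) = np (Bf ((-1) ^ k) φ h (m + 2) k)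

/-- hard Lefschetz in degree `k` -/
def HLat (φ : S V →ₗ[ℝ] ℝ) (h : V → ℝ) (d k : ℕ) : Prop :=
  ∀ m, 2 * k + m = d → ∀ f ∈ H V k, f * lin h ^ m ∈ K φ → f ∈ K φ

/-- Hodge-Riemann in degree `k` -/
def HRat (φ : S V →ₗ[ℝ] ℝ) (h : V → ℝ) (d k : ℕ) : Prop :=
  ∀ m, 2 * k + m = d → ∀ f ∈ H V k, f * lin h ^ (m + 1) ∈ K φ →
    0 ≤ (-1) ^ k * φ (f * f * lin h ^ m) ∧ (φ (f * f * lin h ^ m) = 0 → f * lin h ^ m ∈ K φ)

lemma ker_Bf_le {s : ℝ} (hs : s ≠ 0) {φ : S V →ₗ[ℝ] ℝ} {d : ℕ} (hφ : InDeg d φ) {h : V → ℝ}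
    {m k : ℕ} (hd : 2 * k + m = d) (hl : HLat φ h d k) (h' : V → ℝ) :
    LinearMap.ker (Bf s φ h m k) ≤ LinearMap.ker (Bf s φ h' m k) := by
  intro f hf
  rw [mem_ker_Bf hs hφ hd] at hf ⊢
  exact Ideal.mul_mem_right _ _ (hl m hd _ f.2 hf)

lemma neg_one_pow_ne (k : ℕ) : ((-1 : ℝ)) ^ k ≠ 0 := pow_ne_zero _ (by norm_num)

lemma HRat_zero {φ : S V →ₗ[ℝ] ℝ} {d : ℕ} (hφ : InDeg d φ) {h : V → ℝ}
    (h0 : np (Bf (-1) φ h d 0) = 0) : HRat φ h d 0 := by
  intro m hm f hf _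
  have hmd : m = d := by omega
  subst hmd
  obtain ⟨a, b⟩ := abstract_HR (Bf_symm (-1) φ h m 0) (U := ⊥) (fun x hx hx0 => absurd hx hx0)
    (by rw [h0]; exact Nat.zero_le _)
  have hz : ∀ u ∈ (⊥ : Submodule ℝ (H V 0)), Bf (-1) φ h m 0 u ⟨f, hf⟩ = 0 := by
    intro u hu; rw [(Submodule.mem_bot ℝ).1 hu]; simp
  constructor
  · have := a _ hz
    rw [Bf_apply] at this
    simp only at this
    simp; linarith
  · intro e
    have := b _ hz (by rw [Bf_apply]; simp only; rw [e]; simp)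
    exact (mem_ker_Bf (by norm_num) hφ hm ⟨f, hf⟩).1 (LinearMap.ext this)

lemma posOn_map {E F : Type*} [AddCommGroup E] [Module ℝ E] [FiniteDimensional ℝ E]
    [AddCommGroup F] [Module ℝ F] [FiniteDimensional ℝ F]
    {B : LinearMap.BilinForm ℝ E} {B' : LinearMap.BilinForm ℝ F} (f : F →ₗ[ℝ] E)
    (h : ∀ x, B' x x = B (f x) (f x)) {U : Submodule ℝ F} (h2 : PosOn B' U) :
    ∃ U' : Submodule ℝ E, PosOn B U' ∧ finrank ℝ U' = finrank ℝ U ∧ ∀ u ∈ U', ∃ x, f x = u := by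
  have hinj : Function.Injective (f.domRestrict U) := by
    rw [← LinearMap.ker_eq_bot, eq_bot_iff]
    intro x hx
    by_contra hx0
    have := h2 x.1 x.2 (by simpa using hx0)
    rw [h] at this
    have hx' : f x.1 = 0 := by simpa using hx
    simp [hx'] at this
  refine ⟨_, ?_, LinearMap.finrank_range_of_inj hinj, ?_⟩
  · rintro _ ⟨x, rfl⟩ hx0
    have hx : x.1 ≠ 0 := by
      intro h0; apply hx0; simp [h0]
    have := h2 x.1 x.2 hx
    rw [h] at this
    simpa using this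
  · rintro _ ⟨x, rfl⟩; exact ⟨x.1, rfl⟩

lemma HRat_succ {φ : S V →ₗ[ℝ] ℝ} {d : ℕ} (hφ : InDeg d φ) {h : V → ℝ} {k : ℕ}
    (h0 : ∀ m, 2 * (k + 1) + m = d →
      np (Bf ((-1) ^ k) φ h m (k + 1)) ≤ np (Bf ((-1) ^ k) φ h (m + 2) k)) :
    HRat φ h d (k + 1) := by
  intro m hm f hf hprim
  obtain ⟨U, hU1, hU2⟩ := exists_posOn (Bf ((-1) ^ k) φ h (m + 2) k)
  let μ : H V k →ₗ[ℝ] H V (k + 1) :=
    LinearMap.codRestrict _ (LinearMap.mulRight ℝ (lin h) ∘ₗ (H V k).subtype)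
      fun g => mul_memH g.2 (lin_mem h)
  have hμ : ∀ g, (μ g).1 = g.1 * lin h := fun g => rfl
  have hB : ∀ g, Bf ((-1) ^ k) φ h m (k + 1) (μ g) (μ g) = Bf ((-1) ^ k) φ h (m + 2) k g g := by
    intro g; rw [Bf_apply, Bf_apply, hμ]; congr 2; ring
  obtain ⟨U', hpos, h3, h4⟩ := posOn_map μ (fun x => (hB x).symm) hU2
  obtain ⟨a, b⟩ := abstract_HR (Bf_symm _ φ h m (k + 1)) hpos (by rw [h3, hU1]; exact h0 m hm)
  have hz : ∀ u ∈ U', Bf ((-1) ^ k) φ h m (k + 1) u ⟨f, hf⟩ = 0 := by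
    intro u hu
    obtain ⟨x, rfl⟩ := h4 u hu
    rw [Bf_apply, hμ]
    have := hprim x.1
    rw [show f * lin h ^ (m + 1) * x.1 = x.1 * lin h * f * lin h ^ m by ring] at this
    simp only
    rw [this, mul_zero]
  constructor
  · have := a _ hz
    rw [Bf_apply] at this
    simp only at this
    rw [pow_succ]; linarith
  · intro e
    have := b _ hz (by rw [Bf_apply]; simp only; rw [e]; simp)
    exact (mem_ker_Bf (neg_one_pow_ne k) hφ hm ⟨f, hf⟩).1 (LinearMap.ext this)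

/-- Hodge-Riemann at a limit point. -/
lemma HRat_of_limit {φ : S V →ₗ[ℝ] ℝ} {d : ℕ} (hφ : InDeg d φ) {C : Set (V → ℝ)}
    (hC : ∀ h' ∈ C, HRsig φ h' d) {h : V → ℝ} (hh : h ∈ closure C) {k : ℕ}
    (hl : ∀ j, j + 1 = k → HLat φ h d j) : HRat φ h d k := by
  have hfr : ∃ᶠ h' in 𝓝 h, h' ∈ C := mem_closure_iff_frequently.1 hh
  cases k with
  | zero =>
    apply HRat_zero hφ
    obtain ⟨h', h1, h2⟩ := (hfr.and_eventually (np_lsc (continuous_Bf (-1) φ d 0) h)).exists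
    have := (hC h' h1).1
    omega
  | succ k =>
    apply HRat_succ hφ
    intro m hm
    have e1 := np_lsc (continuous_Bf ((-1) ^ k) φ m (k + 1)) h
    have e2 := np_locconst (continuous_Bf ((-1) ^ k) φ (m + 2) k)
      (fun x => Bf_symm _ φ x (m + 2) k) h
      (ker_Bf_le (neg_one_pow_ne k) hφ (by omega) (hl k rfl))
    obtain ⟨h', h1, h2, h3⟩ := (hfr.and_eventually (e1.and e2)).exists
    have := (hC h' h1).2 k m hm
    omega

end Pool.Agent.MP_d1780f_co.H86
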