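import Pool.Agent.MP_d1780f_co.H86.Key

/-! The reconstruction theorem in algebraic form. -/

set_option linter.unusedSectionVars false

namespace Pool.Agent.MP_d1780f_co.H86

open Module MvPolynomial Finset

universe u

variable {V : Type u} [Fintype V] [DecidableEq V] {L : Submodule ℝ (V → ℝ)} {d : ℕ}

theorem main_aff (hL : Aff L d) (hv : ∀ v, AFace L {v}) {j n : ℕ} (hd : j + 2 + n = d)
    (hn : j + 2 ≤ n) (hmiss : ∀ σ, ¬ AFace L σ → ∃ μ ⊆ σ, ¬ AFace L μ ∧ μ.card ≤ n + 1)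
    {y : V → ℝ} (hy : Hyp L y (j + 1)) : y ∈ L := by
  classical
  obtain ⟨R, hR, hdec⟩ := dec hL hv hy (by omega)
  obtain ⟨w, hw, -, hw1⟩ := exists_pos_avoid
    (fun p : Cand L y × Cand L y => p.1.1 - p.2.1) (R := 1) one_ne_zero
  have hw2 : ∀ a b : Cand L y, a ≠ b → w ⬝ᵥ (a.1 - b.1) ≠ 0 := fun a b hab =>
    hw1 (a, b) (sub_ne_zero.2 fun e => hab (Subtype.ext e))
  obtain ⟨ω, hg, hω, hωR, hω1⟩ := exists_gen (Th L w) 1 (Sum.elim
    (fun p : Cand L y × Cand L y × Finset V => prj (Th L w) p.2.2 (p.1.1 - p.2.1.1))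
    (fun p : (Cand L y × Cand L y) × (Cand L y × Cand L y) =>
      (w ⬝ᵥ (p.2.1.1 - p.2.2.1)) • (p.1.1.1 - p.1.2.1) -
        (w ⬝ᵥ (p.1.1.1 - p.1.2.1)) • (p.2.1.1 - p.2.2.1))) hR
  obtain ⟨ε, h⟩ := exists_mdl hL (by omega) hw hg
  have hM := h.grMod
  have hlin : ∀ z : V → ℝ, ∑ v, z v • evm L w ω (X v) = evm L w ω (lin z) := fun z => by
    simp [lin_apply]
  -- the operators
  let Ψ : (Mm L w ω (j + 1) × Mm L w ω (j + 1)) →ₗ[ℝ] (Pts L w → ℝ) :=
    (Mm L w ω (j + 1)).subtype ∘ₗ LinearMap.fst ℝ _ _ +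
      LinearMap.mulLeft ℝ (taum L w ω) ∘ₗ (Mm L w ω (j + 1)).subtype ∘ₗ LinearMap.snd ℝ _ _
  have hΨ : ∀ m, Ψ m = m.1.1 + taum L w ω * m.2.1 := fun _ => rfl
  obtain ⟨σ, hσ⟩ := exists_lift
    (LinearMap.mulLeft ℝ (evm L w ω (lin y)) ∘ₗ (Mm L w ω (j + 1)).subtype) Ψ ⊥ (by
      rintro ⟨_, f, hf, rfl⟩
      obtain ⟨m, hm⟩ := hy ((LinearMap.range Ψ).comap (evm L w ω).toLinearMap)
        (fun σ i hσ _ g _ => by simp [h.evm_nonface hσ])
        (fun z hz g hg => ⟨((ω ⬝ᵥ z) • ⟨_, evm_mem hg⟩, (w ⬝ᵥ z) • ⟨_, evm_mem hg⟩), by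
          rw [hΨ]; funext ρ; simp [h.evm_lin hz]; ring⟩) f hf
      exact ⟨m, by simp [hm]⟩)
  obtain ⟨σ0, hσ0⟩ := LinearMap.exists_extend
    ((Mm L w ω (j + 1)).subtype ∘ₗ LinearMap.fst ℝ _ _ ∘ₗ σ)
  obtain ⟨σ1, hσ1⟩ := LinearMap.exists_extend
    ((Mm L w ω (j + 1)).subtype ∘ₗ LinearMap.snd ℝ _ _ ∘ₗ σ)
  have hσ0' : ∀ m (hm : m ∈ Mm L w ω (j + 1)), σ0 m = (σ ⟨m, hm⟩).1.1 := fun m hm =>
    DFunLike.congr_fun hσ0 ⟨m, hm⟩
  have hσ1' : ∀ m (hm : m ∈ Mm L w ω (j + 1)), σ1 m = (σ ⟨m, hm⟩).2.1 := fun m hm =>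
    DFunLike.congr_fun hσ1 ⟨m, hm⟩
  -- the generic set
  let G : Set ℝ := {s | 0 < s ∧ aeval (s • w + ω) R ≠ 0 ∧
    Function.Injective fun a : Cand L y => ω ⬝ᵥ a.1 + s * (w ⬝ᵥ a.1)}
  have hpos : ∀ s ∈ G, ∀ v, 0 < (s • w + ω) v := fun s hs v =>
    add_pos (mul_pos hs.1 (hw v)) (hω v)
  have hG : G.Infinite := by
    let q : Polynomial ℝ := aeval (fun v => Polynomial.X * Polynomial.C (w v) + Polynomial.C (ω v)) R
    have hq : ∀ s, q.eval s = aeval (s • w + ω) R := by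
      intro s
      rw [← Polynomial.coe_aeval_eq_eval, ← AlgHom.comp_apply, comp_aeval]
      congr 2
      funext v; simp [-Polynomial.X_mul_C]
    have hq0 : q ≠ 0 := fun e => hωR (by simpa [e] using (hq 0).symm)
    refine ((Set.Ioi_infinite (0 : ℝ)).sdiff ((Polynomial.finite_setOfPred_isRoot hq0).union
      (Set.finite_range fun p : Cand L y × Cand L y =>
        -(ω ⬝ᵥ (p.1.1 - p.2.1)) / (w ⬝ᵥ (p.1.1 - p.2.1))))).mono fun s hs => ⟨hs.1, ?_, ?_⟩
    · rw [← hq]; exact fun e => hs.2 (Or.inl e)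
    · intro a b e
      by_contra hab
      refine hs.2 (Or.inr ⟨(a, b), ?_⟩)
      simp only at e ⊢
      rw [div_eq_iff (hw2 a b hab), dotProduct_sub, dotProduct_sub]; linarith
  have hb : ∀ (s : ℝ) (m : {m : V →₀ ℕ // m.degree = j + 1}), ∃ b : Cand L y → S V, s ∈ G →
      (∀ a, b a ∈ H V (j + 1)) ∧
      monomial m.1 1 - ∑ a, b a ∈ K (lam L w ω (ε / -et (taum L w ω) s) d) ∧
      ∀ a v, y v ≠ a.1 v → X v * b a ∈ K (lam L w ω (ε / -et (taum L w ω) s) d) := by
    intro s m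
    by_cases hs : s ∈ G
    · obtain ⟨b, hb⟩ := hdec _ (hpos s hs) hs.2.1 _ (h.isDeg_s (hpos s hs)) _
        (isHomogeneous_monomial (1 : ℝ) m.2)
      exact ⟨b, fun _ => hb⟩
    · exact ⟨0, fun h' => absurd h' hs⟩
  choose b hb using hb
  let P : PoleData V (Pts L w) (Cand L y) {m : V →₀ ℕ // m.degree = j + 1} :=
    { ε := ε
      τ := taum L w ω
      M := Mm L w ω
      d := d
      j := j
      hM := hM
      hd := by omega
      x := fun v => evm L w ω (X v)
      hx := fun v => evm_mem (X_memH v)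
      y := y
      a := fun a => a.1
      A0 := fun a => ω ⬝ᵥ a.1
      A1 := fun a => w ⬝ᵥ a.1
      ha := fun a => by rw [hlin, h.evm_lin a.2.1]
      hA1 := fun a b e => by
        by_contra hab
        exact hw2 a b hab (by rw [dotProduct_sub]; exact sub_eq_zero.2 e)
      σ0 := σ0
      σ1 := σ1
      hσ0 := fun m hm => by rw [hσ0' m hm]; exact Subtype.property _
      hσ1 := fun m hm => by rw [hσ1' m hm]; exact Subtype.property _
      hσ := fun m hm => by
        rw [hlin, hσ0' m hm, hσ1' m hm, ← hΨ]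
        exact sub_eq_zero.1 ((Submodule.mem_bot ℝ).1 (hσ ⟨m, hm⟩))
      G := G
      hG := hG
      hGα := fun s hs => hs.2.2
      hHL := fun s hs => h.HL_s (hpos s hs) (by omega)
      hHLi := h.HL_inf (by omega)
      F := fun m => evm L w ω (monomial m.1 1)
      hF := fun m => evm_mem (isHomogeneous_monomial (1 : ℝ) m.2)
      hFs := Submodule.map_le_iff_le_comap.2 (H_le_of_monomial fun m hm =>
        Submodule.subset_span ⟨⟨m, hm⟩, rfl⟩)
      π := fun a m s => evm L w ω (b s m a)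
      hπ1 := fun s hs a m => evm_mem ((hb s m hs).1 a)
      hπ2 := fun s hs m => by
        rw [← map_sum, ← map_sub]
        exact (h.mem_K_s (hpos s hs) (by omega) (Submodule.sub_mem _
          (isHomogeneous_monomial (1 : ℝ) m.2) (Submodule.sum_mem _ fun a _ => (hb s m hs).1 a))).1
          (hb s m hs).2.1
      hπ3 := fun s hs a m v hv => by
        rw [← map_mul]
        exact (h.mem_K_s (hpos s hs) (by omega)
          (mul_memH' (X_memH v) ((hb s m hs).1 a) (by omega))).1 ((hb s m hs).2.2 a v hv)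
      key := by
        intro s k l hkl e
        have hgL : k.1 - l.1 ∈ L := L.sub_mem k.2.1 l.2.1
        have hc := hw2 k l hkl
        have e1 : ω ⬝ᵥ (k.1 - l.1) = -(s * (w ⬝ᵥ (k.1 - l.1))) := by
          rw [dotProduct_sub, dotProduct_sub]; linarith
        have hgc : evm L w ω (lin (k.1 - l.1)) = (w ⬝ᵥ (k.1 - l.1)) • et (taum L w ω) s := by
          funext ρ; rw [h.evm_lin hgL, e1]; simp only [Pi.smul_apply, et, smul_eq_mul]; ring
        refine ⟨fun v => (k.1 - l.1) v ≠ 0, fun k' l' hkl' a1 a2 v hv e' => ?_,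
          fun N hN hx hsym m => ?_⟩
        · have e2 : ω ⬝ᵥ (k'.1 - l'.1) = -(s * (w ⬝ᵥ (k'.1 - l'.1))) := by
            rw [dotProduct_sub, dotProduct_sub]; linarith
          have := hω1 (Sum.inr ((k, l), (k', l')))
          simp only [Sum.elim_inr] at this
          have e3 := not_not.1 (mt this (by
            rw [not_not, dotProduct_sub, dotProduct_smul, dotProduct_smul, e1, e2]
            simp only [smul_eq_mul]; ring))
          have e4 := congrFun e3 v
          simp only [Pi.sub_apply, Pi.smul_apply, smul_eq_mul, Pi.zero_apply, e', sub_self,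
            mul_zero, sub_zero] at e4 hv
          exact mul_ne_zero (hw2 k' l' hkl') hv e4
        · by_cases hs : ∃ ρ, taum L w ω ρ = s
          · obtain ⟨ρ, rfl⟩ := hs
            refine h.key_facet hd hmiss ρ (hN m) fun v hv => hx m v ?_
            have e2 : prj (Th L w) ρ.1 (k.1 - l.1) = 0 := by
              have := hω1 (Sum.inl (k, l, ρ.1))
              simp only [Sum.elim_inl] at this
              refine not_not.1 (mt this ?_)
              rw [not_not, ← (h.bas ρ).bv_dot, ← aeval_lin, ← evm_apply, hgc]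
              simp [et]
            have e3 : ∀ u ∈ ρ.1, (k.1 - l.1) u = 0 := fun u hu => by
              rw [← prj_apply (h.bas ρ).1 (k.1 - l.1) hu, e2]; rfl
            have h1 := h.simple.pt_zv ρ.vtx
            have h2 : w ⬝ᵥ zv (Th L w) 1 ρ.1 = w ⬝ᵥ 1 := by
              have := h1.1.2; rw [dotProduct_sub] at this; linarith
            have e4 := (h.bas ρ).1.eq_zero (h.bas ρ).2 (sub_smul_mem_Th hgL
              (z := zv (Th L w) 1 ρ.1) (by simpa using L.add_mem h1.1.1 hL.one)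
              (by rw [h2]; exact h.cpos.ne')) fun u hu => by
                rw [Pi.sub_apply, e3 u hu, Pi.smul_apply, (h.simple.zv_eq_zero ρ.vtx u).2 hu]; simp
            beta_reduce
            rw [sub_eq_zero.1 e4, Pi.smul_apply, smul_eq_mul, h2]
            exact mul_ne_zero (div_ne_zero hc h.cpos.ne')
              fun e => hv ((h.simple.zv_eq_zero ρ.vtx v).1 e)
          · push Not at hs
            exact h.key_nonfacet hd hn hmiss hs hgL hc hgc hN hx hsym m }
  obtain ⟨ρ₀, -⟩ := h.exists_facet (σ := ∅) ⟨1, hL.one, fun _ => zero_le_one, hL.one_ne, by simp⟩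
  have : Nonempty (Pts L w) := ⟨ρ₀⟩
  obtain ⟨k, hk⟩ := P.main
  have : y = k.1 := funext fun v => hk v fun e => by
    obtain ⟨ρ, hρ⟩ := h.exists_facet (hv v)
    have := h.evm_xs_ne' hρ
    rw [xs_singleton] at this
    exact this (congrFun e ρ)
  rw [this]; exact k.2.1

end Pool.Agent.MP_d1780f_co.H86
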