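import Pool.Agent.MP_d1780f_co.H86.Curve

/-! The spectral projections have no poles along a generic line of origins. -/

set_option linter.unusedSectionVars false

namespace Pool.Agent.MP_d1780f_co.H86

open Polynomial Finset

structure PoleData (V ι κ Ω : Type*) [Fintype V] [Fintype ι] [Fintype κ] where
  ε : ι → ℝ
  τ : ι → ℝ
  M : ℕ → Submodule ℝ (ι → ℝ)
  d : ℕ
  j : ℕ
  hM : GrMod ε τ M d
  hd : 2 * j + 4 ≤ d
  x : V → ι → ℝ
  hx : ∀ v, x v ∈ M 1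
  y : V → ℝ
  a : κ → V → ℝ
  A0 : κ → ℝ
  A1 : κ → ℝ
  ha : ∀ k, ∑ v, a k v • x v = fun ρ => A0 k + τ ρ * A1 k
  hA1 : Function.Injective A1
  σ0 : (ι → ℝ) →ₗ[ℝ] (ι → ℝ)
  σ1 : (ι → ℝ) →ₗ[ℝ] (ι → ℝ)
  hσ0 : ∀ m ∈ M (j + 1), σ0 m ∈ M (j + 1)
  hσ1 : ∀ m ∈ M (j + 1), σ1 m ∈ M (j + 1)
  hσ : ∀ m ∈ M (j + 1), (∑ v, y v • x v) * m = σ0 m + τ * σ1 m
  G : Set ℝ
  hG : G.Infinite
  hGα : ∀ s ∈ G, Function.Injective fun k => A0 k + s * A1 k
  hHL : ∀ s ∈ G, ∀ m ∈ M (j + 1), m ∈ W M τ (j + 1) s → m ∈ W M τ j s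
  hHLi : ∀ m ∈ M (j + 1), τ * m ∈ M (j + 1) → m ∈ M j
  F : Ω → ι → ℝ
  hF : ∀ ω, F ω ∈ M (j + 1)
  hFs : M (j + 1) ≤ Submodule.span ℝ (Set.range F)
  π : κ → Ω → ℝ → ι → ℝ
  hπ1 : ∀ s ∈ G, ∀ k ω, π k ω s ∈ M (j + 1)
  hπ2 : ∀ s ∈ G, ∀ ω, F ω - ∑ k, π k ω s ∈ W M τ j s
  hπ3 : ∀ s ∈ G, ∀ k ω v, y v ≠ a k v → x v * π k ω s ∈ W M τ (j + 1) s
  key : ∀ s k l, k ≠ l → A0 k + s * A1 k = A0 l + s * A1 l → ∃ Z : V → Prop,
    (∀ k' l', k' ≠ l' → A0 k' + s * A1 k' = A0 k + s * A1 k →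
      A0 l' + s * A1 l' = A0 k + s * A1 k → ∀ v, Z v → a k' v ≠ a l' v) ∧
    ∀ N : Ω → ι → ℝ, (∀ ω, N ω ∈ M (j + 1)) → (∀ ω v, Z v → x v * N ω ∈ W M τ (j + 1) s) →
      (∀ ω ω', N ω * F ω' - F ω * N ω' ∈ W M τ (2 * j + 2) s) → ∀ ω, N ω ∈ W M τ j s

namespace PoleData

variable {V ι κ Ω : Type*} [Fintype V] [Fintype ι] [Fintype κ] [DecidableEq ι] [DecidableEq κ]
  (P : PoleData V ι κ Ω)

def α (k : κ) (s : ℝ) : ℝ := P.A0 k + s * P.A1 k

noncomputable def αp (k : κ) : ℝ[X] := C (P.A0 k) + X * C (P.A1 k)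

@[simp] lemma eval_αp (k : κ) (s : ℝ) : (P.αp k).eval s = P.α k s := by
  rw [αp, α, eval_add, eval_mul, eval_C, eval_C, eval_X]

def T (s : ℝ) : (ι → ℝ) →ₗ[ℝ] (ι → ℝ) := P.σ0 + s • P.σ1

noncomputable def Tc (c : ι → ℝ[X]) : ι → ℝ[X] := lc P.σ0 c + (X : ℝ[X]) • lc P.σ1 c

@[simp] lemma evc_Tc (c : ι → ℝ[X]) (s : ℝ) : evc (P.Tc c) s = P.T s (evc c s) := by
  simp [Tc, T]

def Y : ι → ℝ := ∑ v, P.y v • P.x v

lemma Y_mem : P.Y ∈ P.M 1 := Submodule.sum_mem _ fun v _ => Submodule.smul_mem _ _ (P.hx v)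

lemma T_mem (s : ℝ) {m : ι → ℝ} (hm : m ∈ P.M (P.j + 1)) : P.T s m ∈ P.M (P.j + 1) :=
  Submodule.add_mem _ (P.hσ0 m hm) (Submodule.smul_mem _ _ (P.hσ1 m hm))

lemma Y_sub_T (s : ℝ) {m : ι → ℝ} (hm : m ∈ P.M (P.j + 1)) :
    P.Y * m - P.T s m ∈ W P.M P.τ (P.j + 1) s := by
  refine mem_W.2 ⟨P.σ1 m, P.hσ1 m hm, ?_⟩
  rw [Y, P.hσ m hm]
  funext ρ; simp [et, T]; ring

lemma Y_sub_a {U : Submodule ℝ (ι → ℝ)} {m : ι → ℝ} {k : κ}
    (h : ∀ v, P.y v ≠ P.a k v → P.x v * m ∈ U) :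
    P.Y * m - (fun ρ => P.A0 k + P.τ ρ * P.A1 k) * m ∈ U := by
  rw [← P.ha k, Y, ← sub_mul, ← sum_sub_distrib, sum_mul]
  refine U.sum_mem fun v _ => ?_
  rw [← sub_smul, smul_mul_assoc]
  by_cases e : P.y v = P.a k v
  · simp [e]
  · exact U.smul_mem _ (h v e)

lemma eig (s : ℝ) {m : ι → ℝ} (hm : m ∈ P.M (P.j + 1)) {k : κ}
    (h : ∀ v, P.y v ≠ P.a k v → P.x v * m ∈ W P.M P.τ (P.j + 1) s) :
    P.Y * m - P.α k s • m ∈ W P.M P.τ (P.j + 1) s := by
  have h2 : et P.τ s * (P.A1 k • m) ∈ W P.M P.τ (P.j + 1) s :=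
    mem_W.2 ⟨_, Submodule.smul_mem _ _ hm, rfl⟩
  convert Submodule.add_mem _ (P.Y_sub_a h) h2 using 1
  funext ρ; simp [et, α]; ring

lemma eigT {s : ℝ} (hs : s ∈ P.G) {m : ι → ℝ} (hm : m ∈ P.M (P.j + 1)) {k : κ}
    (h : ∀ v, P.y v ≠ P.a k v → P.x v * m ∈ W P.M P.τ (P.j + 1) s) :
    P.T s m - P.α k s • m ∈ W P.M P.τ P.j s := by
  refine P.hHL s hs _ (Submodule.sub_mem _ (P.T_mem s hm) (Submodule.smul_mem _ _ hm)) ?_
  convert Submodule.sub_mem _ (P.eig s hm h) (P.Y_sub_T s hm) using 1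
  abel

lemma presT' {s : ℝ} (hs : s ∈ P.G) {m : ι → ℝ} (hm : m ∈ W P.M P.τ P.j s) :
    P.T s m ∈ W P.M P.τ P.j s := by
  have hm' := P.hM.W_le hm
  refine P.hHL s hs _ (P.T_mem s hm') ?_
  convert Submodule.sub_mem _ (P.hM.mul_W P.Y_mem hm le_rfl) (P.Y_sub_T s hm') using 1
  abel

lemma presT (s : ℝ) {m : ι → ℝ} (hm : m ∈ W P.M P.τ P.j s) : P.T s m ∈ W P.M P.τ P.j s := by
  obtain ⟨m', h1, rfl⟩ := mem_W.1 hm
  have := P.hM.sat_at (k := P.j) (by have := P.hd; omega) P.hG (c := P.Tc (etc P.τ * cst m'))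
    (fun s hs => by simpa using P.presT' hs (mem_W.2 ⟨m', h1, rfl⟩)) s
  simpa using this

lemma sym {s : ℝ} (hs : s ∈ P.G) (k : κ) (ω ω' : Ω) :
    P.π k ω s * P.F ω' - P.F ω * P.π k ω' s ∈ W P.M P.τ (2 * P.j + 2) s := by
  have h1 : ∀ k l ω ω', k ≠ l → P.π k ω s * P.π l ω' s ∈ W P.M P.τ (2 * P.j + 2) s := by
    intro k l ω ω' hkl
    have a := P.hM.W_mul (c := 2 * P.j + 2) (P.eig s (P.hπ1 s hs k ω) (P.hπ3 s hs k ω))
      (P.hπ1 s hs l ω') (by omega)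
    have b := P.hM.mul_W (c := 2 * P.j + 2) (P.hπ1 s hs k ω)
      (P.eig s (P.hπ1 s hs l ω') (P.hπ3 s hs l ω')) (by omega)
    have c : P.α l s - P.α k s ≠ 0 := sub_ne_zero.2 fun e => hkl (P.hGα s hs e).symm
    refine (Submodule.smul_mem_iff _ c).1 ?_
    convert Submodule.sub_mem _ a b using 1
    funext ρ; simp; ring
  have h2 : ∀ ω ω', P.π k ω s * P.F ω' - P.π k ω s * P.π k ω' s ∈ W P.M P.τ (2 * P.j + 2) s := by
    intro ω ω'
    have a := P.hM.mul_W (c := 2 * P.j + 2) (P.hπ1 s hs k ω) (P.hπ2 s hs ω') (by omega)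
    have b : ∑ l ∈ univ.erase k, P.π k ω s * P.π l ω' s ∈ W P.M P.τ (2 * P.j + 2) s :=
      Submodule.sum_mem _ fun l hl => h1 k l ω ω' (ne_of_mem_erase hl).symm
    convert Submodule.add_mem _ a b using 1
    rw [← add_sum_erase _ _ (mem_univ k), ← mul_sum]; ring
  convert Submodule.sub_mem _ (h2 ω ω') (h2 ω' ω) using 1
  ring

/-- a polynomial curve representing `D` times the spectral projection -/
def Rep (D : ℝ[X]) (k : κ) (ω : Ω) (b : ι → ℝ[X]) : Prop :=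
  (∀ s, evc b s ∈ P.M (P.j + 1)) ∧ ∀ s ∈ P.G, evc b s - D.eval s • P.π k ω s ∈ W P.M P.τ P.j s

lemma init : ∃ D : ℝ[X], D.Splits ∧ (∀ s ∈ P.G, D.eval s ≠ 0) ∧ ∀ k ω, ∃ b, P.Rep D k ω b := by
  have key : ∀ ω (T : Finset κ), ∃ c : ι → ℝ[X], (∀ s, evc c s ∈ P.M (P.j + 1)) ∧ ∀ s ∈ P.G,
      evc c s - ∑ l, (∏ t ∈ T, (P.α l s - P.α t s)) • P.π l ω s ∈ W P.M P.τ P.j s := by
    intro ω T
    induction T using Finset.induction_on with
    | empty => exact ⟨cst (P.F ω), by simpa using P.hF ω, by simpa using fun s hs => P.hπ2 s hs ω⟩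
    | insert t T ht ih =>
      obtain ⟨c, h1, h2⟩ := ih
      refine ⟨P.Tc c - P.αp t • c, fun s => ?_, fun s hs => ?_⟩
      · simpa using Submodule.sub_mem _ (P.T_mem s (h1 s)) (Submodule.smul_mem _ _ (h1 s))
      · have a := Submodule.sub_mem _ (P.presT s (h2 s hs))
          (Submodule.smul_mem _ (P.α t s) (h2 s hs))
        have b : ∑ l, (∏ t ∈ T, (P.α l s - P.α t s)) • (P.T s (P.π l ω s) - P.α l s • P.π l ω s)
            ∈ W P.M P.τ P.j s := Submodule.sum_mem _ fun l _ => Submodule.smul_mem _ _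
              (P.eigT hs (P.hπ1 s hs l ω) (P.hπ3 s hs l ω))
        convert Submodule.add_mem _ a b using 1
        simp only [evc_sub, evc_Tc, evc_smul, eval_αp, map_sub, map_sum, map_smul, smul_sub,
          smul_sum, prod_insert ht, sum_sub_distrib, sub_mul, sub_smul, mul_smul]
        simp only [smul_comm (P.α _ s) (∏ t ∈ T, _)]
        abel
  let dk : κ → ℝ[X] := fun k => ∏ l ∈ univ.erase k, (P.αp k - P.αp l)
  refine ⟨∏ k, dk k, Splits.prod fun k _ => Splits.prod fun l _ => Splits.of_natDegree_le_one ?_,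
    fun s hs => ?_, fun k ω => ?_⟩
  · unfold αp; compute_degree
  · simp only [dk, eval_prod, eval_sub, eval_αp]
    exact prod_ne_zero_iff.2 fun k _ => prod_ne_zero_iff.2 fun l hl =>
      sub_ne_zero.2 fun e => ne_of_mem_erase hl (P.hGα s hs e).symm
  · obtain ⟨c, h1, h2⟩ := key ω (univ.erase k)
    refine ⟨(∏ l ∈ univ.erase k, dk l) • c, fun s => ?_, fun s hs => ?_⟩
    · rw [evc_smul]; exact Submodule.smul_mem _ _ (h1 s)
    · have := h2 s hs
      rw [sum_eq_single k (fun l _ hl => by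
        rw [prod_eq_zero (i := l) (by simpa using hl) (sub_self _), zero_smul]) (by simp)] at this
      convert Submodule.smul_mem _ (eval s (∏ l ∈ univ.erase k, dk l)) this using 1
      rw [← mul_prod_erase _ _ (mem_univ k), evc_smul, smul_sub, smul_smul, eval_mul, mul_comm]
      simp [dk, eval_prod]

section
variable {P} {D : ℝ[X]} {k : κ} {ω : Ω} {b : ι → ℝ[X]}

lemma Rep.x_mul (h : P.Rep D k ω b) {v : V} (hv : P.y v ≠ P.a k v) :
    ∀ s ∈ P.G, evc (cst (P.x v) * b) s ∈ W P.M P.τ (P.j + 1) s := by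
  intro s hs
  convert Submodule.add_mem _ (P.hM.mul_W (P.hx v) (h.2 s hs) le_rfl)
    (Submodule.smul_mem _ (D.eval s) (P.hπ3 s hs k ω v hv)) using 1
  simp [mul_sub]

lemma Rep.sym (h : P.Rep D k ω b) {ω' : Ω} {b' : ι → ℝ[X]} (h' : P.Rep D k ω' b') :
    ∀ s ∈ P.G, evc (b * cst (P.F ω') - cst (P.F ω) * b') s ∈ W P.M P.τ (2 * P.j + 2) s := by
  intro s hs
  have a := P.hM.W_mul (c := 2 * P.j + 2) (h.2 s hs) (P.hF ω') (by omega)
  have c := P.hM.mul_W (c := 2 * P.j + 2) (P.hF ω) (h'.2 s hs) (by omega)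
  convert Submodule.add_mem _ (Submodule.sub_mem _ a c)
    (Submodule.smul_mem _ (D.eval s) (P.sym hs k ω ω')) using 1
  funext ρ; simp; ring

lemma Rep.sum {b : κ → ι → ℝ[X]} (h : ∀ k, P.Rep D k ω (b k)) :
    ∀ s ∈ P.G, evc (∑ k, b k - D • cst (P.F ω)) s ∈ W P.M P.τ P.j s := by
  intro s hs
  convert Submodule.sub_mem _ (Submodule.sum_mem _ fun k (_ : k ∈ univ) => (h k).2 s hs)
    (Submodule.smul_mem _ (D.eval s) (P.hπ2 s hs ω)) using 1
  simp [smul_sub, smul_sum]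

lemma Rep.eig (h : P.Rep D k ω b) :
    ∀ s ∈ P.G, evc (P.Tc b - P.αp k • b) s ∈ W P.M P.τ P.j s := by
  intro s hs
  simpa using P.eigT hs (h.1 s) fun v hv => by simpa using h.x_mul hv s hs

end

lemma at_root {D : ℝ[X]} {b : κ → Ω → ι → ℝ[X]} (h : ∀ k ω, P.Rep D k ω (b k ω)) {s : ℝ}
    (hs : D.eval s = 0) (k : κ) (ω : Ω) : evc (b k ω) s ∈ W P.M P.τ P.j s := by
  classical
  have hd := P.hd
  have sep : ∀ ω k, ∑ l ∈ univ.filter (fun l => P.α l s = P.α k s), evc (b l ω) s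
      ∈ W P.M P.τ P.j s := fun ω k =>
    separate (P.T s) _ (fun _ => P.presT s) (fun l => evc (b l ω) s) (fun l => P.α l s)
      (fun l => by simpa using P.hM.sat_at (by omega) P.hG (h l ω).eig s)
      (by simpa [hs] using P.hM.sat_at (by omega) P.hG (Rep.sum fun k => h k ω) s) _
  have hx : ∀ k ω v, P.y v ≠ P.a k v → P.x v * evc (b k ω) s ∈ W P.M P.τ (P.j + 1) s :=
    fun k ω v hv => by simpa using P.hM.sat_at (by omega) P.hG ((h k ω).x_mul hv) s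
  by_cases hl : ∃ l, k ≠ l ∧ P.α k s = P.α l s
  · obtain ⟨l, h1, h2⟩ := hl
    obtain ⟨Z, hZ1, hZ2⟩ := P.key s k l h1 h2
    refine hZ2 (fun ω => evc (b k ω) s) (fun ω => (h k ω).1 s) (fun ω v hv => ?_)
      (fun ω ω' => by simpa using P.hM.sat_at (by omega) P.hG ((h k ω).sym (h k ω')) s) ω
    by_cases e : P.y v = P.a k v
    · have a := P.hM.mul_W (P.hx v) (sep ω k) le_rfl
      rw [← add_sum_erase _ _ (a := k) (by simp), mul_add, mul_sum] at a
      refine (Submodule.add_mem_iff_left _ (Submodule.sum_mem _ fun l' hl' => ?_)).1 a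
      refine hx l' ω v ?_
      rw [e]
      exact hZ1 k l' (ne_of_mem_erase hl').symm rfl (mem_filter.1 (mem_of_mem_erase hl')).2 v hv
    · exact hx k ω v e
  · have := sep ω k
    rwa [sum_eq_single k (fun l hl' hlk => absurd ⟨l, hlk.symm, (mem_filter.1 hl').2.symm⟩ hl)
      (by simp)] at this

lemma divide {D : ℝ[X]} {s : ℝ} (hs : s ∉ P.G) {k : κ} {ω : Ω} {b : ι → ℝ[X]}
    (h : P.Rep ((X - C s) * D) k ω b) (h0 : evc b s ∈ W P.M P.τ P.j s) : ∃ b', P.Rep D k ω b' := by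
  obtain ⟨c, hc, e⟩ := mem_W.1 h0
  have h1 : ∀ ρ, (X - C s) ∣ (b - etc P.τ * cst c) ρ := fun ρ => by
    rw [dvd_iff_isRoot]
    have : evc (b - etc P.τ * cst c) s = 0 := by simp [e]
    exact congrFun this ρ
  choose b' hb' using h1
  have h2 : ∀ t, (t - s) • evc b' t = evc b t - et P.τ t * c := by
    intro t
    have : b - etc P.τ * cst c = (X - C s : ℝ[X]) • b' := funext hb'
    have := congrArg (evc · t) this
    simpa using this.symm
  have h3 : ∀ t, et P.τ t * c ∈ W P.M P.τ P.j t := fun t => mem_W.2 ⟨c, hc, rfl⟩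
  refine ⟨b', P.hM.evc_mem (by have := P.hd; omega) P.hG fun t ht => ?_, fun t ht => ?_⟩
  · refine (Submodule.smul_mem_iff _ (sub_ne_zero.2 (by rintro rfl; exact hs ht : t ≠ s))).1 ?_
    rw [h2]; exact Submodule.sub_mem _ (h.1 t) (P.hM.W_le (h3 t))
  · refine (Submodule.smul_mem_iff _ (sub_ne_zero.2 (by rintro rfl; exact hs ht : t ≠ s))).1 ?_
    rw [smul_sub, h2]
    convert Submodule.sub_mem _ (h.2 t ht) (h3 t) using 1
    simp only [eval_mul, eval_sub, eval_X, eval_C, mul_smul]; abel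

lemma no_pole : ∀ k ω, ∃ b, P.Rep 1 k ω b := by
  have key : ∀ (n : ℕ) (D : ℝ[X]), D.natDegree = n → D.Splits → (∀ s ∈ P.G, D.eval s ≠ 0) →
      (∀ k ω, ∃ b, P.Rep D k ω b) → ∀ k ω, ∃ b, P.Rep 1 k ω b := by
    intro n
    induction n with
    | zero =>
      intro D h0 _ h1 h2 k ω
      obtain ⟨b, hb⟩ := h2 k ω
      obtain ⟨u, rfl⟩ := natDegree_eq_zero.1 h0
      obtain ⟨s, hs⟩ := P.hG.nonempty
      have hu : u ≠ 0 := by simpa using h1 s hs
      refine ⟨(C u⁻¹ : ℝ[X]) • b, fun s => ?_, fun s hs => ?_⟩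
      · rw [evc_smul]; exact Submodule.smul_mem _ _ (hb.1 s)
      · convert Submodule.smul_mem _ u⁻¹ (hb.2 s hs) using 1
        simp [smul_sub, smul_smul, hu]
    | succ n ih =>
      intro D h0 hsp h1 h2
      obtain ⟨s, hs⟩ := hsp.exists_eval_eq_zero (natDegree_pos_iff_degree_pos.1 (by omega)).ne'
      obtain ⟨D', rfl⟩ := dvd_iff_isRoot.2 hs
      have hD' : D' ≠ 0 := by rintro rfl; simp at h0
      choose b hb using h2
      refine ih D' ?_ (splits_X_sub_C_mul_iff.1 hsp)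
        (fun t ht => right_ne_zero_of_mul (by simpa using h1 t ht)) fun k ω => ?_
      · rw [natDegree_mul (X_sub_C_ne_zero _) hD', natDegree_X_sub_C] at h0; omega
      · exact P.divide (fun h => h1 s h hs) (hb k ω) (P.at_root hb hs k ω)
  obtain ⟨D, a, b, c⟩ := P.init
  exact key _ D rfl a b c

lemma no_pole_inf (ω : Ω) : ∃ b : κ → ι → ℝ, ∀ k, P.Rep 1 k ω (cst (b k)) := by
  classical
  have hd := P.hd
  have key : ∀ (m : ℕ) (b : κ → ι → ℝ[X]), (∀ k ρ, (b k ρ).natDegree ≤ m) →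
      (∀ k, P.Rep 1 k ω (b k)) → ∃ b : κ → ι → ℝ, ∀ k, P.Rep 1 k ω (cst (b k)) := by
    intro m
    induction m with
    | zero =>
      intro b h1 h2
      refine ⟨fun k ρ => (b k ρ).coeff 0, fun k => ?_⟩
      convert h2 k using 1
      funext ρ
      exact (eq_C_of_natDegree_eq_zero (Nat.le_zero.1 (h1 k ρ))).symm
    | succ m ih =>
      intro b h1 h2
      let β : κ → ι → ℝ := fun k ρ => (b k ρ).coeff (m + 1)
      have hβ1 : ∀ k, β k ∈ P.M (P.j + 1) := fun k => P.hM.coeff_mem (by omega) (h2 k).1 _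
      have hβ2 : ∑ k, β k ∈ P.M P.j := by
        convert P.hM.sat_coeff (by omega) P.hG (Rep.sum h2) (m := m) (fun ρ => ?_) using 1
        · funext ρ; simp [β, cst]
        · simp only [Pi.sub_apply, Finset.sum_apply, one_smul, cst]
          refine (natDegree_sub_le _ _).trans (max_le ?_ (by simp))
          exact natDegree_sum_le_of_forall_le _ _ fun k _ => h1 k ρ
      have hβ3 : ∀ k v, P.y v ≠ P.a k v → P.x v * β k ∈ P.M (P.j + 1) := by
        intro k v hv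
        convert P.hM.sat_coeff (by omega) P.hG ((h2 k).x_mul hv) (m := m) (fun ρ => ?_) using 1
        · funext ρ; simp [β, cst]
        · exact (natDegree_C_mul_le _ _).trans (h1 k ρ)
      have hpres : ∀ m ∈ P.M P.j, P.σ1 m ∈ P.M P.j := by
        intro m hm
        have hm' := P.hM.succ_mem hm
        refine P.hHLi _ (P.hσ1 m hm') ?_
        have := Submodule.sub_mem _ (P.hM.mul_mem P.Y_mem hm (add_comm _ _)) (P.hσ0 m hm')
        rwa [Y, P.hσ m hm', add_sub_cancel_left] at this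
      have heig : ∀ k, P.σ1 (β k) - P.A1 k • β k ∈ P.M P.j := by
        intro k
        refine P.hHLi _ (Submodule.sub_mem _ (P.hσ1 _ (hβ1 k))
          (Submodule.smul_mem _ _ (hβ1 k))) ?_
        have := Submodule.sub_mem _ (Submodule.add_mem _ (P.Y_sub_a (hβ3 k))
          (Submodule.smul_mem _ (P.A0 k) (hβ1 k))) (P.hσ0 _ (hβ1 k))
        convert this using 1
        rw [Y, P.hσ _ (hβ1 k)]
        funext ρ; simp; ring
      have hβ : ∀ k, β k ∈ P.M P.j := by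
        intro k
        have := separate P.σ1 _ hpres β P.A1 heig hβ2 (P.A1 k)
        rwa [sum_eq_single k (fun l hl hlk => absurd (P.hA1 (mem_filter.1 hl).2) hlk)
          (by simp)] at this
      have hW : ∀ k s, evc ((X ^ m : ℝ[X]) • (etc P.τ * cst (β k))) s ∈ W P.M P.τ P.j s :=
        fun k s => by simpa using Submodule.smul_mem _ _ (mem_W.2 ⟨_, hβ k, rfl⟩)
      refine ih (fun k => b k + (X ^ m : ℝ[X]) • (etc P.τ * cst (β k))) (fun k ρ => ?_) fun k =>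
        ⟨fun s => ?_, fun s hs => ?_⟩
      · rw [natDegree_le_iff_coeff_eq_zero]
        intro N hN
        have e : (b k + (X ^ m : ℝ[X]) • (etc P.τ * cst (β k))) ρ =
            b k ρ + C (P.τ ρ * β k ρ) * X ^ m - C (β k ρ) * X ^ (m + 1) := by
          simp [etc, cst]; ring
        rw [e, coeff_sub, coeff_add, coeff_C_mul_X_pow, coeff_C_mul_X_pow, if_neg (by omega)]
        split_ifs with hN'
        · subst hN'; simp [β]
        · simpa using coeff_eq_zero_of_natDegree_lt (by have := h1 k ρ; omega)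
      · rw [evc_add]; exact Submodule.add_mem _ ((h2 k).1 s) (P.hM.W_le (hW k s))
      · rw [evc_add, add_sub_right_comm]; exact Submodule.add_mem _ ((h2 k).2 s hs) (hW k s)
  choose b hb using fun k => P.no_pole k ω
  obtain ⟨m, hm⟩ := (Set.finite_range fun p : κ × ι => (b p.1 p.2).natDegree).bddAbove
  exact key m b (fun k ρ => hm ⟨(k, ρ), rfl⟩) hb

theorem main [Nonempty ι] : ∃ k, ∀ v, P.x v ≠ 0 → P.y v = P.a k v := by
  have hd := P.hd
  choose b hb using P.no_pole_inf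
  have h1 : ∀ k ω ω', b ω k * P.F ω' = P.F ω * b ω' k := fun k ω ω' =>
    sub_eq_zero.1 (P.hM.sat_const (k := 2 * P.j + 2) (by omega) P.hG
      (by simpa using (hb ω k).sym (hb ω' k)))
  have h2 : ∀ ω, ∑ k, b ω k = P.F ω := fun ω =>
    sub_eq_zero.1 (P.hM.sat_const (k := P.j) (by omega) P.hG (by simpa using Rep.sum (hb ω)))
  have h3 : ∀ k ω v, P.y v ≠ P.a k v → P.x v * b ω k = 0 := fun k ω v hv =>
    P.hM.sat_const (k := P.j + 1) (by omega) P.hG (by simpa using (hb ω k).x_mul hv)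
  obtain ⟨c, hc⟩ := Finsupp.mem_span_range_iff_exists_finsupp.1 (P.hFs (P.hM.one (P.j + 1)))
  let e : κ → ι → ℝ := fun k => ∑ ω ∈ c.support, c ω • b ω k
  have h4 : ∀ k ω, e k * P.F ω = b ω k := by
    intro k ω
    simp only [e, sum_mul, smul_mul_assoc, h1]
    conv_rhs => rw [← one_mul (b ω k), ← hc, Finsupp.sum, sum_mul]
    simp
  have h5 : ∀ k, ∃ c : ℝ, e k = c • 1 := by
    intro k
    refine P.hM.const_of_mul (k := P.j + 1) (by omega) fun x hx => ?_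
    refine (P.hFs.trans (Submodule.span_le (p := (P.M (P.j + 1)).comap
      (LinearMap.mulLeft ℝ (e k))).2 ?_)) hx
    rintro _ ⟨ω, rfl⟩
    change e k * P.F ω ∈ P.M (P.j + 1)
    rw [h4]; simpa using (hb ω k).1 0
  have h6 : ∑ k, e k = 1 := by
    rw [sum_comm, ← hc, Finsupp.sum]
    exact sum_congr rfl fun ω _ => by rw [← smul_sum, h2]
  obtain ⟨k, -, hk⟩ := exists_ne_zero_of_sum_ne_zero (by rw [h6]; exact one_ne_zero)
  obtain ⟨u, hu⟩ := h5 k
  refine ⟨k, fun v hv => ?_⟩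
  by_contra hne
  have : P.x v * e k = 0 := by
    simp only [e, mul_sum, mul_smul_comm, h3 k _ v hne, smul_zero, sum_const_zero]
  rw [hu, mul_smul_comm, mul_one, smul_eq_zero] at this
  rcases this with h | h
  · exact hk (by rw [hu, h, zero_smul])
  · exact hv h

end PoleData

end Pool.Agent.MP_d1780f_co.H86
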