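import Pool.Agent.MP_d1780f_co.H86.Dec
import Pool.Agent.MP_d1780f_co.H86.Pole

/-! The face ring modulo a codimension two space of affine functions, as functions on facets. -/

set_option linter.unusedSectionVars false

namespace Pool.Agent.MP_d1780f_co.H86

open Module MvPolynomial Finset

universe u

lemma card_le_finrank_of_triangular {ι : Type*} [Fintype ι] [DecidableEq ι] (u : ι → ι → ℝ)
    (t : ι → ℝ) (ht : Function.Injective t) (h1 : ∀ ρ, u ρ ρ ≠ 0)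
    (h2 : ∀ ρ ρ', u ρ ρ' ≠ 0 → t ρ ≤ t ρ') (p : ι → Prop) [DecidablePred p]
    (U : Submodule ℝ (ι → ℝ)) (hU : ∀ ρ, p ρ → u ρ ∈ U) :
    (univ.filter p).card ≤ finrank ℝ U := by
  have hli : LinearIndependent ℝ u := by
    rw [Fintype.linearIndependent_iff]
    intro g hg
    by_contra hcon
    push Not at hcon
    obtain ⟨ρ, hρ, hmin⟩ := exists_min_image (univ.filter fun ρ => g ρ ≠ 0) t
      (by obtain ⟨ρ, a⟩ := hcon; exact ⟨ρ, by simpa using a⟩)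
    have := congrFun hg ρ
    rw [Finset.sum_apply, sum_eq_single ρ] at this
    · exact mul_ne_zero (mem_filter.1 hρ).2 (h1 ρ) this
    · intro ρ' _ hne
      by_contra h0
      have h0' : g ρ' * u ρ' ρ ≠ 0 := h0
      exact hne (ht (le_antisymm (h2 _ _ (right_ne_zero_of_mul h0'))
        (hmin ρ' (by simpa using left_ne_zero_of_mul h0'))))
    · simp
  have := finrank_span_eq_card (hli.comp (Subtype.val : {ρ // p ρ} → ι) Subtype.val_injective)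
  rw [← Fintype.card_subtype, ← this]
  refine Submodule.finrank_mono (Submodule.span_le.2 ?_)
  rintro _ ⟨ρ, rfl⟩; exact hU ρ.1 ρ.2

lemma mem_iff_orth {ι : Type*} [Fintype ι] [DecidableEq ι] {ε : ι → ℝ} (hε : ∀ ρ, ε ρ ≠ 0)
    {A B : Submodule ℝ (ι → ℝ)} (h1 : ∀ x ∈ A, ∀ y ∈ B, ∑ ρ, ε ρ * x ρ * y ρ = 0)
    (h2 : Fintype.card ι ≤ finrank ℝ A + finrank ℝ B) (x : ι → ℝ) :
    x ∈ A ↔ ∀ y ∈ B, ∑ ρ, ε ρ * x ρ * y ρ = 0 := by
  let Q : LinearMap.BilinForm ℝ (ι → ℝ) := LinearMap.mk₂ ℝ (fun y x => ∑ ρ, ε ρ * x ρ * y ρ)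
    (fun a b c => by simp [mul_add, sum_add_distrib])
    (fun c a b => by simp [mul_sum]; exact sum_congr rfl fun _ _ => by ring)
    (fun a b c => by simp [mul_add, add_mul, sum_add_distrib])
    (fun c a b => by simp [mul_sum]; exact sum_congr rfl fun _ _ => by ring)
  have hQ : ∀ y x, Q y x = ∑ ρ, ε ρ * x ρ * y ρ := fun _ _ => rfl
  have hnd : Q.Nondegenerate := by
    constructor
    · intro y hy; funext ρ
      simpa [hQ, Pi.single_apply, hε ρ] using hy (Pi.single ρ 1)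
    · intro y hy; funext ρ
      simpa [hQ, Pi.single_apply, hε ρ] using hy (Pi.single ρ 1)
  have h3 : A = Q.orthogonal B := by
    refine Submodule.eq_of_le_of_finrank_le (fun x hx y hy => h1 x hx y hy) ?_
    rw [LinearMap.BilinForm.finrank_orthogonal hnd, finrank_fintype_fun_eq_card]
    omega
  rw [h3]; rfl

variable {V : Type u} [Fintype V] [DecidableEq V]

abbrev Pts (L : Submodule ℝ (V → ℝ)) (w : V → ℝ) := ↥(Vs (Th L w) 1)

noncomputable def evm (L : Submodule ℝ (V → ℝ)) (w ω : V → ℝ) : S V →ₐ[ℝ] (Pts L w → ℝ) :=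
  aeval fun v ρ => bv (Th L w) ω ρ.1 v

noncomputable def Mm (L : Submodule ℝ (V → ℝ)) (w ω : V → ℝ) (k : ℕ) :
    Submodule ℝ (Pts L w → ℝ) := (H V k).map (evm L w ω).toLinearMap

noncomputable def taum (L : Submodule ℝ (V → ℝ)) (w ω : V → ℝ) : Pts L w → ℝ :=
  fun ρ => -ht (Th L w) 1 ω ρ.1 / (w ⬝ᵥ 1)

noncomputable def lam (L : Submodule ℝ (V → ℝ)) (w ω : V → ℝ) (u : Pts L w → ℝ) (k : ℕ) :
    S V →ₗ[ℝ] ℝ := ∑ ρ, u ρ • evd k (bv (Th L w) ω ρ.1)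

variable {L : Submodule ℝ (V → ℝ)} {d : ℕ} {w ω : V → ℝ}

lemma evm_apply (f : S V) (ρ : Pts L w) : evm L w ω f ρ = aeval (bv (Th L w) ω ρ.1) f := by
  have : (Pi.evalAlgHom ℝ (fun _ : Pts L w => ℝ) ρ).comp (evm L w ω) =
      aeval (bv (Th L w) ω ρ.1) := by
    ext v; simp [evm]
  exact DFunLike.congr_fun this f

lemma evm_mem {k : ℕ} {f : S V} (hf : f ∈ H V k) : evm L w ω f ∈ Mm L w ω k := ⟨f, hf, rfl⟩

lemma lam_apply (u : Pts L w → ℝ) {k : ℕ} {f : S V} (hf : f ∈ H V k) :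
    lam L w ω u k f = ∑ ρ, u ρ * evm L w ω f ρ := by
  simp [lam, evd_of_mem _ hf, evm_apply]

lemma inDeg_lam (u : Pts L w → ℝ) (k : ℕ) : InDeg k (lam L w ω u k) := fun j f hf hj => by
  simp [lam, evd_of_ne _ hf hj]

lemma evm_xs_ne {σ : Finset V} {ρ : Pts L w} (h : evm L w ω (xs σ) ρ ≠ 0) : σ ⊆ ρ.1 := by
  intro v hv
  by_contra hv'
  rw [evm_apply, aeval_xs] at h
  exact h (prod_eq_zero hv (bv_of_notMem hv'))

lemma mem_K_lam {u : Pts L w → ℝ} {k a : ℕ} {f : S V} (hf : f ∈ H V a) (h : evm L w ω f = 0) :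
    f ∈ K (lam L w ω u k) :=
  mem_K_of_homog (inDeg_lam u k) hf fun m hm g hg => by
    rw [lam_apply _ (mul_memH' hf hg hm), map_mul, h]; simp

structure Mdl (L : Submodule ℝ (V → ℝ)) (d : ℕ) (w ω : V → ℝ) (ε : Pts L w → ℝ) : Prop where
  hL : Aff L d
  hd : 0 < d
  hw : ∀ v, 0 < w v
  hg : Gen (Th L w) 1 ω
  eps : ∀ ρ, ε ρ ≠ 0
  pos : ∀ ρ, 0 < ε ρ * evm L w ω (xs ρ.1) ρ
  orth : ∀ j, j + 1 = d → ∀ g ∈ H V j, ∑ ρ, ε ρ * evm L w ω g ρ = 0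

lemma Pts.vtx (ρ : Pts L w) : Vtx (Th L w) 1 ρ.1 := mem_Vs.1 ρ.2

lemma evm_xs_facet {ρ ρ' : Pts L w} (h : ρ' ≠ ρ) : evm L w ω (xs ρ.1) ρ' = 0 := by
  by_contra h0
  exact h (Subtype.ext (eq_of_subset_of_card_le (evm_xs_ne h0)
    (by rw [ρ.vtx.2, ρ'.vtx.2])).symm)

lemma exists_mdl (hL : Aff L d) (hd : 0 < d) (hw : ∀ v, 0 < w v) (hg : Gen (Th L w) 1 ω) :
    ∃ ε, Mdl L d w ω ε := by
  obtain ⟨ε, a, b, c⟩ := exists_brion (bdd_Th hw) (hL.simple_Th hw) hg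
  refine ⟨fun ρ => ε ρ.1, hL, hd, hw, hg, fun ρ => a _, fun ρ => ?_, fun j hj g hg' => ?_⟩
  · have := b.pos ρ.1 ρ.vtx.1 ρ.vtx.2
    rw [Brion, ← sum_coe_sort, LinearMap.sum_apply, sum_eq_single ρ] at this
    · rwa [LinearMap.smul_apply, evd_of_mem _ (ρ.vtx.2 ▸ xs_mem ρ.1), ← evm_apply] at this
    · intro ρ' _ hne
      rw [LinearMap.smul_apply, evd_of_mem _ (ρ.vtx.2 ▸ xs_mem ρ.1), ← evm_apply,
        evm_xs_facet hne, smul_zero]
    · simp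
  · have := c j (by rw [hL.finrank_Th hw, hj]) g hg'
    rw [← sum_coe_sort] at this
    simpa only [evm_apply] using this

namespace Mdl

variable {ε : Pts L w → ℝ} (h : Mdl L d w ω ε)
include h

lemma simple : Simple (Th L w) 1 := h.hL.simple_Th h.hw

lemma bas (ρ : Pts L w) : IsBas (Th L w) ρ.1 := h.simple.isBas ρ.vtx

lemma card (ρ : Pts L w) : ρ.1.card = d := by rw [ρ.vtx.2, h.hL.finrank_Th h.hw]

lemma face (ρ : Pts L w) : AFace L ρ.1 := by rw [← h.hL.face_Th h.hw]; exact ρ.vtx.1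

lemma cpos : 0 < w ⬝ᵥ 1 := h.hL.dot_one_pos h.hw

lemma exists_facet {σ : Finset V} (hσ : AFace L σ) : ∃ ρ : Pts L w, σ ⊆ ρ.1 := by
  rw [← h.hL.face_Th h.hw] at hσ
  obtain ⟨ρ, a, b, -⟩ := exists_bot (bdd_Th h.hw) h.simple h.hg hσ
  exact ⟨⟨ρ, mem_Vs.2 a⟩, b⟩

lemma eq_facet {σ : Finset V} (hσ : AFace L σ) (hc : σ.card = d) : ∃ ρ : Pts L w, ρ.1 = σ := by
  obtain ⟨ρ, a⟩ := h.exists_facet hσ
  exact ⟨ρ, (eq_of_subset_of_card_le a (by rw [h.card, hc])).symm⟩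

lemma evm_lin {z : V → ℝ} (hz : z ∈ L) :
    evm L w ω (lin z) = fun ρ => ω ⬝ᵥ z + taum L w ω ρ * (w ⬝ᵥ z) := by
  funext ρ
  have hc := h.cpos
  have e1 := (h.bas ρ).bv_dot_theta ω (sub_smul_mem_Th hz h.hL.one hc.ne')
  have e2 := (h.bas ρ).ht_eq (h := 1) ω (z := 1) (by simp)
  rw [evm_apply, aeval_lin, taum]
  simp only [dotProduct_sub, dotProduct_smul, smul_eq_mul] at e1
  rw [← e2] at e1
  have : bv (Th L w) ω ρ.1 ⬝ᵥ z = ω ⬝ᵥ z - (w ⬝ᵥ z) / (w ⬝ᵥ 1) * ht (Th L w) 1 ω ρ.1 := by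
    linarith
  rw [this]; ring

lemma evm_nonface {σ : Finset V} (hσ : ¬ AFace L σ) : evm L w ω (xs σ) = 0 := by
  funext ρ
  by_contra h0
  exact hσ ((h.face ρ).mono (evm_xs_ne h0))

lemma evm_xs_ne' {σ : Finset V} {ρ : Pts L w} (hσ : σ ⊆ ρ.1) : evm L w ω (xs σ) ρ ≠ 0 := by
  rw [evm_apply, aeval_xs]
  exact prod_ne_zero_iff.2 fun v hv => h.hg.bv_ne (h.bas ρ) (hσ hv)

lemma one1 : (1 : Pts L w → ℝ) ∈ Mm L w ω 1 := by
  have h1 : Th L w ≠ ⊥ := by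
    intro e; have := h.hL.finrank_Th h.hw; rw [e] at this; simp at this; have := h.hd; omega
  obtain ⟨θ, a, b⟩ := (Submodule.ne_bot_iff _).1 h1
  obtain ⟨θ', a', -, b'⟩ := h.hg.1 ∅ ⟨θ, a, b, by simp⟩
  have := (Mm L w ω 1).smul_mem (ω ⬝ᵥ θ')⁻¹ (evm_mem (lin_mem θ'))
  convert this using 1
  funext ρ; simp [h.evm_lin a'.1, a'.2, b']

lemma grMod : GrMod ε (taum L w ω) (Mm L w ω) d := by
  have hmul : ∀ a b, Mm L w ω (a + b) = Mm L w ω a * Mm L w ω b := fun a b => by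
    simp only [Mm, H_add, Submodule.map_mul]
  have hmono : ∀ a b, a ≤ b → Mm L w ω a ≤ Mm L w ω b := by
    intro a b hab
    induction hab with
    | refl => exact le_rfl
    | step _ ih =>
      refine ih.trans fun x hx => ?_
      rw [Nat.succ_eq_add_one, hmul]; simpa using Submodule.mul_mem_mul hx h.one1
  have hinj : Function.Injective fun ρ : Pts L w => ht (Th L w) 1 ω ρ.1 := fun ρ ρ' e =>
    Subtype.ext (h.hg.ht_inj h.simple ρ.vtx ρ'.vtx e)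
  refine ⟨h.eps, fun ρ ρ' e => hinj ?_, fun a b hab => mem_iff_orth h.eps ?_ ?_,
    by simpa using evm_mem (L := L) (w := w) (ω := ω) one_memH, h.one1, ?_, hmul, ?_⟩
  · simpa [taum, h.cpos.ne'] using e
  · rintro _ ⟨f, hf, rfl⟩ _ ⟨g, hg, rfl⟩
    simpa [mul_assoc] using h.orth _ hab _ (mul_memH hf hg)
  · have e1 := card_le_finrank_of_triangular (fun ρ => evm L w ω (xs (Down (Th L w) ω ρ.1))) _ hinj
      (fun ρ => h.evm_xs_ne' Down_subset) (fun ρ ρ' e => h.simple.ht_le ρ.vtx ρ'.vtx (evm_xs_ne e))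
      (fun ρ => (Down (Th L w) ω ρ.1).card ≤ a) _ fun ρ hρ => hmono _ _ hρ (evm_mem (xs_mem _))
    have e2 := card_le_finrank_of_triangular (fun ρ => evm L w ω (xs (Up (Th L w) ω ρ.1)))
      (fun ρ => -ht (Th L w) 1 ω ρ.1) (fun ρ ρ' e => hinj (neg_injective e))
      (fun ρ => h.evm_xs_ne' Up_subset)
      (fun ρ ρ' e => neg_le_neg (h.simple.le_ht ρ.vtx ρ'.vtx (evm_xs_ne e)))
      (fun ρ => ¬ (Down (Th L w) ω ρ.1).card ≤ a) (Mm L w ω b) fun ρ hρ =>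
        hmono _ _ (by
          have := h.hg.card_Down_add (h.bas ρ)
          rw [h.hL.finrank_Th h.hw] at this; omega) (evm_mem (xs_mem _))
    have e3 := card_filter_add_card_filter_not (s := (univ : Finset (Pts L w)))
      (fun ρ => (Down (Th L w) ω ρ.1).card ≤ a)
    rw [card_univ] at e3
    omega
  · have := (Mm L w ω 1).smul_mem (w ⬝ᵥ 1)⁻¹ ((Mm L w ω 1).sub_mem (evm_mem (lin_mem 1))
      ((Mm L w ω 1).smul_mem (ω ⬝ᵥ 1) h.one1))
    convert this using 1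
    funext ρ; simp [h.evm_lin h.hL.one]; field_simp [h.cpos.ne']
  · rintro _ ⟨f, hf, rfl⟩
    obtain ⟨c, rfl⟩ := H_zero_eq hf
    exact ⟨c, by simp⟩

lemma mem_K_iff {η : Pts L w → ℝ} {k : ℕ} (hk : k + 1 ≤ d) {f : S V} (hf : f ∈ H V (k + 1)) :
    f ∈ K (lam L w ω (ε / η) d) ↔ evm L w ω f / η ∈ Mm L w ω k := by
  rw [h.grMod.dual k (d - k - 1) (by omega)]
  have e : ∀ g ∈ H V (d - k - 1), lam L w ω (ε / η) d (f * g) =
      ∑ ρ, ε ρ * (evm L w ω f / η) ρ * evm L w ω g ρ := by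
    intro g hg
    rw [lam_apply _ (mul_memH' hf hg (by omega))]
    exact sum_congr rfl fun ρ _ => by simp; ring
  constructor
  · rintro H' _ ⟨g, hg, rfl⟩
    exact (e g hg).symm.trans (H' g)
  · intro H'
    refine mem_K_of_homog (inDeg_lam _ _) hf fun m hm g hg => ?_
    obtain rfl : m = d - k - 1 := by omega
    rw [e g hg]; exact H' _ (evm_mem hg)

lemma isDeg {η : Pts L w → ℝ} (hη : ∀ ρ, 0 < η ρ) {w' : V → ℝ}
    (hw' : ∀ z ∈ Th L w', ∃ c : ℝ, evm L w ω (lin z) = c • η) :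
    IsDeg (Th L w') (AFace L) d (lam L w ω (ε / η) d) := by
  refine ⟨inDeg_lam _ _, fun σ hσ => mem_K_lam (xs_mem σ) (h.evm_nonface hσ), fun θ hθ => ?_,
    fun σ hσ hc => ?_⟩
  · obtain ⟨c, hc⟩ := hw' θ hθ
    rw [h.mem_K_iff (k := 0) h.hd (lin_mem θ), hc]
    convert (Mm L w ω 0).smul_mem c h.grMod.one0 using 1
    funext ρ; simp [(hη ρ).ne']
  · obtain ⟨ρ, rfl⟩ := h.eq_facet hσ hc
    rw [lam_apply _ (hc ▸ xs_mem _), sum_eq_single ρ (fun ρ' _ e => by simp [evm_xs_facet e])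
      (by simp)]
    have := div_pos (h.pos ρ) (hη ρ)
    simp only [Pi.div_apply]
    rwa [div_mul_eq_mul_div]

lemma isDeg_inf : IsDeg (Th L w) (AFace L) d (lam L w ω (ε / 1) d) :=
  h.isDeg (fun _ => one_pos) fun z hz => ⟨ω ⬝ᵥ z, by funext ρ; simp [h.evm_lin hz.1, hz.2]⟩

lemma tau_lt {s : ℝ} (hs : ∀ v, 0 < (s • w + ω) v) (ρ : Pts L w) : taum L w ω ρ < s := by
  have h1 := h.simple.pt_zv ρ.vtx
  have h2 : w ⬝ᵥ zv (Th L w) 1 ρ.1 = w ⬝ᵥ 1 := by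
    have := h1.1.2; rw [dotProduct_sub] at this; linarith
  have h3 := dot_pos hs h1.2 (by
    intro e; rw [e] at h2; simp at h2; exact h.cpos.ne h2)
  rw [add_dotProduct, smul_dotProduct, h2, smul_eq_mul] at h3
  rw [taum, div_lt_iff₀ h.cpos, ht]; linarith

lemma isDeg_s {s : ℝ} (hs : ∀ v, 0 < (s • w + ω) v) :
    IsDeg (Th L (s • w + ω)) (AFace L) d (lam L w ω (ε / -et (taum L w ω) s) d) :=
  h.isDeg (fun ρ => by simpa [et] using h.tau_lt hs ρ) fun z hz => ⟨-(w ⬝ᵥ z), by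
    have := hz.2
    rw [add_dotProduct, smul_dotProduct, smul_eq_mul] at this
    funext ρ; simp [h.evm_lin hz.1, et]; linarith⟩

omit h in
lemma div_mem_iff {s : ℝ} (hs : ∀ ρ, taum L w ω ρ ≠ s) {k : ℕ} (x : Pts L w → ℝ) :
    x / et (taum L w ω) s ∈ Mm L w ω k ↔ x ∈ W (Mm L w ω) (taum L w ω) k s := by
  have : ∀ ρ, et (taum L w ω) s ρ ≠ 0 := fun ρ => sub_ne_zero.2 (hs ρ)
  constructor
  · intro H'
    exact mem_W.2 ⟨_, H', by funext ρ; simp; field_simp [this ρ]⟩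
  · intro H'
    obtain ⟨m, hm, rfl⟩ := mem_W.1 H'
    convert hm using 1
    funext ρ; simp [this ρ]

lemma mem_K_s {s : ℝ} (hs : ∀ v, 0 < (s • w + ω) v) {k : ℕ} (hk : k + 1 ≤ d) {f : S V}
    (hf : f ∈ H V (k + 1)) : f ∈ K (lam L w ω (ε / -et (taum L w ω) s) d) ↔
      evm L w ω f ∈ W (Mm L w ω) (taum L w ω) k s := by
  rw [h.mem_K_iff hk hf, ← div_mem_iff fun ρ => (h.tau_lt hs ρ).ne, ← Submodule.neg_mem_iff]
  congr! 1
  funext ρ; simp [div_neg]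

lemma HL_s {s : ℝ} (hs : ∀ v, 0 < (s • w + ω) v) {j : ℕ} (hj : 2 * j + 4 ≤ d) :
    ∀ m ∈ Mm L w ω (j + 1), m ∈ W (Mm L w ω) (taum L w ω) (j + 1) s →
      m ∈ W (Mm L w ω) (taum L w ω) j s := by
  rintro _ ⟨f, hf, rfl⟩ hm
  refine (h.mem_K_s hs (by omega) hf).1 (lefschetz_inj (bdd_Th hs) (h.hL.simple_Th hs)
    (by rw [h.hL.face_Th hs, h.hL.finrank_Th hs]; exact h.isDeg_s hs) (k := j + 1)
    (by rw [h.hL.finrank_Th hs]; omega) hf ?_)
  rw [h.mem_K_s hs (k := j + 1) (by omega) (mul_memH' (lin_mem 1) hf (by omega)), map_mul]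
  have a := Submodule.add_mem _ (Submodule.smul_mem _ (ω ⬝ᵥ 1 + s * (w ⬝ᵥ 1)) hm)
    (mem_W.2 ⟨_, Submodule.smul_mem _ (w ⬝ᵥ 1) (evm_mem (L := L) (w := w) (ω := ω) hf), rfl⟩)
  convert a using 1
  funext ρ; simp [h.evm_lin h.hL.one, et]; ring

lemma HL_inf {j : ℕ} (hj : 2 * j + 4 ≤ d) :
    ∀ m ∈ Mm L w ω (j + 1), taum L w ω * m ∈ Mm L w ω (j + 1) → m ∈ Mm L w ω j := by
  rintro _ ⟨f, hf, rfl⟩ hm
  have := (h.mem_K_iff (by omega) hf).1 (lefschetz_inj (bdd_Th h.hw) h.simple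
    (by rw [h.hL.face_Th h.hw, h.hL.finrank_Th h.hw]; exact h.isDeg_inf) (k := j + 1)
    (by rw [h.hL.finrank_Th h.hw]; omega) hf ?_)
  · simpa using this
  rw [h.mem_K_iff (k := j + 1) (by omega) (mul_memH' (lin_mem 1) hf (by omega)), map_mul]
  have a := Submodule.add_mem _ (Submodule.smul_mem _ (w ⬝ᵥ 1) hm)
    (Submodule.smul_mem _ (ω ⬝ᵥ 1) (evm_mem (L := L) (w := w) (ω := ω) hf))
  convert a using 1
  funext ρ; simp [h.evm_lin h.hL.one]; ring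

end Mdl

end Pool.Agent.MP_d1780f_co.H86
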