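import Pool.Agent.MP_d1780f_co.H86.Geom

/-! Morse data of a generic linear functional on a simple polytope. -/

set_option linter.unusedSectionVars false

namespace Pool.Agent.MP_d1780f_co.H86

open Module MvPolynomial Finset Filter Topology

universe u

variable {V : Type u} [Fintype V] [DecidableEq V]

open Classical in
noncomputable def prj (Θ : Submodule ℝ (V → ℝ)) (ρ : Finset V) (a : V → ℝ) : V → ℝ :=
  if h : ∃ θ ∈ Θ, ∀ v ∈ ρ, θ v = a v then h.choose else 0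

noncomputable def zv (Θ : Submodule ℝ (V → ℝ)) (h : V → ℝ) (ρ : Finset V) : V → ℝ :=
  h - prj Θ ρ h

noncomputable def bv (Θ : Submodule ℝ (V → ℝ)) (ω : V → ℝ) (ρ : Finset V) : V → ℝ :=
  fun v => if v ∈ ρ then ω ⬝ᵥ prj Θ ρ (Pi.single v 1) else 0

noncomputable def ht (Θ : Submodule ℝ (V → ℝ)) (h ω : V → ℝ) (ρ : Finset V) : ℝ :=
  ω ⬝ᵥ zv Θ h ρ

noncomputable def Down (Θ : Submodule ℝ (V → ℝ)) (ω : V → ℝ) (ρ : Finset V) : Finset V :=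
  univ.filter fun v => bv Θ ω ρ v < 0

noncomputable def Up (Θ : Submodule ℝ (V → ℝ)) (ω : V → ℝ) (ρ : Finset V) : Finset V :=
  univ.filter fun v => 0 < bv Θ ω ρ v

variable {Θ : Submodule ℝ (V → ℝ)} {h ω : V → ℝ} {ρ : Finset V}

lemma prj_mem (Θ : Submodule ℝ (V → ℝ)) (ρ : Finset V) (a : V → ℝ) : prj Θ ρ a ∈ Θ := by
  unfold prj
  split_ifs with h
  · exact h.choose_spec.1
  · exact Θ.zero_mem

lemma prj_apply (hi : Indep Θ ρ) (a : V → ℝ) {v : V} (hv : v ∈ ρ) : prj Θ ρ a v = a v := by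
  unfold prj
  rw [dif_pos (hi a)]
  exact (hi a).choose_spec.2 v hv

/-- A basis: independent of full size. -/
def IsBas (Θ : Submodule ℝ (V → ℝ)) (ρ : Finset V) : Prop :=
  Indep Θ ρ ∧ ρ.card = finrank ℝ Θ

lemma Simple.isBas (hs : Simple Θ h) (hρ : Vtx Θ h ρ) : IsBas Θ ρ := ⟨hs _ hρ.1, hρ.2⟩

lemma IsBas.prj_eq (hb : IsBas Θ ρ) {a θ : V → ℝ} (hθ : θ ∈ Θ) (H' : ∀ v ∈ ρ, θ v = a v) :
    prj Θ ρ a = θ := by
  rw [← sub_eq_zero]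
  exact hb.1.eq_zero hb.2 (Θ.sub_mem (prj_mem _ _ _) hθ) fun v hv => by
    simp [prj_apply hb.1 a hv, H' v hv]

lemma IsBas.bv_dot (hb : IsBas Θ ρ) (ω a : V → ℝ) : bv Θ ω ρ ⬝ᵥ a = ω ⬝ᵥ prj Θ ρ a := by
  have : prj Θ ρ a = ∑ v ∈ ρ, a v • prj Θ ρ (Pi.single v 1) := by
    refine hb.prj_eq (Θ.sum_mem fun v _ => Θ.smul_mem _ (prj_mem _ _ _)) fun u hu => ?_
    rw [Finset.sum_apply, sum_eq_single u]
    · simp [prj_apply hb.1 _ hu]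
    · intro v _ hvu
      simp [prj_apply hb.1 _ hu, hvu.symm]
    · intro h; exact absurd hu h
  rw [this, dotProduct_sum, dotProduct]
  simp only [bv, ite_mul, zero_mul, sum_ite_mem, univ_inter, dotProduct_smul, smul_eq_mul]
  exact sum_congr rfl fun v _ => mul_comm _ _

lemma IsBas.bv_dot_theta (hb : IsBas Θ ρ) (ω : V → ℝ) {θ : V → ℝ} (hθ : θ ∈ Θ) :
    bv Θ ω ρ ⬝ᵥ θ = ω ⬝ᵥ θ := by
  rw [hb.bv_dot, hb.prj_eq hθ fun _ _ => rfl]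

lemma bv_of_notMem {v : V} (hv : v ∉ ρ) : bv Θ ω ρ v = 0 := by simp [bv, hv]

lemma bv_dot_zero {z : V → ℝ} (hz : ∀ v ∈ ρ, z v = 0) : bv Θ ω ρ ⬝ᵥ z = 0 := by
  refine sum_eq_zero fun v _ => ?_
  by_cases hv : v ∈ ρ
  · simp [hz v hv]
  · simp [bv_of_notMem hv]

lemma zv_sub_mem (Θ : Submodule ℝ (V → ℝ)) (h : V → ℝ) (ρ : Finset V) : zv Θ h ρ - h ∈ Θ := by
  simpa [zv] using prj_mem Θ ρ h

lemma zv_apply (hi : Indep Θ ρ) (h : V → ℝ) {v : V} (hv : v ∈ ρ) : zv Θ h ρ v = 0 := by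
  simp [zv, prj_apply hi h hv]

lemma IsBas.eq_zv (hb : IsBas Θ ρ) {z : V → ℝ} (hz : z - h ∈ Θ) (h0 : ∀ v ∈ ρ, z v = 0) :
    z = zv Θ h ρ := by
  rw [← sub_eq_zero]
  refine hb.1.eq_zero hb.2 ?_ fun v hv => by simp [h0 v hv, zv_apply hb.1 h hv]
  have := Θ.sub_mem hz (zv_sub_mem Θ h ρ)
  rwa [sub_sub_sub_cancel_right] at this

lemma IsBas.ht_eq (hb : IsBas Θ ρ) (ω : V → ℝ) {z : V → ℝ} (hz : z - h ∈ Θ) :
    ω ⬝ᵥ z - ht Θ h ω ρ = bv Θ ω ρ ⬝ᵥ z := by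
  have h1 : z - zv Θ h ρ ∈ Θ := by
    have := Θ.sub_mem hz (zv_sub_mem Θ h ρ)
    rwa [sub_sub_sub_cancel_right] at this
  rw [ht, ← dotProduct_sub, ← hb.bv_dot_theta ω h1, dotProduct_sub,
    bv_dot_zero fun v hv => zv_apply hb.1 h hv, sub_zero]

lemma Simple.pt_zv (hs : Simple Θ h) (hρ : Vtx Θ h ρ) : Pt Θ h (zv Θ h ρ) := by
  obtain ⟨z, h1, h2⟩ := hρ.1
  rw [← (hs.isBas hρ).eq_zv h1.1 h2]; exact h1

lemma Simple.zv_eq_zero (hs : Simple Θ h) (hρ : Vtx Θ h ρ) (v : V) :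
    zv Θ h ρ v = 0 ↔ v ∈ ρ := by
  obtain ⟨z, h1, h2⟩ := hs.exact hρ.1
  rw [← (hs.isBas hρ).eq_zv h1.1 fun v hv => (h2 v).2 hv]; exact h2 v

/-- generic height function -/
def Gen (Θ : Submodule ℝ (V → ℝ)) (h ω : V → ℝ) : Prop :=
  (∀ T : Finset V, (∃ θ ∈ Θ, θ ≠ 0 ∧ ∀ v ∈ T, θ v = 0) →
    ∃ θ ∈ Θ, (∀ v ∈ T, θ v = 0) ∧ ω ⬝ᵥ θ ≠ 0) ∧
  ∀ ρ ρ', zv Θ h ρ ≠ zv Θ h ρ' → ht Θ h ω ρ ≠ ht Θ h ω ρ'

lemma exists_gen (Θ : Submodule ℝ (V → ℝ)) (h : V → ℝ) {ι : Type*} [Finite ι] (u : ι → V → ℝ)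
    {R : S V} (hR : R ≠ 0) : ∃ ω : V → ℝ, Gen Θ h ω ∧ (∀ v, 0 < ω v) ∧ aeval ω R ≠ 0 ∧
      ∀ i, u i ≠ 0 → ω ⬝ᵥ u i ≠ 0 := by
  classical
  let a : Finset V → V → ℝ := fun T =>
    if hT : ∃ θ ∈ Θ, θ ≠ 0 ∧ ∀ v ∈ T, θ v = 0 then hT.choose else 0
  let b : Finset V × Finset V → V → ℝ := fun p => zv Θ h p.1 - zv Θ h p.2
  obtain ⟨ω, h1, h2, h3⟩ := exists_pos_avoid (Sum.elim u (Sum.elim a b)) hR
  refine ⟨ω, ⟨fun T hT => ?_, fun ρ ρ' hne => ?_⟩, h1, h2, fun i => h3 (Sum.inl i)⟩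
  · have := h3 (Sum.inr (Sum.inl T))
    simp only [Sum.elim_inr, Sum.elim_inl, a, dif_pos hT] at this
    exact ⟨_, hT.choose_spec.1, hT.choose_spec.2.2, this hT.choose_spec.2.1⟩
  · have := h3 (Sum.inr (Sum.inr (ρ, ρ'))) (sub_ne_zero.2 hne)
    simp only [Sum.elim_inr, b, dotProduct_sub] at this
    exact sub_ne_zero.1 this

lemma Gen.neg (hg : Gen Θ h ω) : Gen Θ h (-ω) := by
  refine ⟨fun T hT => ?_, fun ρ ρ' hne => ?_⟩
  · obtain ⟨θ, h1, h2, h3⟩ := hg.1 T hT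
    exact ⟨θ, h1, h2, by simpa using h3⟩
  · simpa [ht] using hg.2 ρ ρ' hne

lemma bv_neg (Θ : Submodule ℝ (V → ℝ)) (ω : V → ℝ) (ρ : Finset V) : bv Θ (-ω) ρ = -bv Θ ω ρ := by
  funext v; simp only [bv, Pi.neg_apply]; split_ifs <;> simp

lemma ht_neg (Θ : Submodule ℝ (V → ℝ)) (h ω : V → ℝ) (ρ : Finset V) :
    ht Θ h (-ω) ρ = -ht Θ h ω ρ := by simp [ht]

lemma Down_neg (Θ : Submodule ℝ (V → ℝ)) (ω : V → ℝ) (ρ : Finset V) :
    Down Θ (-ω) ρ = Up Θ ω ρ := by ext v; simp [Down, Up, bv_neg]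

lemma Up_neg (Θ : Submodule ℝ (V → ℝ)) (ω : V → ℝ) (ρ : Finset V) :
    Up Θ (-ω) ρ = Down Θ ω ρ := by ext v; simp [Down, Up, bv_neg]

lemma mem_Down {v : V} : v ∈ Down Θ ω ρ ↔ bv Θ ω ρ v < 0 := by simp [Down]

lemma mem_Up {v : V} : v ∈ Up Θ ω ρ ↔ 0 < bv Θ ω ρ v := by simp [Up]

lemma Down_subset : Down Θ ω ρ ⊆ ρ := fun v hv => by
  by_contra h; simp [mem_Down, bv_of_notMem h] at hv

lemma Up_subset : Up Θ ω ρ ⊆ ρ := fun v hv => by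
  by_contra h; simp [mem_Up, bv_of_notMem h] at hv

lemma disjoint_Down_Up : Disjoint (Down Θ ω ρ) (Up Θ ω ρ) := by
  rw [disjoint_left]; intro v h1 h2
  exact lt_asymm (mem_Down.1 h1) (mem_Up.1 h2)

lemma Gen.bv_ne (hg : Gen Θ h ω) (hb : IsBas Θ ρ) {v : V} (hv : v ∈ ρ) : bv Θ ω ρ v ≠ 0 := by
  obtain ⟨θ, h1, h2, h3⟩ := hg.1 (ρ.erase v) ⟨prj Θ ρ (Pi.single v 1), prj_mem _ _ _, fun h0 => by
    have := prj_apply hb.1 (Pi.single v (1 : ℝ)) hv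
    rw [h0] at this; simp at this, fun u hu => by
      rw [prj_apply hb.1 _ (mem_of_mem_erase hu)]; simp [ne_of_mem_erase hu]⟩
  rw [← hb.bv_dot_theta ω h1, dotProduct, sum_eq_single v] at h3
  · exact left_ne_zero_of_mul h3
  · intro u _ huv
    by_cases hu : u ∈ ρ
    · simp [h2 u (mem_erase.2 ⟨huv, hu⟩)]
    · simp [bv_of_notMem hu]
  · simp

lemma Gen.Down_union_Up (hg : Gen Θ h ω) (hb : IsBas Θ ρ) : Down Θ ω ρ ∪ Up Θ ω ρ = ρ := by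
  refine Subset.antisymm (union_subset Down_subset Up_subset) fun v hv => ?_
  rcases lt_or_gt_of_ne (hg.bv_ne hb hv) with h | h
  · exact mem_union_left _ (mem_Down.2 h)
  · exact mem_union_right _ (mem_Up.2 h)

lemma Gen.card_Down_add (hg : Gen Θ h ω) (hb : IsBas Θ ρ) :
    (Down Θ ω ρ).card + (Up Θ ω ρ).card = finrank ℝ Θ := by
  rw [← card_union_of_disjoint disjoint_Down_Up, hg.Down_union_Up hb, hb.2]

lemma Gen.ht_inj (hg : Gen Θ h ω) (hs : Simple Θ h) {ρ ρ' : Finset V} (hρ : Vtx Θ h ρ)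
    (hρ' : Vtx Θ h ρ') (e : ht Θ h ω ρ = ht Θ h ω ρ') : ρ = ρ' := by
  by_contra hne
  refine hg.2 ρ ρ' (fun e' => hne ?_) e
  ext v; rw [← hs.zv_eq_zero hρ, ← hs.zv_eq_zero hρ', e']

/-- points of a face containing `Down ρ` are above `ρ` -/
lemma IsBas.ht_le (hb : IsBas Θ ρ) {z : V → ℝ} (hz : Pt Θ h z) (h0 : ∀ v ∈ Down Θ ω ρ, z v = 0) :
    ht Θ h ω ρ ≤ ω ⬝ᵥ z := by
  rw [← sub_nonneg, hb.ht_eq ω hz.1]
  refine sum_nonneg fun v _ => ?_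
  by_cases hv : v ∈ Down Θ ω ρ
  · simp [h0 v hv]
  · exact mul_nonneg (not_lt.1 fun h' => hv (mem_Down.2 h')) (hz.2 v)

lemma IsBas.le_ht (hb : IsBas Θ ρ) {z : V → ℝ} (hz : Pt Θ h z) (h0 : ∀ v ∈ Up Θ ω ρ, z v = 0) :
    ω ⬝ᵥ z ≤ ht Θ h ω ρ := by
  have := hb.ht_le (ω := -ω) hz (by rw [Down_neg]; exact h0)
  rw [ht_neg] at this; simpa using this

lemma Simple.ht_le (hs : Simple Θ h) {ρ ρ' : Finset V} (hρ : Vtx Θ h ρ) (hρ' : Vtx Θ h ρ')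
    (hsub : Down Θ ω ρ ⊆ ρ') : ht Θ h ω ρ ≤ ht Θ h ω ρ' :=
  (hs.isBas hρ).ht_le (hs.pt_zv hρ') fun v hv => (hs.zv_eq_zero hρ' v).2 (hsub hv)

lemma Simple.le_ht (hs : Simple Θ h) {ρ ρ' : Finset V} (hρ : Vtx Θ h ρ) (hρ' : Vtx Θ h ρ')
    (hsub : Up Θ ω ρ ⊆ ρ') : ht Θ h ω ρ' ≤ ht Θ h ω ρ :=
  (hs.isBas hρ).le_ht (hs.pt_zv hρ') fun v hv => (hs.zv_eq_zero hρ' v).2 (hsub hv)

/-- every face has a lowest vertex -/
lemma exists_bot (hb : Bdd Θ) (hs : Simple Θ h) (hg : Gen Θ h ω) {σ : Finset V}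
    (hσ : Face Θ h σ) : ∃ ρ, Vtx Θ h ρ ∧ σ ⊆ ρ ∧ Down Θ ω ρ ⊆ σ := by
  obtain ⟨z, ⟨hz, hz0⟩, hmin⟩ := (isCompact_face hb h σ).exists_isMinOn hσ
    (f := fun z => ω ⬝ᵥ z) (by fun_prop)
  have key : ∀ θ ∈ Θ, (∀ v ∈ σ, θ v = 0) → (∀ v, z v = 0 → 0 ≤ θ v) → 0 ≤ ω ⬝ᵥ θ := by
    intro θ hθ h1 h2
    obtain ⟨ε, h3, h4, -⟩ := hz.perturb hθ h2
    have := hmin (a := z + ε • θ) ⟨h4, fun v hv => by simp [hz0 v hv, h1 v hv]⟩
    simp only [Set.mem_ofPred_eq, dotProduct_add, dotProduct_smul, smul_eq_mul,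
      le_add_iff_nonneg_right] at this
    exact (mul_nonneg_iff_of_pos_left h3).1 this
  set ρ := univ.filter fun v => z v = 0 with hρ
  have hsub : σ ⊆ ρ := fun v hv => by simp [hρ, hz0 v hv]
  have hi : Indep Θ ρ := hs _ hz.face
  have hc : ρ.card = finrank ℝ Θ := by
    refine hi.card_eq fun θ hθ h0 => ?_
    by_contra hne
    obtain ⟨θ', h1, h2, h3⟩ := hg.1 ρ ⟨θ, hθ, hne, h0⟩
    have a := key θ' h1 (fun v hv => h2 v (hsub hv)) fun v hv => (h2 v (by simp [hρ, hv])).ge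
    have b := key (-θ') (Θ.neg_mem h1) (fun v hv => by simp [h2 v (hsub hv)])
      fun v hv => by simp [h2 v (by simp [hρ, hv])]
    simp only [dotProduct_neg, Left.nonneg_neg_iff] at b
    exact h3 (le_antisymm b a)
  refine ⟨ρ, ⟨hz.face, hc⟩, hsub, fun v hv => ?_⟩
  by_contra hvσ
  have hvρ := Down_subset hv
  have := key (prj Θ ρ (Pi.single v 1)) (prj_mem _ _ _) (fun u hu => by
    rw [prj_apply hi _ (hsub hu)]
    have : u ≠ v := by rintro rfl; exact hvσ hu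
    simp [this]) fun u hu => by
    rw [prj_apply hi _ (by simp [hρ, hu])]
    simp only [Pi.single_apply]; split_ifs <;> norm_num
  have h2 := mem_Down.1 hv
  simp only [bv, if_pos hvρ] at h2
  linarith

lemma exists_top (hb : Bdd Θ) (hs : Simple Θ h) (hg : Gen Θ h ω) {σ : Finset V}
    (hσ : Face Θ h σ) : ∃ ρ, Vtx Θ h ρ ∧ σ ⊆ ρ ∧ Up Θ ω ρ ⊆ σ := by
  simpa [Down_neg] using exists_bot hb hs hg.neg hσ

/-- The face ideal plus the linear forms. -/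
noncomputable def J (Θ : Submodule ℝ (V → ℝ)) (Δ : Finset V → Prop) : Ideal (S V) :=
  Ideal.span ({f | ∃ σ, ¬ Δ σ ∧ f = xs σ} ∪ {f | ∃ θ ∈ Θ, f = lin θ})

lemma xs_mem_J {Δ : Finset V → Prop} {σ : Finset V} (h : ¬ Δ σ) : xs σ ∈ J Θ Δ :=
  Ideal.subset_span (Or.inl ⟨σ, h, rfl⟩)

lemma lin_mem_J {Δ : Finset V → Prop} {θ : V → ℝ} (h : θ ∈ Θ) : lin θ ∈ J Θ Δ :=
  Ideal.subset_span (Or.inr ⟨θ, h, rfl⟩)

lemma J_le {Δ : Finset V → Prop} {I : Ideal (S V)} (h1 : ∀ σ, ¬ Δ σ → xs σ ∈ I)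
    (h2 : ∀ θ ∈ Θ, lin θ ∈ I) : J Θ Δ ≤ I := by
  refine Ideal.span_le.2 ?_
  rintro f (⟨σ, h, rfl⟩ | ⟨θ, h, rfl⟩)
  · exact h1 σ h
  · exact h2 θ h

lemma IsDeg.J_le {Δ : Finset V → Prop} {d : ℕ} {φ : S V →ₗ[ℝ] ℝ} (h : IsDeg Θ Δ d φ) :
    J Θ Δ ≤ K φ := H86.J_le h.nonface h.theta

open Classical in
/-- the set of vertices -/
noncomputable def Vs (Θ : Submodule ℝ (V → ℝ)) (h : V → ℝ) : Finset (Finset V) :=
  univ.filter (Vtx Θ h)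

lemma mem_Vs : ρ ∈ Vs Θ h ↔ Vtx Θ h ρ := by simp [Vs]

lemma span_down (hb : Bdd Θ) (hs : Simple Θ h) (hg : Gen Θ h ω) {k : ℕ} {p : Submodule ℝ (S V)}
    (hI : ∀ σ j, ¬ Face Θ h σ → σ.card + j = k → ∀ g ∈ H V j, xs σ * g ∈ p)
    (hΘ : ∀ θ ∈ Θ, ∀ j, j + 1 = k → ∀ g ∈ H V j, lin θ * g ∈ p)
    (hD : ∀ ρ, Vtx Θ h ρ → (Down Θ ω ρ).card = k → xs (Down Θ ω ρ) ∈ p) : H V k ≤ p := by
  classical
  have key : ∀ n ρ, ((Vs Θ h).filter fun ρ' => ht Θ h ω ρ < ht Θ h ω ρ').card = n → Vtx Θ h ρ →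
      ∀ σ, σ ⊆ ρ → Down Θ ω ρ ⊆ σ → σ.card = k → xs σ ∈ p := by
    intro n
    induction n using Nat.strong_induction_on with
    | _ n ih =>
    intro ρ hn hρ σ h1 h2 h3
    rcases h2.eq_or_ssubset with e | hlt
    · rw [← e]; exact hD ρ hρ (by rw [e, h3])
    obtain ⟨v, hv, hv'⟩ := exists_of_ssubset hlt
    have hbas := hs.isBas hρ
    have hc : (σ.erase v).card + 1 = k := by rw [card_erase_add_one hv, h3]
    rw [← insert_erase hv, xs_insert (notMem_erase v σ),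
      X_eq_lin_sub (σ := ρ) (θ := prj Θ ρ (Pi.single v 1)) (fun u hu => prj_apply hbas.1 _ hu)
        (h1 hv), sub_mul, sum_mul]
    refine p.sub_mem (hΘ _ (prj_mem _ _ _) _ hc _ (xs_mem _)) (p.sum_mem fun u hu => ?_)
    have huρ : u ∉ ρ := by simpa using hu
    have hu' : u ∉ σ.erase v := fun h' => huρ (h1 (mem_of_mem_erase h'))
    rw [smul_mul_assoc, ← xs_insert hu']
    refine p.smul_mem _ ?_
    have hcard : (insert u (σ.erase v)).card = k := by rw [card_insert_of_notMem hu', hc]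
    by_cases hf : Face Θ h (insert u (σ.erase v))
    · obtain ⟨ρ', a, b, c⟩ := exists_bot hb hs hg hf
      have hle : ht Θ h ω ρ ≤ ht Θ h ω ρ' := hs.ht_le hρ a fun x hx =>
        b (mem_insert_of_mem (mem_erase.2 ⟨by rintro rfl; exact hv' hx, h2 hx⟩))
      have hlt' : ht Θ h ω ρ < ht Θ h ω ρ' := lt_of_le_of_ne hle fun e => by
        rw [hg.ht_inj hs hρ a e] at huρ
        exact huρ (b (mem_insert_self _ _))
      refine ih _ ?_ ρ' rfl a _ b c hcard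
      rw [← hn]
      refine card_lt_card ⟨fun x hx => ?_, fun hx => ?_⟩
      · rw [mem_filter] at hx ⊢; exact ⟨hx.1, hlt'.trans hx.2⟩
      · have := hx (mem_filter.2 ⟨mem_Vs.2 a, hlt'⟩)
        exact lt_irrefl _ (mem_filter.1 this).2
    · simpa using hI _ 0 hf (by omega) 1 one_memH
  refine span_sqfree hs hI hΘ fun σ hσ hc => ?_
  obtain ⟨ρ, a, b, c⟩ := exists_bot hb hs hg hσ
  exact key _ ρ rfl a σ b c hc

lemma exists_sum_down (hb : Bdd Θ) (hs : Simple Θ h) (hg : Gen Θ h ω) {k : ℕ} {f : S V}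
    (hf : f ∈ H V k) : ∃ c : Finset V → ℝ,
      f - ∑ ρ ∈ (Vs Θ h).filter (fun ρ => (Down Θ ω ρ).card = k), c ρ • xs (Down Θ ω ρ)
        ∈ J Θ (Face Θ h) := by
  let F := (Vs Θ h).filter (fun ρ => (Down Θ ω ρ).card = k)
  let p : Submodule ℝ (S V) :=
    { carrier := {f | ∃ c : Finset V → ℝ, f - ∑ ρ ∈ F, c ρ • xs (Down Θ ω ρ) ∈ J Θ (Face Θ h)}
      add_mem' := by
        rintro a b ⟨c, hc⟩ ⟨c', hc'⟩
        refine ⟨c + c', ?_⟩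
        convert (J Θ (Face Θ h)).add_mem hc hc' using 1
        simp only [Pi.add_apply, add_smul, sum_add_distrib]; abel
      zero_mem' := ⟨0, by simp⟩
      smul_mem' := by
        rintro r a ⟨c, hc⟩
        refine ⟨r • c, ?_⟩
        convert (J Θ (Face Θ h)).mul_mem_left (C r) hc using 1
        simp only [Pi.smul_apply, smul_eq_mul, ← smul_eq_C_mul, smul_sub, smul_sum, smul_smul] }
  refine span_down (p := p) hb hs hg ?_ ?_ ?_ hf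
  · intro σ j hσ _ g _
    exact ⟨0, by simpa using Ideal.mul_mem_right _ _ (xs_mem_J hσ)⟩
  · intro θ hθ j _ g _
    exact ⟨0, by simpa using Ideal.mul_mem_right _ _ (lin_mem_J hθ)⟩
  · intro ρ hρ hc
    refine ⟨Pi.single ρ 1, ?_⟩
    rw [sum_eq_single ρ]
    · simp
    · intro b _ hb; simp [hb]
    · intro h'; exact absurd (mem_filter.2 ⟨mem_Vs.2 hρ, hc⟩) h'

lemma pairing_zero {Δ : Finset V → Prop} {d : ℕ} {φ : S V →ₗ[ℝ] ℝ} (hφ : IsDeg Θ Δ d φ)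
    {σ τ : Finset V} (h' : ¬ Δ (σ ∪ τ)) : φ (xs σ * xs τ) = 0 := by
  rw [xs_mul_xs]; exact hφ.nonface _ h' _

/-- Poincare duality: the annihilator of the degree functional is the face ideal plus the
linear forms. -/
lemma mem_J_of_mem_K (hb : Bdd Θ) (hs : Simple Θ h) {φ : S V →ₗ[ℝ] ℝ}
    (hφ : IsDeg Θ (Face Θ h) (finrank ℝ Θ) φ) {k : ℕ} {f : S V} (hf : f ∈ H V k) (hK : f ∈ K φ) :
    f ∈ J Θ (Face Θ h) := by
  classical
  obtain ⟨ω, hg, -⟩ := exists_gen Θ h (fun _ : Empty => (0 : V → ℝ)) (R := 1) one_ne_zero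
  obtain ⟨c, hc⟩ := exists_sum_down hb hs hg hf
  set F := (Vs Θ h).filter (fun ρ => (Down Θ ω ρ).card = k) with hF
  have h1 : ∑ ρ ∈ F, c ρ • xs (Down Θ ω ρ) ∈ K φ := by
    have := (K φ).sub_mem hK (hφ.J_le hc)
    simpa using this
  have h2 : ∀ ρ ∈ F, c ρ = 0 := by
    by_contra hcon
    push Not at hcon
    obtain ⟨ρ, hρ, hmin⟩ := exists_min_image (F.filter fun ρ => c ρ ≠ 0) (ht Θ h ω)
      (by obtain ⟨ρ, a, b⟩ := hcon; exact ⟨ρ, mem_filter.2 ⟨a, b⟩⟩)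
    obtain ⟨hρF, hρc⟩ := mem_filter.1 hρ
    have hv : Vtx Θ h ρ := mem_Vs.1 (mem_filter.1 hρF).1
    have := h1 (xs (Up Θ ω ρ))
    rw [sum_mul, map_sum, sum_eq_single ρ] at this
    · rw [smul_mul_assoc, map_smul, xs_mul_xs, hg.Down_union_Up (hs.isBas hv),
        disjoint_iff_inter_eq_empty.1 disjoint_Down_Up, xs_empty, mul_one, smul_eq_mul] at this
      exact (mul_ne_zero hρc (hφ.pos ρ hv.1 hv.2).ne') this
    · intro ρ' hρ' hne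
      by_cases h0 : c ρ' = 0
      · simp [h0]
      rw [smul_mul_assoc, map_smul, pairing_zero hφ, smul_zero]
      intro hface
      obtain ⟨ρ'', a, b, -⟩ := exists_bot hb hs hg hface
      have hv' : Vtx Θ h ρ' := mem_Vs.1 (mem_filter.1 hρ').1
      have e1 := hs.ht_le (ω := ω) hv' a (subset_union_left.trans b)
      have e2 := hs.le_ht (ω := ω) hv a (subset_union_right.trans b)
      have e3 := hmin ρ' (mem_filter.2 ⟨hρ', h0⟩)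
      exact hne (hg.ht_inj hs hv' hv (by linarith))
    · intro h'; exact absurd hρF h'
  rw [sum_eq_zero fun ρ hρ => by rw [h2 ρ hρ, zero_smul], sub_zero] at hc
  exact hc

/-- uniqueness of the degree functional -/
lemma IsDeg.unique (hb : Bdd Θ) (hs : Simple Θ h) {φ φ' : S V →ₗ[ℝ] ℝ}
    (hφ : IsDeg Θ (Face Θ h) (finrank ℝ Θ) φ) (hφ' : IsDeg Θ (Face Θ h) (finrank ℝ Θ) φ') :
    ∃ c : ℝ, 0 < c ∧ φ' = c • φ := by
  classical
  obtain ⟨ω, hg, -⟩ := exists_gen Θ h (fun _ : Empty => (0 : V → ℝ)) (R := 1) one_ne_zero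
  by_cases h0 : Face Θ h ∅
  · obtain ⟨ρ, hρ, -, hup⟩ := exists_top hb hs hg h0
    have hp := hφ.pos ρ hρ.1 hρ.2
    have hp' := hφ'.pos ρ hρ.1 hρ.2
    refine ⟨φ' (xs ρ) / φ (xs ρ), div_pos hp' hp, ?_⟩
    rw [← sub_eq_zero]
    refine eq_zero_of_inDeg (d := finrank ℝ Θ) (fun k f hf hk => by
      simp [hφ.deg k f hf hk, hφ'.deg k f hf hk]) fun f hf => ?_
    refine span_down (p := LinearMap.ker (φ' - (φ' (xs ρ) / φ (xs ρ)) • φ)) hb hs hg ?_ ?_ ?_ hf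
    · intro σ j hσ _ g _
      simp [hφ.nonface σ hσ g, hφ'.nonface σ hσ g]
    · intro θ hθ j _ g _
      simp [hφ.theta θ hθ g, hφ'.theta θ hθ g]
    · intro ρ' hρ' hc
      have e1 := hg.card_Down_add (hs.isBas hρ')
      have e2 : Up Θ ω ρ' = ∅ := card_eq_zero.1 (by omega)
      have e3 : ρ' = ρ := hg.ht_inj hs hρ' hρ (le_antisymm
        (hs.le_ht hρ hρ' (hup.trans (empty_subset _))) (hs.le_ht hρ' hρ (by simp [e2])))
      have e4 := hg.Down_union_Up (hs.isBas hρ')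
      rw [e2, union_empty] at e4
      rw [e4, e3]
      simp [hp.ne']
  · refine ⟨1, one_pos, ?_⟩
    refine LinearMap.ext fun f => ?_
    have a := hφ.nonface _ h0 f
    have b := hφ'.nonface _ h0 f
    simp only [xs_empty, one_mul] at a b
    simp [a, b]

end Pool.Agent.MP_d1780f_co.H86
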