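import Pool.Agent.MP_d1780f_co.H86.Sig

/-! Polynomial basics: linear forms, squarefree monomials, degree functionals. -/

namespace Pool.Agent.MP_d1780f_co.H86

open Module MvPolynomial Finset

universe u

abbrev S (V : Type u) := MvPolynomial V ℝ

abbrev H (V : Type u) (k : ℕ) : Submodule ℝ (S V) := homogeneousSubmodule V ℝ k

variable {V : Type u} [Fintype V] [DecidableEq V]

instance finH (k : ℕ) : FiniteDimensional ℝ (H V k) :=
  Module.Finite.iff_fg.2 (homogeneousSubmodule_fg V ℝ k)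

/-- The linear form with coefficient vector `z`. -/
noncomputable def lin : (V → ℝ) →ₗ[ℝ] S V where
  toFun z := ∑ v, z v • X v
  map_add' z z' := by simp [add_smul, sum_add_distrib]
  map_smul' c z := by simp [smul_sum, smul_smul]

omit [DecidableEq V] in
lemma lin_apply (z : V → ℝ) : lin z = ∑ v, z v • (X v : S V) := rfl

lemma lin_single (v : V) : lin (Pi.single v (1 : ℝ)) = (X v : S V) := by
  rw [lin_apply, sum_eq_single v] <;> simp +contextual

omit [DecidableEq V] in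
lemma lin_mem (z : V → ℝ) : lin z ∈ H V 1 :=
  Submodule.sum_mem _ fun v _ => Submodule.smul_mem _ _ (isHomogeneous_X ℝ v)

omit [DecidableEq V] in
lemma aeval_lin (x z : V → ℝ) : aeval x (lin z) = x ⬝ᵥ z := by
  simp [lin_apply, dotProduct, mul_comm]

/-- The squarefree monomial of a set. -/
noncomputable def xs (σ : Finset V) : S V := ∏ v ∈ σ, X v

omit [Fintype V] [DecidableEq V] in
lemma xs_mem (σ : Finset V) : xs σ ∈ H V σ.card := by
  have := IsHomogeneous.prod σ (fun v => (X v : S V)) (fun _ => 1)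
    (fun v _ => isHomogeneous_X ℝ v)
  simpa [xs] using this

omit [Fintype V] in
lemma xs_insert {σ : Finset V} {v : V} (hv : v ∉ σ) : xs (insert v σ) = X v * xs σ :=
  prod_insert hv

omit [Fintype V] [DecidableEq V] in
@[simp] lemma xs_empty : xs (∅ : Finset V) = 1 := by simp [xs]

omit [Fintype V] [DecidableEq V] in
@[simp] lemma xs_singleton (v : V) : xs ({v} : Finset V) = X v := by simp [xs]

omit [Fintype V] in
lemma xs_sdiff {σ τ : Finset V} (h : σ ⊆ τ) : xs τ = xs σ * xs (τ \ σ) := by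
  rw [xs, ← prod_sdiff h, mul_comm]; rfl

omit [Fintype V] in
lemma xs_mul_xs (σ τ : Finset V) : xs σ * xs τ = xs (σ ∪ τ) * xs (σ ∩ τ) := by
  simp only [xs]; rw [prod_union_inter]

omit [Fintype V] [DecidableEq V] in
lemma aeval_xs (x : V → ℝ) (σ : Finset V) : aeval x (xs σ) = ∏ v ∈ σ, x v := by
  simp [xs]

omit [Fintype V] [DecidableEq V] in
lemma mul_memH {a b : ℕ} {f g : S V} (hf : f ∈ H V a) (hg : g ∈ H V b) : f * g ∈ H V (a + b) :=
  IsHomogeneous.mul hf hg

omit [Fintype V] [DecidableEq V] in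
lemma mul_memH' {a b c : ℕ} {f g : S V} (hf : f ∈ H V a) (hg : g ∈ H V b) (h : a + b = c) :
    f * g ∈ H V c := h ▸ mul_memH hf hg

omit [Fintype V] [DecidableEq V] in
lemma X_memH (v : V) : (X v : S V) ∈ H V 1 := isHomogeneous_X ℝ v

omit [Fintype V] [DecidableEq V] in
lemma one_memH : (1 : S V) ∈ H V 0 := isHomogeneous_one V ℝ

omit [DecidableEq V] in
lemma lin_pow_mem (z : V → ℝ) (m : ℕ) : lin z ^ m ∈ H V m := by
  simpa using IsHomogeneous.pow (lin_mem z) m

omit [Fintype V] [DecidableEq V] in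
lemma H_add (a b : ℕ) : H V (a + b) = H V a * H V b := by
  simp only [H]
  rw [← homogeneousSubmodule_one_pow ℝ (a + b), pow_add, homogeneousSubmodule_one_pow,
    homogeneousSubmodule_one_pow]

omit [Fintype V] [DecidableEq V] in
lemma H_add_le {a b : ℕ} {p : Submodule ℝ (S V)}
    (h : ∀ f ∈ H V a, ∀ g ∈ H V b, f * g ∈ p) : H V (a + b) ≤ p := by
  rw [H_add]; exact Submodule.mul_le.2 h

omit [Fintype V] [DecidableEq V] in
lemma H_zero_eq {f : S V} (hf : f ∈ H V 0) : ∃ c : ℝ, f = c • (1 : S V) := by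
  simp only [H, homogeneousSubmodule_zero, Submodule.mem_one] at hf
  obtain ⟨c, rfl⟩ := hf
  exact ⟨c, Algebra.algebraMap_eq_smul_one c⟩

omit [Fintype V] [DecidableEq V] in
lemma H_succ_le {k : ℕ} {p : Submodule ℝ (S V)}
    (h : ∀ v, ∀ g ∈ H V k, X v * g ∈ p) : H V (k + 1) ≤ p := by
  rw [add_comm]
  refine H_add_le fun f hf g hg => ?_
  simp only [H, homogeneousSubmodule_one_eq_span_X] at hf
  induction hf using Submodule.span_induction with
  | mem x hx => obtain ⟨v, rfl⟩ := hx; exact h v g hg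
  | zero => simp
  | add x y _ _ hx hy => rw [add_mul]; exact p.add_mem hx hy
  | smul a x _ hx => rw [smul_mul_assoc]; exact p.smul_mem a hx

omit [Fintype V] [DecidableEq V] in
/-- functional version -/
lemma H_succ_zero {k : ℕ} {W : Type*} [AddCommGroup W] [Module ℝ W] (F : S V →ₗ[ℝ] W)
    (h : ∀ v, ∀ g ∈ H V k, F (X v * g) = 0) : ∀ f ∈ H V (k + 1), F f = 0 :=
  fun _ hf => H_succ_le (p := LinearMap.ker F) h hf

omit [Fintype V] [DecidableEq V] in
lemma H_le_of_monomial {k : ℕ} {p : Submodule ℝ (S V)}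
    (h : ∀ m : V →₀ ℕ, m.degree = k → monomial m (1 : ℝ) ∈ p) : H V k ≤ p := by
  intro f hf
  have hf' : f.IsHomogeneous k := hf
  rw [f.as_sum]
  refine p.sum_mem fun m hm => ?_
  have : monomial m (coeff m f) = coeff m f • monomial m (1 : ℝ) := by
    rw [smul_monomial]; simp
  rw [this]
  refine p.smul_mem _ (h m ?_)
  by_contra hne
  exact (mem_support_iff.1 hm) (hf'.coeff_eq_zero hne)

/-- Evaluation of the degree `d` part at a point. -/
noncomputable def evd (d : ℕ) (x : V → ℝ) : S V →ₗ[ℝ] ℝ :=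
  (aeval x : S V →ₐ[ℝ] ℝ).toLinearMap ∘ₗ homogeneousComponent d

omit [Fintype V] [DecidableEq V] in
lemma evd_of_mem {d : ℕ} (x : V → ℝ) {f : S V} (hf : f ∈ H V d) : evd d x f = aeval x f := by
  simp [evd, homogeneousComponent_of_mem hf]

omit [Fintype V] [DecidableEq V] in
lemma evd_of_ne {d k : ℕ} (x : V → ℝ) {f : S V} (hf : f ∈ H V k) (h : k ≠ d) : evd d x f = 0 := by
  simp [evd, homogeneousComponent_of_mem hf, h.symm]

/-- A functional lives in degree `d`. -/
def InDeg (d : ℕ) (φ : S V →ₗ[ℝ] ℝ) : Prop := ∀ k, ∀ f ∈ H V k, k ≠ d → φ f = 0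

omit [Fintype V] [DecidableEq V] in
lemma inDeg_evd (d : ℕ) (x : V → ℝ) : InDeg d (evd d x) := fun _ _ hf h => evd_of_ne x hf h

/-- The annihilator ideal of a functional. -/
def K (φ : S V →ₗ[ℝ] ℝ) : Ideal (S V) where
  carrier := {f | ∀ g, φ (f * g) = 0}
  add_mem' := fun {a b} ha hb g => by rw [add_mul, map_add, ha g, hb g, add_zero]
  zero_mem' := fun g => by simp
  smul_mem' := fun c f hf g => by
    rw [smul_eq_mul, mul_comm c f, mul_assoc]; exact hf _

omit [Fintype V] [DecidableEq V] in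
lemma mem_K {φ : S V →ₗ[ℝ] ℝ} {f : S V} : f ∈ K φ ↔ ∀ g, φ (f * g) = 0 := Iff.rfl

omit [Fintype V] [DecidableEq V] in
lemma K_apply {φ : S V →ₗ[ℝ] ℝ} {f : S V} (hf : f ∈ K φ) : φ f = 0 := by
  simpa using hf 1

omit [Fintype V] [DecidableEq V] in
lemma K_smul {φ : S V →ₗ[ℝ] ℝ} {f : S V} (c : ℝ) (hf : f ∈ K φ) : c • f ∈ K φ := by
  intro g; rw [smul_mul_assoc, map_smul, hf g, smul_zero]

omit [Fintype V] [DecidableEq V] in
lemma K_of_smul {φ : S V →ₗ[ℝ] ℝ} {f : S V} {c : ℝ} (hc : c ≠ 0) (hf : c • f ∈ K φ) :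
    f ∈ K φ := by
  have := K_smul c⁻¹ hf
  rwa [smul_smul, inv_mul_cancel₀ hc, one_smul] at this

omit [Fintype V] [DecidableEq V] in
lemma mem_K_of_homog {d a : ℕ} {φ : S V →ₗ[ℝ] ℝ} (hφ : InDeg d φ) {f : S V} (hf : f ∈ H V a)
    (h : ∀ m, a + m = d → ∀ g ∈ H V m, φ (f * g) = 0) : f ∈ K φ := by
  intro g
  rw [← sum_homogeneousComponent g, mul_sum, map_sum]
  refine sum_eq_zero fun i _ => ?_
  by_cases hi : a + i = d
  · exact h i hi _ (homogeneousComponent_mem _ _)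
  · exact hφ _ _ (mul_memH hf (homogeneousComponent_mem _ _)) hi

omit [Fintype V] [DecidableEq V] in
lemma mem_K_of_lt {d a : ℕ} {φ : S V →ₗ[ℝ] ℝ} (hφ : InDeg d φ) {f : S V} (hf : f ∈ H V a)
    (h : d < a) : f ∈ K φ :=
  mem_K_of_homog hφ hf fun m hm => by omega

omit [Fintype V] [DecidableEq V] in
lemma eq_zero_of_inDeg {d : ℕ} {φ : S V →ₗ[ℝ] ℝ} (hφ : InDeg d φ)
    (h : ∀ f ∈ H V d, φ f = 0) : φ = 0 := by
  refine LinearMap.ext fun f => ?_
  have : (1 : S V) ∈ K φ := mem_K_of_homog hφ one_memH fun m hm g hg => by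
    rw [one_mul]; apply h; rw [← hm, zero_add]; exact hg
  simpa using this f

/-- Degree functional of the face ring of `Δ` modulo the linear forms `Θ`. -/
structure IsDeg (Θ : Submodule ℝ (V → ℝ)) (Δ : Finset V → Prop) (d : ℕ)
    (φ : S V →ₗ[ℝ] ℝ) : Prop where
  deg : InDeg d φ
  nonface : ∀ σ, ¬ Δ σ → xs σ ∈ K φ
  theta : ∀ θ ∈ Θ, lin θ ∈ K φ
  pos : ∀ σ, Δ σ → σ.card = d → 0 < φ (xs σ)

/-- The restriction of `Θ` to `σ` is onto. -/
def Indep (Θ : Submodule ℝ (V → ℝ)) (σ : Finset V) : Prop :=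
  ∀ a : V → ℝ, ∃ θ ∈ Θ, ∀ v ∈ σ, θ v = a v

omit [Fintype V] [DecidableEq V] in
lemma Indep.mono {Θ : Submodule ℝ (V → ℝ)} {σ τ : Finset V} (h : Indep Θ τ) (hs : σ ⊆ τ) :
    Indep Θ σ := fun a => by
  obtain ⟨θ, h1, h2⟩ := h a
  exact ⟨θ, h1, fun v hv => h2 v (hs hv)⟩

/-- writing a variable through a linear form -/
lemma X_eq_lin_sub {σ : Finset V} {v : V} {θ : V → ℝ}
    (h : ∀ u ∈ σ, θ u = (Pi.single v (1 : ℝ) : V → ℝ) u) (hv : v ∈ σ) :
    (X v : S V) = lin θ - ∑ u ∈ σᶜ, θ u • X u := by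
  rw [lin_apply, ← sum_add_sum_compl σ, add_sub_cancel_right, sum_eq_single v]
  · rw [h v hv]; simp
  · intro u hu huv; rw [h u hu]; simp [huv]
  · intro h'; exact absurd hv h'

lemma span_sqfree {Θ : Submodule ℝ (V → ℝ)} {Δ : Finset V → Prop}
    (hind : ∀ σ, Δ σ → Indep Θ σ) {k : ℕ} {p : Submodule ℝ (S V)}
    (hI : ∀ σ j, ¬ Δ σ → σ.card + j = k → ∀ g ∈ H V j, xs σ * g ∈ p)
    (hΘ : ∀ θ ∈ Θ, ∀ j, j + 1 = k → ∀ g ∈ H V j, lin θ * g ∈ p)
    (hS : ∀ σ, Δ σ → σ.card = k → xs σ ∈ p) : H V k ≤ p := by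
  have key : ∀ j σ, σ.card + j = k → ∀ g ∈ H V j, xs σ * g ∈ p := by
    intro j
    induction j with
    | zero =>
      intro σ hσ g hg
      by_cases hΔ : Δ σ
      · obtain ⟨c, rfl⟩ := H_zero_eq hg
        rw [mul_smul_comm, mul_one]
        exact p.smul_mem _ (hS σ hΔ (by omega))
      · exact hI σ 0 hΔ hσ g hg
    | succ j ih =>
      intro σ hσ g hg
      by_cases hΔ : Δ σ
      swap
      · exact hI σ _ hΔ hσ g hg
      have hnot : ∀ u, u ∉ σ → ∀ g ∈ H V j, xs σ * (X u * g) ∈ p := by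
        intro u hu g hg
        rw [← mul_assoc, mul_comm (xs σ), ← xs_insert hu]
        exact ih _ (by rw [card_insert_of_notMem hu]; omega) g hg
      refine H_succ_le (p := p.comap (LinearMap.mulLeft ℝ (xs σ))) (fun v g hg => ?_) hg
      simp only [Submodule.mem_comap, LinearMap.mulLeft_apply]
      by_cases hv : v ∈ σ
      · obtain ⟨θ, hθ, h2⟩ := hind σ hΔ (Pi.single v 1)
        rw [X_eq_lin_sub h2 hv, sub_mul, mul_sub, sum_mul, mul_sum]
        refine p.sub_mem ?_ (p.sum_mem fun u hu => ?_)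
        · rw [mul_left_comm]
          exact hΘ θ hθ (σ.card + j) (by omega) _ (mul_memH (xs_mem σ) hg)
        · rw [smul_mul_assoc, mul_smul_comm]
          exact p.smul_mem _ (hnot u (by simpa using hu) g hg)
      · exact hnot v hv g hg
  intro g hg
  simpa using key k ∅ (by simp) g hg

/-- A functional killing the forms orthogonal to `x` is a multiple of evaluation at `x`. -/
lemma eq_smul_eval {x u : V → ℝ} (hu : x ⬝ᵥ u = 1) :
    ∀ (k : ℕ) (F : S V →ₗ[ℝ] ℝ),
      (∀ z, x ⬝ᵥ z = 0 → ∀ j, j + 1 = k → ∀ g ∈ H V j, F (lin z * g) = 0) →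
      ∀ f ∈ H V k, F f = aeval x f * F (lin u ^ k) := by
  intro k
  induction k with
  | zero =>
    intro F _ f hf
    obtain ⟨c, rfl⟩ := H_zero_eq hf
    simp
  | succ k ih =>
    intro F hF f hf
    have ih' := ih (F ∘ₗ LinearMap.mulLeft ℝ (lin u)) (fun z hz j hj g hg => by
      simp only [LinearMap.comp_apply, LinearMap.mulLeft_apply]
      rw [mul_left_comm]
      exact hF z hz k rfl _ (mul_memH' (lin_mem u) hg (by omega)))
    have := H_succ_zero (F - F (lin u ^ (k + 1)) • (aeval x : S V →ₐ[ℝ] ℝ).toLinearMap)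
      (fun v g hg => ?_) f hf
    · simp only [LinearMap.sub_apply, LinearMap.smul_apply, AlgHom.toLinearMap_apply,
        smul_eq_mul] at this
      linarith
    · have e1 : (X v : S V) = lin (Pi.single v 1 - x v • u) + x v • lin u := by
        rw [map_sub, map_smul, lin_single]; abel
      have e2 := hF (Pi.single v 1 - x v • u) (by simp [hu]) k rfl g hg
      have e3 := ih' g hg
      simp only [LinearMap.comp_apply, LinearMap.mulLeft_apply] at e3
      simp only [LinearMap.sub_apply, LinearMap.smul_apply, AlgHom.toLinearMap_apply,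
        smul_eq_mul, map_mul, aeval_X]
      conv_lhs => rw [e1, add_mul, map_add, e2, smul_mul_assoc, map_smul, e3]
      rw [← pow_succ']
      simp only [smul_eq_mul]
      ring

omit [DecidableEq V] in
lemma exists_dot_eq_one {x : V → ℝ} (hx : x ≠ 0) : ∃ u, x ⬝ᵥ u = 1 := by
  refine ⟨(x ⬝ᵥ x)⁻¹ • x, ?_⟩
  have : x ⬝ᵥ x ≠ 0 := fun h => hx (dotProduct_self_eq_zero.1 h)
  simp [this]

lemma exists_smul_eval {x : V → ℝ} (hx : x ≠ 0) (k : ℕ) (F : S V →ₗ[ℝ] ℝ)
    (hF : ∀ z, x ⬝ᵥ z = 0 → ∀ j, j + 1 = k → ∀ g ∈ H V j, F (lin z * g) = 0) :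
    ∃ c : ℝ, ∀ f ∈ H V k, F f = c * aeval x f := by
  obtain ⟨u, hu⟩ := exists_dot_eq_one hx
  exact ⟨F (lin u ^ k), fun f hf => by rw [eq_smul_eval hu k F hF f hf, mul_comm]⟩

end Pool.Agent.MP_d1780f_co.H86
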