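import Mathlib

/-! Positive index of a real symmetric bilinear form: basic facts. -/

namespace Pool.Agent.MP_d1780f_co.H86

open Module Filter Topology

section Sig

variable {E : Type*} [AddCommGroup E] [Module ℝ E] [FiniteDimensional ℝ E]

/-- The positive index of a bilinear form. -/
noncomputable def np (B : LinearMap.BilinForm ℝ E) : ℕ :=
  sigPos (LinearMap.BilinMap.toQuadraticMap B)

/-- Positive definiteness on a subspace. -/
def PosOn (B : LinearMap.BilinForm ℝ E) (U : Submodule ℝ E) : Prop :=
  ∀ x ∈ U, x ≠ 0 → 0 < B x x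

lemma exists_posOn (B : LinearMap.BilinForm ℝ E) :
    ∃ U : Submodule ℝ E, finrank ℝ U = np B ∧ PosOn B U := by
  obtain ⟨U, h1, h2⟩ :=
    exists_finrank_eq_sigPos_and_posDef (LinearMap.BilinMap.toQuadraticMap B)
  refine ⟨U, h1, fun x hx hx0 => ?_⟩
  have := h2 ⟨x, hx⟩ (by simpa using hx0)
  simpa using this

lemma le_np {B : LinearMap.BilinForm ℝ E} {U : Submodule ℝ E} (h : PosOn B U) :
    finrank ℝ U ≤ np B := by
  apply le_sigPos_of_posDef
  intro x hx
  have := h x.1 x.2 (by simpa using hx)
  simpa using this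

lemma np_add {B : LinearMap.BilinForm ℝ E} (hB : ∀ x y, B x y = B y x) :
    np B + np (-B) + finrank ℝ (LinearMap.ker B) = finrank ℝ E := by
  have h := QuadraticForm.sigPos_add_sigNeg_add_radical
    (Q := LinearMap.BilinMap.toQuadraticMap B)
  have h1 : np (-B) = sigNeg (LinearMap.BilinMap.toQuadraticMap B) := by
    rw [← sigPos_neg]; unfold np; congr 1
  have h2 : (LinearMap.BilinMap.toQuadraticMap B).radical = LinearMap.ker B := by
    rw [QuadraticMap.radical_eq_ker_polarBilin]
    ext x
    simp only [LinearMap.mem_ker, LinearMap.ext_iff, QuadraticMap.polarBilin_apply_apply,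
      LinearMap.BilinMap.polar_toQuadraticMap, LinearMap.zero_apply]
    refine forall_congr' fun y => ?_
    rw [hB y x]; constructor <;> intro h <;> linarith
  rw [h1, ← h2]; exact h

lemma np_mono {B B' : LinearMap.BilinForm ℝ E} (h : ∀ x, B x x ≤ B' x x) : np B ≤ np B' := by
  obtain ⟨U, h1, h2⟩ := exists_posOn B
  rw [← h1]
  exact le_np fun x hx hx0 => (h2 x hx hx0).trans_le (h x)

lemma np_congr {B B' : LinearMap.BilinForm ℝ E} (h : ∀ x, B x x = B' x x) : np B = np B' :=
  le_antisymm (np_mono fun x => (h x).le) (np_mono fun x => (h x).ge)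

lemma np_zero : np (0 : LinearMap.BilinForm ℝ E) = 0 := by
  obtain ⟨U, h1, h2⟩ := exists_posOn (0 : LinearMap.BilinForm ℝ E)
  rw [← h1]
  have : U = ⊥ := by
    rw [eq_bot_iff]; intro x hx
    by_contra hx0
    have := h2 x hx (by simpa using hx0)
    simp at this
  rw [this]; simp

lemma np_of_smul {B B' : LinearMap.BilinForm ℝ E} {c : ℝ} (hc : 0 < c)
    (h : ∀ x, B' x x = c * B x x) : np B' = np B := by
  apply le_antisymm
  · obtain ⟨U, h1, h2⟩ := exists_posOn B'
    rw [← h1]
    refine le_np fun x hx hx0 => ?_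
    have := h2 x hx hx0
    rw [h] at this
    exact pos_of_mul_pos_of_pos_left' this hc
  · obtain ⟨U, h1, h2⟩ := exists_posOn B
    rw [← h1]
    refine le_np fun x hx hx0 => ?_
    rw [h]; exact mul_pos hc (h2 x hx hx0)
where
  pos_of_mul_pos_of_pos_left' {a b : ℝ} (h : 0 < a * b) (ha : 0 < a) : 0 < b :=
    (mul_pos_iff_of_pos_left ha).1 h

lemma np_comp_le {F : Type*} [AddCommGroup F] [Module ℝ F] [FiniteDimensional ℝ F]
    {B : LinearMap.BilinForm ℝ E} {B' : LinearMap.BilinForm ℝ F} (f : F →ₗ[ℝ] E)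
    (h : ∀ x, B' x x = B (f x) (f x)) : np B' ≤ np B := by
  obtain ⟨U, h1, h2⟩ := exists_posOn B'
  rw [← h1]
  have hinj : Function.Injective (f.domRestrict U) := by
    rw [← LinearMap.ker_eq_bot, eq_bot_iff]
    intro x hx
    by_contra hx0
    have := h2 x.1 x.2 (by simpa using hx0)
    rw [h] at this
    have hx' : f x.1 = 0 := by simpa using hx
    simp [hx'] at this
  have h3 : finrank ℝ (LinearMap.range (f.domRestrict U)) = finrank ℝ U :=
    LinearMap.finrank_range_of_inj hinj
  rw [← h3]
  refine le_np ?_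
  rintro _ ⟨x, rfl⟩ hx0
  have hx : x.1 ≠ 0 := by
    intro h0; apply hx0; simp [h0]
  have := h2 x.1 x.2 hx
  rw [h] at this
  simpa using this

/-- lower semicontinuity -/
lemma np_lsc {X : Type*} [TopologicalSpace X] {B : X → LinearMap.BilinForm ℝ E}
    (hc : ∀ f g, Continuous fun x => B x f g) (x₀ : X) :
    ∀ᶠ x in 𝓝 x₀, np (B x₀) ≤ np (B x) := by
  obtain ⟨U, h1, h2⟩ := exists_posOn (B x₀)
  let b := Module.finBasis ℝ U
  let e : (Fin (finrank ℝ U) → ℝ) → E := fun c => ∑ i, c i • (b i : E)
  have he : ∀ c, e c = ((b.equivFun.symm c : U) : E) := by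
    intro c; simp [e, Basis.equivFun_symm_apply]
  have hq : Continuous fun p : X × (Fin (finrank ℝ U) → ℝ) => B p.1 (e p.2) (e p.2) := by
    simp only [e, map_sum, map_smul, LinearMap.sum_apply, LinearMap.smul_apply, smul_eq_mul]
    refine continuous_finsetSum _ fun i _ => Continuous.mul (by fun_prop) ?_
    refine continuous_finsetSum _ fun j _ => Continuous.mul (by fun_prop) ?_
    exact (hc _ _).comp continuous_fst
  have hS : IsCompact (Metric.sphere (0 : Fin (finrank ℝ U) → ℝ) 1) := isCompact_sphere _ _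
  have hev : ∀ᶠ x in 𝓝 x₀, ∀ c ∈ Metric.sphere (0 : Fin (finrank ℝ U) → ℝ) 1,
      0 < B x (e c) (e c) := by
    apply hS.eventually_forall_of_forall_eventually
    intro c hc'
    have hc0 : c ≠ 0 := by
      rintro rfl; simp at hc'
    have : 0 < B x₀ (e c) (e c) := by
      apply h2
      · rw [he]; exact Subtype.property _
      · rw [he]; intro h0
        apply hc0
        have : b.equivFun.symm c = 0 := Subtype.ext h0
        exact b.equivFun.symm.injective (by rw [this]; simp)
    exact (hq.continuousAt (x := (x₀, c))).eventually (lt_mem_nhds this)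
  filter_upwards [hev] with x hx
  rw [← h1]
  refine le_np fun u hu hu0 => ?_
  set c := b.equivFun ⟨u, hu⟩ with hcdef
  have hc0 : c ≠ 0 := by
    intro h0; apply hu0
    have : (⟨u, hu⟩ : U) = 0 := by
      apply b.equivFun.injective; rw [← hcdef, h0]; simp
    simpa using this
  have hn : 0 < ‖c‖ := norm_pos_iff.2 hc0
  have h3 := hx (‖c‖⁻¹ • c) (by simp [norm_smul, hn.ne'])
  have h4 : e (‖c‖⁻¹ • c) = ‖c‖⁻¹ • u := by
    rw [he, map_smul, hcdef]; simp
  rw [h4] at h3
  simp only [map_smul, LinearMap.smul_apply, smul_eq_mul] at h3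
  have h5 : 0 < ‖c‖⁻¹ := inv_pos.2 hn
  exact (mul_pos_iff_of_pos_left h5).1 ((mul_pos_iff_of_pos_left h5).1 h3)

/-- local constancy -/
lemma np_locconst {X : Type*} [TopologicalSpace X] {B : X → LinearMap.BilinForm ℝ E}
    (hc : ∀ f g, Continuous fun x => B x f g) (hs : ∀ x f g, B x f g = B x g f) (x₀ : X)
    (hK : ∀ x, LinearMap.ker (B x₀) ≤ LinearMap.ker (B x)) :
    ∀ᶠ x in 𝓝 x₀, np (B x) = np (B x₀) := by
  have h1 := np_lsc hc x₀
  have h2 := np_lsc (B := fun x => -B x) (fun f g => (hc f g).neg) x₀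
  filter_upwards [h1, h2] with x hx hx'
  have a := np_add (hs x)
  have b := np_add (hs x₀)
  have c := Submodule.finrank_mono (hK x)
  omega

lemma np_const_of_preconnected {X : Type*} [TopologicalSpace X] {B : X → LinearMap.BilinForm ℝ E}
    (hc : ∀ f g, Continuous fun x => B x f g) (hs : ∀ x f g, B x f g = B x g f) {s : Set X}
    (hs' : IsPreconnected s)
    (hK : ∀ x₀ ∈ s, ∀ x, LinearMap.ker (B x₀) ≤ LinearMap.ker (B x)) {x y : X}
    (hx : x ∈ s) (hy : y ∈ s) : np (B x) = np (B y) := by
  refine hs'.constant (f := fun x => np (B x)) ?_ hx hy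
  intro x₀ hx₀
  apply ContinuousAt.continuousWithinAt
  have := np_locconst hc hs x₀ (hK x₀ hx₀)
  exact (continuousAt_const (y := np (B x₀))).congr (this.mono fun x hx => hx.symm)

/-- rank one extension -/
lemma np_rank_one {B B' : LinearMap.BilinForm ℝ E} (hB : ∀ x y, B x y = B y x)
    (ev : E →ₗ[ℝ] ℝ) (c : ℝ) (h : ∀ x, B' x x = B x x + c * (ev x) ^ 2) (e : E)
    (he : ∀ y, B e y = 0) (hev : ev e ≠ 0) :
    np B' = np B + if 0 < c then 1 else 0 := by
  -- projection along e
  let π : E →ₗ[ℝ] E := LinearMap.id - (LinearMap.toSpanSingleton ℝ E e).comp ((ev e)⁻¹ • ev)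
  have hπ : ∀ x, π x = x - ((ev e)⁻¹ * ev x) • e := fun x => by simp [π]
  have hπ0 : ∀ x, ev (π x) = 0 := by
    intro x; rw [hπ]; simp; field_simp; ring
  have hπB : ∀ x, B (π x) (π x) = B x x := by
    intro x; rw [hπ]
    simp [he, hB x e]
  have hge : np B ≤ np B' := np_comp_le π fun x => by rw [h, hπ0, hπB]; simp
  have hle : np B' ≤ np B + 1 := by
    obtain ⟨U, h1, h2⟩ := exists_posOn B'
    have h3 : finrank ℝ (U ⊓ LinearMap.ker ev : Submodule ℝ E) ≤ np B := by
      refine le_np fun x hx hx0 => ?_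
      have := h2 x hx.1 hx0
      have h0 : ev x = 0 := hx.2
      rw [h, h0] at this; simpa using this
    have h4 := Submodule.finrank_sup_add_finrank_inf_eq U (LinearMap.ker ev)
    have h5 := ev.finrank_range_add_finrank_ker
    have h6 : finrank ℝ (LinearMap.range ev) ≤ 1 := by
      simpa using (LinearMap.range ev).finrank_le
    have h7 := (U ⊔ LinearMap.ker ev).finrank_le
    omega
  split_ifs with hc
  · refine le_antisymm hle ?_
    obtain ⟨U, h1, h2⟩ := exists_posOn B
    -- the space π U ⊔ span e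
    have hinj : Function.Injective (π.domRestrict U) := by
      rw [← LinearMap.ker_eq_bot, eq_bot_iff]
      intro x hx
      by_contra hx0
      have := h2 x.1 x.2 (by simpa using hx0)
      have hx' : π x.1 = 0 := by simpa using hx
      rw [← hπB, hx'] at this
      simp at this
    have h3 : finrank ℝ (LinearMap.range (π.domRestrict U)) = finrank ℝ U :=
      LinearMap.finrank_range_of_inj hinj
    have he0 : e ≠ 0 := by rintro rfl; simp at hev
    have h4 : LinearMap.range (π.domRestrict U) < LinearMap.range (π.domRestrict U) ⊔ ℝ ∙ e := by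
      refine lt_of_le_of_ne le_sup_left fun h0 => ?_
      have : e ∈ LinearMap.range (π.domRestrict U) := by
        rw [h0]; exact Submodule.mem_sup_right (Submodule.mem_span_singleton_self e)
      obtain ⟨x, hx⟩ := this
      apply hev; rw [← hx]; exact hπ0 _
    have h5 := Submodule.finrank_lt_finrank_of_lt h4
    have h6 : finrank ℝ (LinearMap.range (π.domRestrict U) ⊔ ℝ ∙ e : Submodule ℝ E) ≤ np B' := by
      refine le_np fun x hx hx0 => ?_
      obtain ⟨_, ⟨u, rfl⟩, y, hy, rfl⟩ := Submodule.mem_sup.1 hx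
      obtain ⟨a, rfl⟩ := Submodule.mem_span_singleton.1 hy
      have e1 : B' (π.domRestrict U u + a • e) (π.domRestrict U u + a • e)
          = B u.1 u.1 + c * (a * ev e) ^ 2 := by
        rw [h]
        simp [he, hπ0, hB _ e, hπB]
      rw [e1]
      by_cases hu : u.1 = 0
      · have ha : a ≠ 0 := by
          rintro rfl; apply hx0; simp [hu]
        rw [hu]; simp only [map_zero, zero_add]
        positivity
      · have := h2 u.1 u.2 hu
        positivity
    omega
  · refine le_antisymm ?_ (by simpa using hge)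
    simp only [add_zero]
    refine np_mono fun x => ?_
    rw [h]
    have : c * ev x ^ 2 ≤ 0 := mul_nonpos_of_nonpos_of_nonneg (not_lt.1 hc) (sq_nonneg _)
    linarith

/-- abstract Hodge-Riemann -/
lemma abstract_HR {B : LinearMap.BilinForm ℝ E} (hB : ∀ x y, B x y = B y x)
    {U : Submodule ℝ E} (hU : PosOn B U) (hd : np B ≤ finrank ℝ U) :
    (∀ f, (∀ u ∈ U, B u f = 0) → B f f ≤ 0) ∧
    (∀ f, (∀ u ∈ U, B u f = 0) → B f f = 0 → ∀ g, B f g = 0) := by
  have h1 : ∀ f, (∀ u ∈ U, B u f = 0) → B f f ≤ 0 := by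
    intro f hf
    by_contra hpos
    push Not at hpos
    have h4 : U < U ⊔ ℝ ∙ f := by
      refine lt_of_le_of_ne le_sup_left fun h0 => ?_
      have : f ∈ U := by
        rw [h0]; exact Submodule.mem_sup_right (Submodule.mem_span_singleton_self f)
      rw [hf f this] at hpos; exact lt_irrefl _ hpos
    have h5 := Submodule.finrank_lt_finrank_of_lt h4
    have h6 : finrank ℝ (U ⊔ ℝ ∙ f : Submodule ℝ E) ≤ np B := by
      refine le_np fun x hx hx0 => ?_
      obtain ⟨u, hu, y, hy, rfl⟩ := Submodule.mem_sup.1 hx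
      obtain ⟨a, rfl⟩ := Submodule.mem_span_singleton.1 hy
      have e1 : B (u + a • f) (u + a • f) = B u u + a ^ 2 * B f f := by
        simp [hf u hu, hB f u]; ring
      rw [e1]
      by_cases hu0 : u = 0
      · have ha : a ≠ 0 := by
          rintro rfl; apply hx0; simp [hu0]
        rw [hu0]; simp only [map_zero, zero_add]
        positivity
      · have := hU u hu hu0
        positivity
    omega
  refine ⟨h1, fun f hf hff g => ?_⟩
  have hrefl : B.IsRefl := fun x y h => by rw [hB]; exact h
  have hnd : (B.restrict U).Nondegenerate := by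
    constructor
    · intro x hx
      by_contra h0
      have := hU x.1 x.2 (by simpa using h0)
      have h2 := hx x
      simp at h2
      linarith
    · intro x hx
      by_contra h0
      have := hU x.1 x.2 (by simpa using h0)
      have h2 := hx x
      simp at h2
      linarith
  have hc := B.isCompl_orthogonal_of_restrict_nondegenerate hrefl hnd
  have hg : g ∈ U ⊔ B.orthogonal U := by rw [hc.sup_eq_top]; trivial
  obtain ⟨u, hu, g', hg', rfl⟩ := Submodule.mem_sup.1 hg
  have hg'' : ∀ u ∈ U, B u g' = 0 := fun u hu => hg' u hu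
  rw [map_add, hB f u, hf u hu, zero_add]
  by_contra hne
  have key : ∀ t : ℝ, 2 * t * B f g' + B g' g' ≤ 0 := by
    intro t
    have := h1 (t • f + g') (fun u hu => by simp [hf u hu, hg'' u hu])
    simp only [map_add, map_smul, LinearMap.add_apply, LinearMap.smul_apply, smul_eq_mul, hff,
      hB g' f] at this
    linarith
  have := key ((1 - B g' g') / (2 * B f g'))
  have e : 2 * ((1 - B g' g') / (2 * B f g')) * B f g' = 1 - B g' g' := by field_simp
  linarith

end Sig

end Pool.Agent.MP_d1780f_co.H86
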