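import Pool.Agent.MP_d1780f_co.H86.Aff

/-! An affine stress of degree at least `d/2` supported in a hyperplane section vanishes. -/

set_option linter.unusedSectionVars false

namespace Pool.Agent.MP_d1780f_co.H86

open Module MvPolynomial Finset Filter Topology

universe u

variable {V : Type u} [Fintype V] [DecidableEq V] {L : Submodule ℝ (V → ℝ)} {d : ℕ}

theorem slice (hL : Aff L d) {g : V → ℝ} (hg : g ∈ L) (hg0 : g ≠ 0) {n : S V →ₗ[ℝ] ℝ} {k : ℕ}
    (hn : InDeg k n) (hk : d ≤ 2 * k) (hk1 : 0 < k) (h1 : ∀ σ, ¬ AFace L σ → xs σ ∈ K n)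
    (h2 : ∀ v, g v ≠ 0 → X v ∈ K n) (h3 : ∀ z ∈ L, lin z ∈ K n) : n = 0 := by
  classical
  let Y : Finset V := univ.filter fun v => g v = 0
  have hY : ∀ v, v ∈ Y ↔ g v = 0 := fun v => by simp [Y]
  have h2' : ∀ v, v ∉ Y → X v ∈ K n := fun v hv => h2 v fun e => hv ((hY v).2 e)
  by_cases hi : Indep L Y
  · refine eq_zero_of_inDeg hn ?_
    obtain ⟨k, rfl⟩ : ∃ k', k = k' + 1 := ⟨k - 1, by omega⟩
    refine H_succ_zero n fun v f _ => ?_
    have := X_mul_mem_of_indep (f := 1) hi h3 (fun v hv => by simpa using h2' v hv) v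
    rw [mul_one] at this
    exact this f
  have hYne : Y.Nonempty := by
    rw [nonempty_iff_ne_empty]; intro e; apply hi; rw [e]
    exact fun a => ⟨0, L.zero_mem, by simp⟩
  let wY : V → ℝ := fun v => if v ∈ Y then 1 else 0
  have hwY : ∀ z, wY ⬝ᵥ z = ∑ v ∈ Y, z v := by
    intro z; simp [wY, dotProduct]
  have hw1 : 0 < wY ⬝ᵥ 1 := by rw [hwY]; simpa using hYne
  let Θ₀ := Th L wY
  let Dep : Finset V → Prop := fun A => A ⊆ Y ∧ ¬ Indep Θ₀ A
  let μ : (V → ℝ) →ₗ[ℝ] (V ⊕ Finset V → ℝ) :=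
    { toFun := fun z => Sum.elim (fun v => if v ∈ Y then z v else 0)
        fun A => if Dep A then ∑ v ∈ A, z v else 0
      map_add' := fun a b => by
        funext o; rcases o with v | A <;> simp <;> split_ifs <;> simp [sum_add_distrib]
      map_smul' := fun c a => by
        funext o; rcases o with v | A <;> simp [mul_sum] }
  have hμl : ∀ z v, μ z (Sum.inl v) = if v ∈ Y then z v else 0 := fun _ _ => rfl
  have hμr : ∀ z A, μ z (Sum.inr A) = if Dep A then ∑ v ∈ A, z v else 0 := fun _ _ => rfl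
  let Θ' := Θ₀.map μ
  let h' : (Finset V → ℝ) → V ⊕ Finset V → ℝ := fun e =>
    Sum.elim (fun _ => 1) fun A => if Dep A then A.card - e A else 1
  -- dimension
  have hdim : finrank ℝ Θ' < d := by
    have e1 := finrank_Th hL.one hw1.ne'
    rw [hL.rank] at e1
    have e2 := (μ.domRestrict Θ₀).finrank_range_add_finrank_ker
    rw [LinearMap.range_domRestrict] at e2
    have hgΘ : g ∈ Θ₀ := ⟨hg, by rw [hwY]; exact sum_eq_zero fun v hv => (hY v).1 hv⟩
    have e3 : LinearMap.ker (μ.domRestrict Θ₀) ≠ ⊥ := by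
      rw [Submodule.ne_bot_iff]
      refine ⟨⟨g, hgΘ⟩, ?_, fun e => hg0 (congrArg Subtype.val e)⟩
      rw [LinearMap.mem_ker, LinearMap.domRestrict_apply]
      funext o
      rcases o with v | A
      · rw [hμl]; split_ifs with hv
        · exact (hY v).1 hv
        · rfl
      · rw [hμr]; split_ifs with hA
        · exact sum_eq_zero fun v hv => (hY v).1 (hA.1 hv)
        · rfl
    have e4 := Submodule.one_le_finrank_iff.2 e3
    change finrank ℝ Θ' + _ = finrank ℝ (Th L wY) at e2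
    omega
  -- boundedness
  have hb : Bdd Θ' := by
    let c : V → ℝ := fun v => ∑ A : Finset V, if Dep A ∧ v ∈ A then 1 else 0
    obtain ⟨δ, hδ, hδ'⟩ := perturb (z := fun _ : V => (1 : ℝ)) (θ := -c) (fun _ => zero_le_one)
      fun _ h => absurd h one_ne_zero
    refine ⟨Sum.elim (fun v => 1 + δ * (-c) v) fun _ => δ, fun o => ?_, ?_⟩
    · rcases o with v | A
      · exact (hδ' v).2 one_pos
      · exact hδ
    · rintro _ ⟨θ, hθ, rfl⟩
      have e0 : ∑ v ∈ Y, θ v = 0 := by rw [← hwY]; exact hθ.2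
      have e1 : ∑ A, (if Dep A then ∑ v ∈ A, θ v else 0) = ∑ v ∈ Y, c v * θ v := by
        simp only [c, sum_mul]
        rw [sum_comm]
        refine sum_congr rfl fun A _ => ?_
        by_cases hA : Dep A
        · simp [hA, inter_eq_right.2 hA.1]
        · simp [hA]
      simp only [dotProduct, Fintype.sum_sum_type, Sum.elim_inl, Sum.elim_inr, hμl, hμr]
      rw [← mul_sum, e1]
      simp only [mul_ite, mul_zero, sum_ite_mem, univ_inter, Pi.neg_apply]
      rw [mul_sum, ← sum_add_distrib, ← e0]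
      exact sum_congr rfl fun v _ => by ring
  -- choices
  have hx : ∀ T, ∃ x : V ⊕ Finset V → ℝ, ¬ Indep Θ' T →
      x ≠ 0 ∧ (∀ v, v ∉ T → x v = 0) ∧ ∀ θ ∈ Θ', x ⬝ᵥ θ = 0 := by
    intro T
    by_cases hT : Indep Θ' T
    · exact ⟨0, fun h => absurd hT h⟩
    · obtain ⟨x, hx⟩ := exists_dep hT; exact ⟨x, fun _ => hx⟩
  choose x hx using hx
  have hz : ∀ σ, ∃ z : V → ℝ, AFace L σ → σ ⊆ Y → z - 1 ∈ Θ₀ ∧ (∀ v, 0 ≤ z v) ∧
      (∀ v, z v = 0 ↔ v ∈ σ) ∧ Indep Θ₀ σ := by
    intro σ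
    by_cases hσ : AFace L σ ∧ σ ⊆ Y
    swap
    · exact ⟨0, fun a b => absurd ⟨a, b⟩ hσ⟩
    obtain ⟨z, a, b, c⟩ := hL.exact hσ.1
    have hp : 0 < wY ⬝ᵥ z := by
      rw [hwY]
      have : ¬ Y ⊆ σ := fun e => hi ((hL.simp σ hσ.1).mono e)
      obtain ⟨v, hv, hv'⟩ := not_subset.1 this
      exact sum_pos' (fun u _ => b u) ⟨v, hv, lt_of_le_of_ne (b v) fun e => hv' ((c v).1 e.symm)⟩
    refine ⟨((wY ⬝ᵥ 1) / (wY ⬝ᵥ z)) • z, fun _ _ => ⟨?_, fun v => mul_nonneg (div_pos hw1 hp).le (b v),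
      fun v => by simp [hw1.ne', hp.ne', c], indep_Th (hL.simp σ hσ.1) a (fun v => (c v).2) hp.ne'⟩⟩
    simpa using (Th L wY).neg_mem (sub_smul_mem_Th hL.one a hp.ne')
  choose z hz using hz
  obtain ⟨e, he1, he2, he3⟩ := exists_small_avoid
    (fun (T : Finset (V ⊕ Finset V)) A => if Dep A then x T (Sum.inr A) else 0)
    (fun T => x T ⬝ᵥ h' 0) (fun p : Finset V × Finset V => p.2) fun p => ∑ v ∈ p.2, z p.1 v
  have hs : Simple Θ' (h' e) := by
    rintro T ⟨z', ⟨⟨θ, hθ, hθ'⟩, hz1⟩, hz2⟩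
    by_contra hT
    obtain ⟨x1, x2, x3⟩ := hx T hT
    have hz' : z' = μ θ + h' e := by rw [hθ']; simp
    have e1 : x T ⬝ᵥ h' e = 0 := by
      have a : x T ⬝ᵥ z' = 0 := sum_eq_zero fun o _ => by
        by_cases ho : o ∈ T
        · simp [hz2 o ho]
        · simp [x2 o ho]
      rwa [hz', dotProduct_add, x3 _ ⟨θ, hθ, rfl⟩, zero_add] at a
    have e2 : (fun A => if Dep A then x T (Sum.inr A) else 0) = 0 := by
      by_contra hne
      apply he2 T hne
      have e0 : x T ⬝ᵥ h' 0 - (fun A => if Dep A then x T (Sum.inr A) else 0) ⬝ᵥ e =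
          x T ⬝ᵥ h' e := by
        simp only [dotProduct, Fintype.sum_sum_type, h', Sum.elim_inl, Sum.elim_inr,
          add_sub_assoc, ← sum_sub_distrib]
        congr 1
        refine sum_congr rfl fun A _ => ?_
        split_ifs <;> simp; ring
      linarith
    have e3 : ∀ A, x T (Sum.inr A) = 0 := by
      intro A
      by_cases hA : Dep A
      · simpa [hA] using congrFun e2 A
      · refine x2 _ fun hT' => ?_
        have := hz2 _ hT'
        simp [hz', hμr, h', hA] at this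
    let T₀ : Finset V := univ.filter fun v => Sum.inl v ∈ T
    have e4 : T₀ ⊆ Y := by
      intro v hv
      by_contra hv'
      have := hz2 _ (mem_filter.1 hv).2
      simp [hz', hμl, h', hv'] at this
    have e5 : Indep Θ₀ T₀ := by
      by_contra hc
      have hD : Dep T₀ := ⟨e4, hc⟩
      have a := hz1 (Sum.inr T₀)
      have b : ∀ v ∈ T₀, θ v = -1 := by
        intro v hv
        have := hz2 _ (mem_filter.1 hv).2
        simp [hz', hμl, h', e4 hv] at this
        linarith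
      simp [hz', hμr, h', hD, sum_congr rfl b] at a
      exact absurd (he1 T₀) (not_lt.2 a)
    obtain ⟨θ', a, b⟩ := e5 fun v => x T (Sum.inl v)
    have c := x3 _ ⟨θ', a, rfl⟩
    apply x1
    rw [← dotProduct_self_eq_zero, ← c]
    refine sum_congr rfl fun o _ => ?_
    rcases o with v | A
    · by_cases hv : v ∈ T₀
      · rw [hμl, if_pos (e4 hv), b v hv]
      · simp [x2 (Sum.inl v) (by simpa [T₀] using hv)]
    · simp [e3]
  have hf : ∀ σ, AFace L σ → σ ⊆ Y → Face Θ' (h' e) (σ.map Function.Embedding.inl) := by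
    intro σ a b
    obtain ⟨z1, z2, z3, z4⟩ := hz σ a b
    refine ⟨μ (z σ - 1) + h' e, ⟨⟨_, z1, by simp⟩, fun o => ?_⟩, fun o ho => ?_⟩
    · rcases o with v | A
      · by_cases hv : v ∈ Y <;> simp [hμl, h', hv, z2]
      · by_cases hA : Dep A
        · have : 0 < ∑ v ∈ A, z σ v := by
            obtain ⟨v, hv, hv'⟩ := not_subset.1 fun c : A ⊆ σ => hA.2 (z4.mono c)
            exact sum_pos' (fun u _ => z2 u)
              ⟨v, hv, lt_of_le_of_ne (z2 v) fun c => hv' ((z3 v).1 c.symm)⟩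
          have := he3 (σ, A) this
          simp [hμr, h', hA]
          exact this.le
        · simp [hμr, h', hA]
    · obtain ⟨v, hv, rfl⟩ := mem_map.1 ho
      simp [hμl, h', b hv, (z3 v).2 hv]
  let κ : S (V ⊕ Finset V) →ₐ[ℝ] S V := aeval (Sum.elim X fun _ => 0)
  have hκ : ∀ j, ∀ f ∈ H (V ⊕ Finset V) j, κ f ∈ H V j := fun j f hf =>
    aeval_memH hf _ fun o => by
      rcases o with v | A
      · exact X_memH v
      · exact Submodule.zero_mem _
  have hκl : ∀ z', κ (lin z') = lin fun v => z' (Sum.inl v) := by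
    intro z'; simp [lin_apply, κ]
  have hκK : ∀ f, κ f ∈ K n → f ∈ K (n ∘ₗ κ.toLinearMap) := fun f hf g => by
    simpa using hf (κ g)
  have key := lefschetz_surj hb hs (n := n ∘ₗ κ.toLinearMap) (k := k)
    (fun j f hf hj => hn j _ (hκ j f hf) hj) (by omega) (J_le (fun T hT => hκK _ ?_) ?_)
    (hκK _ (by rw [hκl]; exact h3 _ hL.one))
  · refine LinearMap.ext fun f => ?_
    have := DFunLike.congr_fun key (rename Sum.inl f)
    simp only [LinearMap.comp_apply, AlgHom.toLinearMap_apply, κ, aeval_rename,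
      Sum.elim_comp_inl, aeval_X_left_apply] at this
    exact this
  · by_cases hA : ∃ A, Sum.inr A ∈ T
    · obtain ⟨A, hA⟩ := hA
      rw [xs, map_prod, prod_eq_zero hA (by simp [κ])]
      exact zero_mem _
    · let T₀ : Finset V := univ.filter fun v => Sum.inl v ∈ T
      have e1 : T = T₀.map Function.Embedding.inl := by
        ext o
        rcases o with v | A
        · simp [T₀]
        · simp; exact fun c => hA ⟨A, c⟩
      have e2 : κ (xs T) = xs T₀ := by rw [e1]; simp [xs, κ]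
      rw [e2]
      by_cases c : AFace L T₀
      · have : ¬ T₀ ⊆ Y := fun c' => hT (e1 ▸ hf T₀ c c')
        obtain ⟨v, hv, hv'⟩ := not_subset.1 this
        rw [← insert_erase hv, xs_insert (notMem_erase _ _)]
        exact Ideal.mul_mem_right _ _ (h2' v hv')
      · exact h1 _ c
  · rintro _ ⟨θ, hθ, rfl⟩
    refine hκK _ ?_
    have : (lin fun v => μ θ (Sum.inl v)) = lin θ - ∑ v ∈ Yᶜ, θ v • (X v : S V) := by
      rw [lin_apply θ, ← sum_add_sum_compl Y, add_sub_cancel_right, lin_apply]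
      simp [hμl]
    rw [hκl, this]
    exact (K n).sub_mem (h3 θ hθ.1) ((K n).sum_mem fun v hv => K_smul _ (h2' v (by simpa using hv)))

end Pool.Agent.MP_d1780f_co.H86
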