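import Pool.Agent.MP_d1780f_co.H86.Cross

/-! Sweeping a simple polytope by a generic hyperplane: geometry of the truncations. -/

set_option linter.unusedSectionVars false

namespace Pool.Agent.MP_d1780f_co.H86

open Module MvPolynomial Finset Filter Topology

universe u

variable {V : Type u} [Fintype V] [DecidableEq V]

noncomputable def iom (ω : V → ℝ) : (V → ℝ) →ₗ[ℝ] (Option V → ℝ) where
  toFun z := fun o => o.elim (-(ω ⬝ᵥ z)) z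
  map_add' z z' := by funext o; cases o <;> simp; ring
  map_smul' c z := by funext o; cases o <;> simp

@[simp] lemma iom_none (ω z : V → ℝ) : iom ω z none = -(ω ⬝ᵥ z) := rfl
@[simp] lemma iom_some (ω z : V → ℝ) (v : V) : iom ω z (some v) = z v := rfl

noncomputable def hT (h ω : V → ℝ) (t : ℝ) : Option V → ℝ := iom ω h + t • Pi.single none 1

@[simp] lemma hT_none (h ω : V → ℝ) (t : ℝ) : hT h ω t none = t - ω ⬝ᵥ h := by
  simp [hT]; ring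
@[simp] lemma hT_some (h ω : V → ℝ) (t : ℝ) (v : V) : hT h ω t (some v) = h v := by simp [hT]

lemma continuous_hT (h ω : V → ℝ) : Continuous (hT h ω) := by unfold hT; fun_prop

noncomputable def gam (Θ : Submodule ℝ (V → ℝ)) (ω : V → ℝ) (ρ : Finset V) : Option V → ℝ :=
  fun o => o.elim 1 (bv Θ ω ρ)

@[simp] lemma gam_none (Θ : Submodule ℝ (V → ℝ)) (ω : V → ℝ) (ρ : Finset V) :
    gam Θ ω ρ none = 1 := rfl
@[simp] lemma gam_some (Θ : Submodule ℝ (V → ℝ)) (ω : V → ℝ) (ρ : Finset V) (v : V) :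
    gam Θ ω ρ (some v) = bv Θ ω ρ v := rfl

variable {Θ : Submodule ℝ (V → ℝ)} {h ω : V → ℝ} {ρ : Finset V}

lemma dot_option (a b : Option V → ℝ) :
    a ⬝ᵥ b = a none * b none + (fun v => a (some v)) ⬝ᵥ fun v => b (some v) := by
  simp [dotProduct, Fintype.sum_option]

lemma finrank_iom (Θ : Submodule ℝ (V → ℝ)) (ω : V → ℝ) :
    finrank ℝ (Θ.map (iom ω)) = finrank ℝ Θ := by
  have : Function.Injective (iom ω) := fun a b e => funext fun v => congrFun e (some v)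
  exact (Submodule.equivMapOfInjective _ this Θ).finrank_eq.symm

lemma Bdd.iom (hb : Bdd Θ) (ω : V → ℝ) : Bdd (Θ.map (iom ω)) := by
  obtain ⟨w, h1, h2⟩ := hb
  obtain ⟨ε, h3, h4⟩ := perturb (z := w) (θ := ω) (fun v => (h1 v).le) fun v hv => absurd hv (h1 v).ne'
  refine ⟨fun o => o.elim ε (w + ε • ω), fun o => ?_, ?_⟩
  · cases o with
    | none => exact h3
    | some v => exact (h4 v).2 (h1 v)
  · rintro _ ⟨θ, hθ, rfl⟩
    rw [dot_option]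
    have := h2 θ hθ
    simp only [Option.elim_none, iom_none, Option.elim_some, iom_some]
    change _ + (w + ε • ω) ⬝ᵥ θ = 0
    rw [add_dotProduct, smul_dotProduct, this]; simp

lemma pt_hT {z : V → ℝ} {t : ℝ} (hz : Pt Θ h z) (ht : ω ⬝ᵥ z ≤ t) :
    Pt (Θ.map (iom ω)) (hT h ω t) (hT z ω t) := by
  refine ⟨⟨z - h, hz.1, ?_⟩, fun o => ?_⟩
  · simp [hT]
  · cases o with
    | none => simpa using ht
    | some v => simpa using hz.2 v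

lemma pt_of_hT {z : Option V → ℝ} {t : ℝ} (hz : Pt (Θ.map (iom ω)) (hT h ω t) z) :
    Pt Θ h (fun v => z (some v)) ∧ z none = t - ω ⬝ᵥ fun v => z (some v) := by
  obtain ⟨⟨θ, h1, h2⟩, h3⟩ := hz
  have e : (fun v => z (some v)) = θ + h := by
    funext v; have := congrFun h2 (some v); simp at this; simp [this]
  refine ⟨⟨by rw [e]; simpa using h1, fun v => h3 _⟩, ?_⟩
  have := congrFun h2 none
  simp at this
  rw [e, dotProduct_add]; linarith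

lemma Pt.comb {z₁ z₂ : V → ℝ} (h1 : Pt Θ h z₁) (h2 : Pt Θ h z₂) {a : ℝ} (ha : 0 ≤ a)
    (ha1 : a ≤ 1) : Pt Θ h (z₁ + a • (z₂ - z₁)) := by
  refine ⟨?_, fun v => ?_⟩
  · rw [add_sub_right_comm]; exact Θ.add_mem h1.1 (Θ.smul_mem _ (h2.sub_mem h1))
  · have := h1.2 v; have := h2.2 v
    simp only [Pi.add_apply, Pi.smul_apply, Pi.sub_apply, smul_eq_mul]
    nlinarith

lemma comb_exact {z₁ z₂ : V → ℝ} (h1 : Pt Θ h z₁) (h2 : Pt Θ h z₂) {a : ℝ} (ha : 0 < a)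
    (ha1 : a ≤ 1) {σ : Finset V} (e1 : ∀ v ∈ σ, z₁ v = 0) (e2 : ∀ v, z₂ v = 0 ↔ v ∈ σ) (v : V) :
    (z₁ + a • (z₂ - z₁)) v = 0 ↔ v ∈ σ := by
  simp only [Pi.add_apply, Pi.smul_apply, Pi.sub_apply, smul_eq_mul]
  refine ⟨fun e => (e2 v).1 ?_, fun hv => by simp [e1 v hv, (e2 v).2 hv]⟩
  have := h1.2 v; have := h2.2 v
  have h3 : a * z₂ v ≤ 0 := by nlinarith
  exact le_antisymm (by by_contra hc; push Not at hc; nlinarith [mul_pos ha hc]) this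

lemma exists_exact_lt (hs : Simple Θ h) {σ : Finset V} {t : ℝ} (hρ : Vtx Θ h ρ) (hσ : σ ⊆ ρ)
    (hlt : ht Θ h ω ρ < t) : ∃ z, Pt Θ h z ∧ (∀ v, z v = 0 ↔ v ∈ σ) ∧ ω ⬝ᵥ z < t := by
  obtain ⟨z, h1, h2⟩ := hs.exact (hρ.1.mono hσ)
  have h3 := hs.pt_zv hρ
  have : ∀ᶠ a in 𝓝[>] (0 : ℝ), ω ⬝ᵥ (zv Θ h ρ + a • (z - zv Θ h ρ)) < t := by
    have hc : Continuous fun a : ℝ => ω ⬝ᵥ (zv Θ h ρ + a • (z - zv Θ h ρ)) := by fun_prop
    exact ((hc.tendsto 0).eventually (gt_mem_nhds (by simpa [ht] using hlt))).filter_mono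
      nhdsWithin_le_nhds
  obtain ⟨a, e1, e2⟩ := (this.and (Ioc_mem_nhdsGT zero_lt_one)).exists
  exact ⟨_, h3.comb h1 e2.1.le e2.2, comb_exact h3 h1 e2.1 e2.2
    (fun v hv => (hs.zv_eq_zero hρ v).2 (hσ hv)) h2, e1⟩

lemma exists_comb_eq {z₁ z₂ : V → ℝ} {t : ℝ} (h1 : ω ⬝ᵥ z₁ ≤ t) (h2 : t ≤ ω ⬝ᵥ z₂) :
    ∃ a : ℝ, 0 ≤ a ∧ a ≤ 1 ∧ (ω ⬝ᵥ z₁ < t → 0 < a) ∧ ω ⬝ᵥ (z₁ + a • (z₂ - z₁)) = t := by
  rcases h1.eq_or_lt with e | e
  · exact ⟨0, le_rfl, zero_le_one, fun h => absurd e h.ne, by simpa using e⟩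
  · have hp : 0 < ω ⬝ᵥ z₂ - ω ⬝ᵥ z₁ := by linarith
    refine ⟨(t - ω ⬝ᵥ z₁) / (ω ⬝ᵥ z₂ - ω ⬝ᵥ z₁), div_nonneg (by linarith) hp.le,
      (div_le_one hp).2 (by linarith), fun _ => div_pos (by linarith) hp, ?_⟩
    simp only [dotProduct_add, dotProduct_smul, dotProduct_sub, smul_eq_mul]
    field_simp; ring

/-- combinatorial description of the truncated complexes -/
def Cx (Θ : Submodule ℝ (V → ℝ)) (h : V → ℝ) (A B : Finset V → Prop) (σ : Finset (Option V)) :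
    Prop :=
  (∃ ρ, Vtx Θ h ρ ∧ eraseNone σ ⊆ ρ ∧ A ρ) ∧ (none ∈ σ → ∃ ρ, Vtx Θ h ρ ∧ eraseNone σ ⊆ ρ ∧ B ρ)

lemma face_hT (hb : Bdd Θ) (hs : Simple Θ h) (hg : Gen Θ h ω) (t : ℝ) :
    Face (Θ.map (iom ω)) (hT h ω t) =
      Cx Θ h (fun ρ => ht Θ h ω ρ ≤ t) (fun ρ => t ≤ ht Θ h ω ρ) := by
  funext σ
  apply propext
  constructor
  · rintro ⟨z, hz, h0⟩
    obtain ⟨h1, h2⟩ := pt_of_hT hz
    have h3 : ∀ v ∈ eraseNone σ, z (some v) = 0 := fun v hv => h0 _ (mem_eraseNone.1 hv)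
    have hf : Face Θ h (eraseNone σ) := ⟨_, h1, h3⟩
    constructor
    · obtain ⟨ρ, a, b, c⟩ := exists_bot hb hs hg hf
      refine ⟨ρ, a, b, ((hs.isBas a).ht_le h1 fun v hv => h3 v (c hv)).trans ?_⟩
      have := hz.2 none; linarith
    · intro hn
      obtain ⟨ρ, a, b, c⟩ := exists_top hb hs hg hf
      refine ⟨ρ, a, b, le_trans ?_ ((hs.isBas a).le_ht h1 fun v hv => h3 v (c hv))⟩
      have := h0 none hn; linarith
  · rintro ⟨⟨ρ, a, b, c⟩, h2⟩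
    by_cases hn : none ∈ σ
    · obtain ⟨ρ', a', b', c'⟩ := h2 hn
      obtain ⟨s, e1, e2, -, e3⟩ := exists_comb_eq (ω := ω) c c'
      refine ⟨_, pt_hT ((hs.pt_zv a).comb (hs.pt_zv a') e1 e2) e3.le, fun o ho => ?_⟩
      cases o with
      | none => rw [hT_none, e3, sub_self]
      | some v =>
        have hv := mem_eraseNone.2 ho
        simp [(hs.zv_eq_zero a v).2 (b hv), (hs.zv_eq_zero a' v).2 (b' hv)]
    · refine ⟨_, pt_hT (hs.pt_zv a) c, fun o ho => ?_⟩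
      cases o with
      | none => exact absurd ho hn
      | some v => simp [(hs.zv_eq_zero a v).2 (b (mem_eraseNone.2 ho))]

lemma exact_hT (hs : Simple Θ h) {t : ℝ} {σ : Finset (Option V)}
    (hσ : Cx Θ h (fun ρ => ht Θ h ω ρ < t) (fun ρ => t < ht Θ h ω ρ) σ) :
    Exact (Θ.map (iom ω)) (hT h ω t) σ := by
  obtain ⟨⟨ρ, a, b, c⟩, h2⟩ := hσ
  obtain ⟨z, e1, e2, e3⟩ := exists_exact_lt hs a b c
  by_cases hn : none ∈ σ
  · obtain ⟨ρ', a', b', c'⟩ := h2 hn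
    obtain ⟨z', f1, f2, f3⟩ := exists_exact_lt (ω := -ω) (t := -t) hs a' b' (by
      rw [ht_neg]; linarith)
    obtain ⟨s, g1, g2, g3, g4⟩ := exists_comb_eq (ω := ω) (z₂ := z') e3.le (by
      simp at f3; linarith)
    refine ⟨_, pt_hT (e1.comb f1 g1 g2) g4.le, fun o => ?_⟩
    cases o with
    | none => rw [hT_none, g4, sub_self]; simp [hn]
    | some v =>
      rw [hT_some, comb_exact e1 f1 (g3 e3) g2 (fun v hv => (e2 v).2 hv) f2, mem_eraseNone]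
  · refine ⟨_, pt_hT e1 e3.le, fun o => ?_⟩
    cases o with
    | none => simp [hn, sub_eq_zero, e3.ne']
    | some v => rw [hT_some, e2, mem_eraseNone]

lemma indep_hT (hs : Simple Θ h) {t : ℝ} {σ : Finset (Option V)}
    (hσ : Cx Θ h (fun ρ => ht Θ h ω ρ < t) (fun ρ => t < ht Θ h ω ρ) σ) :
    Indep (Θ.map (iom ω)) σ := by
  obtain ⟨⟨ρ, a, b, c⟩, h2⟩ := hσ
  intro x
  obtain ⟨θ, e1, e2⟩ := (hs _ a.1).mono b fun v => x (some v)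
  by_cases hn : none ∈ σ
  · obtain ⟨ρ', a', b', c'⟩ := h2 hn
    have hp : 0 < ht Θ h ω ρ' - ht Θ h ω ρ := by linarith
    refine ⟨_, ⟨θ + ((x none + ω ⬝ᵥ θ) / (ht Θ h ω ρ' - ht Θ h ω ρ)) • (zv Θ h ρ - zv Θ h ρ'),
      Θ.add_mem e1 (Θ.smul_mem _ ((hs.pt_zv a).sub_mem (hs.pt_zv a'))), rfl⟩, fun o ho => ?_⟩
    cases o with
    | none =>
      simp only [iom_none, dotProduct_add, dotProduct_smul, dotProduct_sub, smul_eq_mul]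
      change -(_ + _ * (ht Θ h ω ρ - ht Θ h ω ρ')) = _
      field_simp; ring
    | some v =>
      have hv := mem_eraseNone.2 ho
      simp [(hs.zv_eq_zero a v).2 (b hv), (hs.zv_eq_zero a' v).2 (b' hv), e2 v hv]
  · refine ⟨_, ⟨θ, e1, rfl⟩, fun o ho => ?_⟩
    cases o with
    | none => exact absurd ho hn
    | some v => exact e2 v (mem_eraseNone.2 ho)

lemma Cx_congr {A B A' B' : Finset V → Prop} (hA : ∀ ρ, Vtx Θ h ρ → (A ρ ↔ A' ρ))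
    (hB : ∀ ρ, Vtx Θ h ρ → (B ρ ↔ B' ρ)) : Cx Θ h A B = Cx Θ h A' B' := by
  funext σ
  apply propext
  unfold Cx
  refine and_congr (exists_congr fun ρ => and_congr_right fun a => by rw [hA ρ a])
    (imp_congr_right fun _ => exists_congr fun ρ => and_congr_right fun a => by rw [hB ρ a])

lemma Cx.mono {A B : Finset V → Prop} {σ τ : Finset (Option V)} (H' : Cx Θ h A B τ) (hs : σ ⊆ τ) :
    Cx Θ h A B σ := by
  have : eraseNone σ ⊆ eraseNone τ := eraseNone.monotone hs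
  obtain ⟨⟨ρ, a, b, c⟩, h2⟩ := H'
  refine ⟨⟨ρ, a, this.trans b, c⟩, fun hn => ?_⟩
  obtain ⟨ρ, a, b, c⟩ := h2 (hs hn)
  exact ⟨ρ, a, this.trans b, c⟩

lemma Cx.imp {A B A' B' : Finset V → Prop} {σ : Finset (Option V)} (H' : Cx Θ h A B σ)
    (hA : ∀ ρ, A ρ → A' ρ) (hB : ∀ ρ, B ρ → B' ρ) : Cx Θ h A' B' σ := by
  obtain ⟨⟨ρ, a, b, c⟩, h2⟩ := H'
  refine ⟨⟨ρ, a, b, hA _ c⟩, fun hn => ?_⟩
  obtain ⟨ρ, a, b, c⟩ := h2 hn
  exact ⟨ρ, a, b, hB _ c⟩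

lemma simple_hT (hb : Bdd Θ) (hs : Simple Θ h) (hg : Gen Θ h ω) {t : ℝ}
    (hT' : ∀ ρ, Vtx Θ h ρ → ht Θ h ω ρ ≠ t) : Simple (Θ.map (iom ω)) (hT h ω t) := by
  intro σ hσ
  rw [face_hT hb hs hg, Cx_congr (A' := fun ρ => ht Θ h ω ρ < t) (B' := fun ρ => t < ht Θ h ω ρ)
    (fun ρ a => ⟨fun b => lt_of_le_of_ne b (hT' ρ a), le_of_lt⟩)
    (fun ρ a => ⟨fun b => lt_of_le_of_ne b (hT' ρ a).symm, le_of_lt⟩)] at hσ
  exact indep_hT hs hσ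

lemma gam_dot_hT (hb : IsBas Θ ρ) (t : ℝ) : gam Θ ω ρ ⬝ᵥ hT h ω t = t - ht Θ h ω ρ := by
  have := hb.ht_eq (h := h) ω (z := h) (by simp)
  rw [dot_option]
  simp only [gam_none, hT_none, gam_some, hT_some]
  change _ + bv Θ ω ρ ⬝ᵥ h = _
  linarith

lemma gam_dot_theta (hb : IsBas Θ ρ) : ∀ θ ∈ Θ.map (iom ω), gam Θ ω ρ ⬝ᵥ θ = 0 := by
  rintro _ ⟨θ, hθ, rfl⟩
  rw [dot_option]
  simp only [gam_none, iom_none, gam_some, iom_some]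
  change _ + bv Θ ω ρ ⬝ᵥ θ = _
  rw [hb.bv_dot_theta ω hθ]; ring

lemma exists_lt_of_le (hb : Bdd Θ) (hs : Simple Θ h) (hg : Gen Θ h ω) (hρ : Vtx Θ h ρ)
    {σ : Finset V} (h1 : ∃ ρ', Vtx Θ h ρ' ∧ σ ⊆ ρ' ∧ ht Θ h ω ρ' ≤ ht Θ h ω ρ)
    (h2 : ¬ Down Θ ω ρ ⊆ σ) : ∃ ρ', Vtx Θ h ρ' ∧ σ ⊆ ρ' ∧ ht Θ h ω ρ' < ht Θ h ω ρ := by
  obtain ⟨ρ', a, b, c⟩ := h1
  obtain ⟨ρ'', a', b', c'⟩ := exists_bot hb hs hg (a.1.mono b)
  refine ⟨ρ'', a', b', lt_of_le_of_ne ((hs.ht_le a' a (c'.trans b)).trans c) fun e => h2 ?_⟩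
  rwa [← hg.ht_inj hs a' hρ e]

lemma exists_gt_of_ge (hb : Bdd Θ) (hs : Simple Θ h) (hg : Gen Θ h ω) (hρ : Vtx Θ h ρ)
    {σ : Finset V} (h1 : ∃ ρ', Vtx Θ h ρ' ∧ σ ⊆ ρ' ∧ ht Θ h ω ρ ≤ ht Θ h ω ρ')
    (h2 : ¬ Up Θ ω ρ ⊆ σ) : ∃ ρ', Vtx Θ h ρ' ∧ σ ⊆ ρ' ∧ ht Θ h ω ρ < ht Θ h ω ρ' := by
  have := exists_lt_of_le hb hs hg.neg hρ (σ := σ) (by simpa [ht_neg] using h1)
    (by rwa [Down_neg])
  simpa [ht_neg] using this

end Pool.Agent.MP_d1780f_co.H86
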