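import Pool.Agent.MP_d1780f_co.H86.Crit

/-! Wall crossing for degree functionals and signatures. -/

set_option linter.unusedSectionVars false

namespace Pool.Agent.MP_d1780f_co.H86

open Module MvPolynomial Finset Filter Topology

universe u

variable {V : Type u} [Fintype V] [DecidableEq V]

lemma mem_K_evd {d a : ℕ} {x : V → ℝ} {f : S V} (hf : f ∈ H V a) (h : aeval x f = 0) :
    f ∈ K (evd d x) :=
  mem_K_of_homog (inDeg_evd d x) hf fun m hm g hg => by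
    rw [evd_of_mem _ (mul_memH' hf hg hm), map_mul, h, zero_mul]

lemma mem_K_add_smul {φ ψ : S V →ₗ[ℝ] ℝ} {f : S V} (c : ℝ) (h1 : f ∈ K φ) (h2 : f ∈ K ψ) :
    f ∈ K (φ + c • ψ) := fun g => by simp [h1 g, h2 g]

lemma InDeg.add_smul {d : ℕ} {φ ψ : S V →ₗ[ℝ] ℝ} (c : ℝ) (h1 : InDeg d φ) (h2 : InDeg d ψ) :
    InDeg d (φ + c • ψ) := fun k f hf hk => by simp [h1 k f hf hk, h2 k f hf hk]

lemma sign_prod {x : V → ℝ} {N P σ : Finset V} (hN : ∀ v ∈ N, x v < 0) (hP : ∀ v ∈ P, 0 < x v)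
    (hσ : σ ⊆ N ∪ P) : 0 < (-1) ^ (σ ∩ N).card * ∏ v ∈ σ, x v := by
  rw [← prod_inter_mul_prod_sdiff σ N, ← mul_assoc, ← prod_const, ← prod_mul_distrib]
  refine mul_pos (prod_pos fun v hv => ?_) (prod_pos fun v hv => ?_)
  · have := hN v (mem_inter.1 hv).2; linarith
  · obtain ⟨a, b⟩ := mem_sdiff.1 hv
    exact hP v ((mem_union.1 (hσ a)).resolve_left b)

lemma sign_mul {n : ℕ} {a b : ℝ} (ha : 0 < (-1) ^ n * a) (hb : 0 < (-1) ^ n * b) : 0 < a * b := by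
  have := mul_pos ha hb
  have e : (-1 : ℝ) ^ n * a * ((-1) ^ n * b) = ((-1) ^ n * (-1) ^ n) * (a * b) := by ring
  rwa [e, ← mul_pow, neg_one_mul, neg_neg, one_pow, one_mul] at this

theorem wall {Θ : Submodule ℝ (V → ℝ)} {Δm Δp : Finset V → Prop} {x : V → ℝ} {N P : Finset V}
    {d : ℕ} (hN : ∀ v, v ∈ N ↔ x v < 0) (hP : ∀ v, v ∈ P ↔ 0 < x v)
    (hmono : ∀ σ τ, Δp τ → σ ⊆ τ → Δp σ)
    (W1 : ∀ σ, ¬ σ ⊆ N ∪ P → (Δp σ ↔ Δm σ))
    (W2m : ∀ σ, σ ⊆ N ∪ P → (Δm σ ↔ ¬ N ⊆ σ))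
    (W2p : ∀ σ, σ ⊆ N ∪ P → (Δp σ ↔ ¬ P ⊆ σ))
    (hx : ∀ θ ∈ Θ, x ⬝ᵥ θ = 0)
    (W4 : ∀ z, x ⬝ᵥ z = 0 → ∃ θ ∈ Θ, ∀ v ∈ N ∪ P, θ v = z v)
    (hcard : N.card + P.card = d + 1)
    {φ : S V →ₗ[ℝ] ℝ} (hφ : IsDeg Θ Δm d φ) :
    ∃ ε : ℝ, 0 < (-1) ^ N.card * ε ∧ IsDeg Θ Δp d (φ + ε • evd d x) := by
  have hdisj : Disjoint N P := by
    rw [disjoint_left]; intro v a b; exact lt_asymm ((hN v).1 a) ((hP v).1 b)
  have hout : ∀ v, v ∉ N ∪ P → x v = 0 := by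
    intro v hv
    rw [mem_union, not_or, hN, hP] at hv
    exact le_antisymm (not_lt.1 hv.2) (not_lt.1 hv.1)
  have hev : ∀ σ, ¬ σ ⊆ N ∪ P → aeval x (xs σ) = 0 := by
    intro σ hσ
    obtain ⟨v, a, b⟩ := not_subset.1 hσ
    rw [aeval_xs]; exact prod_eq_zero a (hout v b)
  have hsign := fun σ => sign_prod (σ := σ) (fun v => (hN v).1) (fun v => (hP v).1)
  have hcu : (N ∪ P).card = d + 1 := by rw [card_union_of_disjoint hdisj, hcard]
  have key : ∃ ε : ℝ, 0 < (-1) ^ N.card * ε ∧ xs P ∈ K (φ + ε • evd d x) := by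
    rcases N.eq_empty_or_nonempty with h0 | ⟨n, hn⟩
    · refine ⟨1, by simp [h0], mem_K_of_lt (hφ.deg.add_smul _ (inDeg_evd d x)) (xs_mem P) ?_⟩
      rw [h0] at hcard; simp at hcard; omega
    have hNc : 0 < N.card := card_pos.2 ⟨n, hn⟩
    have hx0 : x ≠ 0 := fun h0 => by have := (hN n).1 hn; simp [h0] at this
    obtain ⟨c, hc⟩ := exists_smul_eval hx0 (N.card - 1) (φ ∘ₗ LinearMap.mulLeft ℝ (xs P)) (by
      intro z hz j _ g _
      obtain ⟨θ, h1, h2⟩ := W4 z hz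
      simp only [LinearMap.comp_apply, LinearMap.mulLeft_apply]
      have e : lin z = lin θ + ∑ v, (z v - θ v) • (X v : S V) := by
        simp only [lin_apply, ← sum_add_distrib, ← add_smul, add_sub_cancel]
      rw [e, add_mul, mul_add, map_add, mul_left_comm, hφ.theta θ h1, zero_add, sum_mul, mul_sum,
        map_sum]
      refine sum_eq_zero fun v _ => ?_
      by_cases hv : v ∈ N ∪ P
      · simp [h2 v hv]
      · have hvP : v ∉ P := fun h' => hv (mem_union_right _ h')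
        rw [smul_mul_assoc, mul_smul_comm, map_smul, ← mul_assoc, mul_comm (xs P),
          ← xs_insert hvP, hφ.nonface, smul_zero]
        intro h'
        have := (W1 _ fun h'' => hv (h'' (mem_insert_self _ _))).2 h'
        exact (W2p P subset_union_right).1 (hmono _ _ this (subset_insert _ _)) le_rfl)
    have hpP : 0 < ∏ v ∈ P, x v := prod_pos fun v hv => (hP v).1 hv
    have hK : xs P ∈ K (φ + (-c / ∏ v ∈ P, x v) • evd d x) := by
      refine mem_K_of_homog (hφ.deg.add_smul _ (inDeg_evd d x)) (xs_mem P) fun m hm g hg => ?_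
      have : m = N.card - 1 := by omega
      subst this
      have := hc g hg
      simp only [LinearMap.comp_apply, LinearMap.mulLeft_apply] at this
      rw [LinearMap.add_apply, this, LinearMap.smul_apply, evd_of_mem _ (mul_memH' (xs_mem P) hg hm),
        map_mul, aeval_xs, smul_eq_mul]
      field_simp; ring
    refine ⟨_, ?_, hK⟩
    set ε := -c / ∏ v ∈ P, x v
    have hσ : (N ∪ P).erase n ⊆ N ∪ P := erase_subset _ _
    have hcσ : ((N ∪ P).erase n).card = d := by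
      rw [card_erase_of_mem (mem_union_left _ hn), hcu]; rfl
    have h1 : P ⊆ (N ∪ P).erase n := fun v hv =>
      mem_erase.2 ⟨by rintro rfl; exact disjoint_left.1 hdisj hn hv, mem_union_right _ hv⟩
    have h2 := hφ.pos _ ((W2m _ hσ).2 fun h' => by simpa using h' hn) hcσ
    have h3 := hK (xs ((N ∪ P).erase n \ P))
    rw [← xs_sdiff h1, LinearMap.add_apply, LinearMap.smul_apply,
      evd_of_mem _ (hcσ ▸ xs_mem _), aeval_xs, smul_eq_mul] at h3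
    have h4 := hsign _ hσ
    have h5 : ((N ∪ P).erase n ∩ N).card + 1 = N.card := by
      rw [erase_inter, union_inter_cancel_left, card_erase_add_one hn]
    rw [← h5, pow_succ]
    have h6 : 0 < -ε * ∏ v ∈ (N ∪ P).erase n, x v := by linarith
    have hne : (∏ v ∈ (N ∪ P).erase n, x v) ≠ 0 := right_ne_zero_of_mul h6.ne'
    have h7 := mul_pos h4 h6
    have h8 : 0 < (∏ v ∈ (N ∪ P).erase n, x v) ^ 2 := by positivity
    have e : (-1) ^ ((N ∪ P).erase n ∩ N).card * (∏ v ∈ (N ∪ P).erase n, x v) *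
        (-ε * ∏ v ∈ (N ∪ P).erase n, x v) = (∏ v ∈ (N ∪ P).erase n, x v) ^ 2 *
        ((-1) ^ ((N ∪ P).erase n ∩ N).card * -1 * ε) := by ring
    rw [e] at h7
    exact (mul_pos_iff_of_pos_left h8).1 h7
  obtain ⟨ε, hε, hK⟩ := key
  refine ⟨ε, hε, hφ.deg.add_smul _ (inDeg_evd d x), fun σ hσ => ?_, fun θ hθ => ?_,
    fun σ hσ hc => ?_⟩
  · by_cases hs : σ ⊆ N ∪ P
    · have : P ⊆ σ := by by_contra h'; exact hσ ((W2p σ hs).2 h')
      rw [xs_sdiff this]; exact Ideal.mul_mem_right _ _ hK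
    · exact mem_K_add_smul _ (hφ.nonface _ fun h' => hσ ((W1 σ hs).2 h'))
        (mem_K_evd (xs_mem σ) (hev σ hs))
  · exact mem_K_add_smul _ (hφ.theta θ hθ) (mem_K_evd (lin_mem θ) (by rw [aeval_lin, hx θ hθ]))
  · rw [LinearMap.add_apply, LinearMap.smul_apply, evd_of_mem _ (hc ▸ xs_mem σ), smul_eq_mul]
    by_cases hs : σ ⊆ N ∪ P
    · have h1 := (W2p σ hs).1 hσ
      obtain ⟨p, hp, hp'⟩ := not_subset.1 h1
      have h2 : N ⊆ σ := by
        intro n hn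
        by_contra hn'
        have hne : n ≠ p := by rintro rfl; exact disjoint_left.1 hdisj hn hp
        have : σ ⊆ ((N ∪ P).erase p).erase n := fun v hv =>
          mem_erase.2 ⟨by rintro rfl; exact hn' hv, mem_erase.2 ⟨by rintro rfl; exact hp' hv, hs hv⟩⟩
        have h3 := card_le_card this
        rw [card_erase_of_mem (mem_erase.2 ⟨hne, mem_union_left _ hn⟩),
          card_erase_of_mem (mem_union_right _ hp), hcu] at h3
        have := card_pos.2 ⟨n, hn⟩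
        have := card_pos.2 ⟨p, hp⟩
        omega
      rw [K_apply (hφ.nonface σ fun h' => (W2m σ hs).1 h' h2), zero_add, aeval_xs]
      have h4 := hsign σ hs
      rw [inter_eq_right.2 h2] at h4
      exact sign_mul hε h4
    · rw [hev σ hs, mul_zero, add_zero]
      exact hφ.pos σ ((W1 σ hs).1 hσ) hc

lemma Bf_add_evd (s ε : ℝ) (φ : S V →ₗ[ℝ] ℝ) (x h : V → ℝ) {d m k : ℕ} (hd : 2 * k + m = d)
    (f : H V k) : Bf s (φ + ε • evd d x) h m k f f =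
      Bf s φ h m k f f + (s * ε * (x ⬝ᵥ h) ^ m) * (aeval x f.1) ^ 2 := by
  rw [Bf_apply, Bf_apply, LinearMap.add_apply, LinearMap.smul_apply,
    evd_of_mem _ (mul_memH' (mul_memH f.2 f.2) (lin_pow_mem h m) (by omega)), map_mul (aeval x),
    map_mul (aeval x), map_pow (aeval x), aeval_lin, smul_eq_mul]
  ring

lemma np_Bf_locconst {s : ℝ} (hs : s ≠ 0) {φ : S V →ₗ[ℝ] ℝ} {d m k : ℕ} (hφ : InDeg d φ)
    (hd : 2 * k + m = d) {h : ℝ → V → ℝ} (hc : Continuous h) {t : ℝ} (hl : HLat φ (h t) d k) :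
    ∀ᶠ a in 𝓝 t, np (Bf s φ (h a) m k) = np (Bf s φ (h t) m k) :=
  np_locconst (B := fun a => Bf s φ (h a) m k) (fun f g => (continuous_Bf s φ m k f g).comp hc)
    (fun a => Bf_symm s φ (h a) m k) t fun _ => ker_Bf_le hs hφ hd hl _

lemma np_Bf_const {s : ℝ} (hs : s ≠ 0) {φ : S V →ₗ[ℝ] ℝ} {d m k : ℕ} (hφ : InDeg d φ)
    (hd : 2 * k + m = d) {h : ℝ → V → ℝ} (hc : Continuous h) {A : Set ℝ} (hA : IsPreconnected A)
    (hl : ∀ t ∈ A, HLat φ (h t) d k) {a b : ℝ} (ha : a ∈ A) (hb : b ∈ A) :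
    np (Bf s φ (h a) m k) = np (Bf s φ (h b) m k) :=
  np_const_of_preconnected (B := fun a => Bf s φ (h a) m k)
    (fun f g => (continuous_Bf s φ m k f g).comp hc)
    (fun a => Bf_symm s φ (h a) m k) hA (fun t ht _ => ker_Bf_le hs hφ hd (hl t ht) _) ha hb

lemma jump_one {s ε : ℝ} (hs : s ≠ 0) {φ : S V →ₗ[ℝ] ℝ} {d m k : ℕ} (hφ : InDeg d φ)
    (hd : 2 * k + m = d) {h : ℝ → V → ℝ} (hc : Continuous h) {t : ℝ} (hl : HLat φ (h t) d k)
    {x : V → ℝ} {σ : Finset V} (hσ : xs σ ∈ K φ) (hσk : σ.card ≤ k) (hσx : ∀ v ∈ σ, x v ≠ 0)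
    (hx : x ≠ 0) {l l' : Filter ℝ} [l.NeBot] [l'.NeBot] (h1 : l ≤ 𝓝 t) (h2 : l' ≤ 𝓝 t) {A B : ℕ}
    (hA : ∀ᶠ a in l, np (Bf s φ (h a) m k) = A)
    (hB : ∀ᶠ a in l', np (Bf s (φ + ε • evd d x) (h a) m k) = B) (p : Prop) [Decidable p]
    (hp : ∀ᶠ a in l', 0 < s * ε * (x ⬝ᵥ h a) ^ m ↔ p) : B = A + if p then 1 else 0 := by
  have hloc := np_Bf_locconst hs hφ hd hc hl
  obtain ⟨a, e1, e2⟩ := (hA.and (hloc.filter_mono h1)).exists
  obtain ⟨b, e3, e4, e5⟩ := (hB.and (hp.and (hloc.filter_mono h2))).exists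
  have hmem : xs σ * lin x ^ (k - σ.card) ∈ H V k :=
    mul_memH' (xs_mem σ) (lin_pow_mem x _) (by omega)
  have := np_rank_one (B' := Bf s (φ + ε • evd d x) (h b) m k) (Bf_symm s φ (h b) m k)
    ((aeval x : S V →ₐ[ℝ] ℝ).toLinearMap ∘ₗ (H V k).subtype) (s * ε * (x ⬝ᵥ h b) ^ m)
    (fun f => Bf_add_evd s ε φ x (h b) hd f) ⟨_, hmem⟩ (fun y => by
      rw [Bf_apply]; simp only
      rw [mul_assoc, mul_assoc, hσ, mul_zero]) (by
      simp only [LinearMap.comp_apply, Submodule.subtype_apply, AlgHom.toLinearMap_apply, map_mul,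
        map_pow, aeval_lin, aeval_xs]
      exact mul_ne_zero (prod_ne_zero_iff.2 hσx)
        (pow_ne_zero _ fun h0 => hx (dotProduct_self_eq_zero.1 h0)))
  rw [← e3, this, e5, ← e2, e1]
  simp only [e4]

lemma jump_zero {s ε : ℝ} (hs : s ≠ 0) {φ : S V →ₗ[ℝ] ℝ} {d m k : ℕ} (hφ : InDeg d φ)
    (hd : 2 * k + m = d) (hm : m ≠ 0) {h : ℝ → V → ℝ} (hc : Continuous h) {t : ℝ} {x : V → ℝ}
    (hl : HLat φ (h t) d k) (hl' : HLat (φ + ε • evd d x) (h t) d k) (hx : x ⬝ᵥ h t = 0)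
    {l l' : Filter ℝ} [l.NeBot] [l'.NeBot] (h1 : l ≤ 𝓝 t) (h2 : l' ≤ 𝓝 t) {A B : ℕ}
    (hA : ∀ᶠ a in l, np (Bf s φ (h a) m k) = A)
    (hB : ∀ᶠ a in l', np (Bf s (φ + ε • evd d x) (h a) m k) = B) : B = A := by
  obtain ⟨a, e1, e2⟩ := (hA.and ((np_Bf_locconst hs hφ hd hc hl).filter_mono h1)).exists
  obtain ⟨b, e3, e4⟩ := (hB.and ((np_Bf_locconst hs (hφ.add_smul ε (inDeg_evd d x)) hd hc
    hl').filter_mono h2)).exists
  rw [← e3, e4, ← e1, e2]
  exact np_congr fun f => by rw [Bf_add_evd s ε φ x (h t) hd f, hx]; simp [hm]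

end Pool.Agent.MP_d1780f_co.H86
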